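import Mathlib

set_option autoImplicit false

namespace Pool.Agent.DensePP

section W

variable {R : Type*} [CommRing R]

/-- Continuants: `(W a n).1` is the continuant of `a 0, …, a (n-1)` and `(W a n).2` the one of
`a 1, …, a (n-1)`. -/
def W : (ℕ → R) → ℕ → R × R
  | _, 0 => (1, 0)
  | a, n + 1 => (a 0 * (W (fun i => a (i + 1)) n).1 - (W (fun i => a (i + 1)) n).2,
      (W (fun i => a (i + 1)) n).1)

theorem W_zero (a : ℕ → R) : W a 0 = (1, 0) := rfl

theorem W_succ (a : ℕ → R) (n : ℕ) : W a (n + 1) =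
    (a 0 * (W (fun i => a (i + 1)) n).1 - (W (fun i => a (i + 1)) n).2,
      (W (fun i => a (i + 1)) n).1) := rfl

theorem W_congr (n : ℕ) : ∀ (a b : ℕ → R), (∀ i < n, a i = b i) → W a n = W b n := by
  induction n with
  | zero => intro a b _; rfl
  | succ n ih =>
    intro a b h
    rw [W_succ, W_succ, h 0 (Nat.succ_pos n),
      ih (fun i => a (i + 1)) (fun i => b (i + 1)) (fun i hi => h (i + 1) (by omega))]

theorem W_map {S : Type*} [CommRing S] (f : R →+* S) (n : ℕ) : ∀ (a : ℕ → R),
    W (fun i => f (a i)) n = (f (W a n).1, f (W a n).2) := by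
  induction n with
  | zero => intro a; simp [W_zero]
  | succ n ih =>
    intro a
    rw [W_succ, W_succ, ih (fun i => a (i + 1))]
    simp

theorem W_identity {M : Type*} [AddCommGroup M] [Module R M] (n : ℕ) : ∀ (a : ℕ → R) (u : ℕ → M),
    (∀ j < n, u j + u (j + 2) = a j • u (j + 1)) →
    (W a n).1 • u 1 = (W a n).2 • u 0 + u (n + 1) := by
  induction n with
  | zero => intro a u _; simp [W_zero]
  | succ n ih =>
    intro a u h
    have h1 := ih (fun i => a (i + 1)) (fun i => u (i + 1)) (fun j hj => h (j + 1) (by omega))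
    have h0 := h 0 (Nat.succ_pos n)
    rw [W_succ]
    simp only [sub_smul]
    simp only [zero_add] at h0 h1
    have h2 : (a 0 * (W (fun i => a (i + 1)) n).1) • u 1
        = (W (fun i => a (i + 1)) n).1 • (u 0 + u 2) := by
      rw [h0, smul_smul, mul_comm]
    rw [h2, smul_add]
    have h3 : (W (fun i => a (i + 1)) n).1 • u 2
        = (W (fun i => a (i + 1)) n).2 • u 1 + u (n + 1 + 1) := h1
    rw [h3]
    abel

/-- The continuant pair never vanishes. -/
theorem W_ne_zero [Nontrivial R] (n : ℕ) : ∀ (a : ℕ → R), (W a n).1 ≠ 0 ∨ (W a n).2 ≠ 0 := by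
  induction n with
  | zero => intro a; left; simp [W_zero]
  | succ n ih =>
    intro a
    by_contra hcon
    push Not at hcon
    rw [W_succ] at hcon
    obtain ⟨h1, h2⟩ := hcon
    simp only at h1 h2
    rcases ih (fun i => a (i + 1)) with h | h
    · exact h h2
    · rw [h2] at h1
      apply h
      simpa using h1

end W

section Win

variable {R : Type*} [CommRing R]

/-- the right arm of diagonal entries -/
def rarm (a : ℤ → R) (x : ℤ) : ℕ → R := fun i => a (x + 1 + i)

/-- the left arm of diagonal entries -/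
def larm (a : ℤ → R) (x : ℤ) : ℕ → R := fun i => a (x - 1 - i)

def cR (a : ℤ → R) (x : ℤ) (l : ℕ) : R := (W (rarm a x) l).1
def cR' (a : ℤ → R) (x : ℤ) (l : ℕ) : R := (W (rarm a x) l).2
def cL (a : ℤ → R) (x : ℤ) (l : ℕ) : R := (W (larm a x) l).1
def cL' (a : ℤ → R) (x : ℤ) (l : ℕ) : R := (W (larm a x) l).2

/-- determinant of the window `[x-l, x+l]` -/
def DW (a : ℤ → R) (x : ℤ) (l : ℕ) : R :=
  a x * (cL a x l * cR a x l) - cL a x l * cR' a x l - cR a x l * cL' a x l

theorem DW_identity {M : Type*} [AddCommGroup M] [Module R M] (a : ℤ → R) (u : ℤ → M)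
    (h : ∀ j, u (j + 1) + u (j - 1) = a j • u j) (x : ℤ) (l : ℕ) :
    DW a x l • u x = cR a x l • u (x - l - 1) + cL a x l • u (x + l + 1) := by
  have hR : cR a x l • u (x + 1) = cR' a x l • u x + u (x + l + 1) := by
    have := W_identity l (rarm a x) (fun i => u (x + i)) (fun j _ => by
      have h1 := h (x + 1 + j)
      simp only [rarm]
      have e1 : x + 1 + (j : ℤ) + 1 = x + ((j + 2 : ℕ) : ℤ) := by push_cast; ring
      have e2 : x + 1 + (j : ℤ) - 1 = x + (j : ℤ) := by ring
      have e3 : x + 1 + (j : ℤ) = x + ((j + 1 : ℕ) : ℤ) := by push_cast; ring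
      rw [e1, e2] at h1
      rw [add_comm, h1, e3])
    simp only [Nat.cast_one, Nat.cast_zero, add_zero] at this
    have e : x + ((l + 1 : ℕ) : ℤ) = x + l + 1 := by push_cast; ring
    rw [e] at this
    exact this
  have hL : cL a x l • u (x - 1) = cL' a x l • u x + u (x - l - 1) := by
    have := W_identity l (larm a x) (fun i => u (x - i)) (fun j _ => by
      have h1 := h (x - 1 - j)
      simp only [larm]
      have e1 : x - 1 - (j : ℤ) - 1 = x - ((j + 2 : ℕ) : ℤ) := by push_cast; ring
      have e2 : x - 1 - (j : ℤ) + 1 = x - (j : ℤ) := by ring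
      have e3 : x - 1 - (j : ℤ) = x - ((j + 1 : ℕ) : ℤ) := by push_cast; ring
      rw [e1, e2] at h1
      rw [h1, e3])
    simp only [Nat.cast_one, Nat.cast_zero, sub_zero] at this
    have e : x - ((l + 1 : ℕ) : ℤ) = x - l - 1 := by push_cast; ring
    rw [e] at this
    exact this
  have h0 := h x
  have e1 : DW a x l • u x = (cL a x l * cR a x l) • (a x • u x) - cL a x l • (cR' a x l • u x)
      - cR a x l • (cL' a x l • u x) := by
    simp only [DW, smul_smul, ← sub_smul]
    congr 1
    ring
  rw [e1, ← h0, smul_add]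
  have e2 : (cL a x l * cR a x l) • u (x + 1) = cL a x l • (cR' a x l • u x + u (x + l + 1)) := by
    rw [← hR, smul_smul]
  have e3 : (cL a x l * cR a x l) • u (x - 1) = cR a x l • (cL' a x l • u x + u (x - l - 1)) := by
    rw [← hL, smul_smul, mul_comm]
  rw [e2, e3, smul_add, smul_add]
  abel

theorem cR_map {S : Type*} [CommRing S] (f : R →+* S) (a : ℤ → R) (x : ℤ) (l : ℕ) :
    cR (fun i => f (a i)) x l = f (cR a x l) := by
  simp only [cR]
  have := W_map f l (rarm a x)
  exact congrArg Prod.fst this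

theorem cR'_map {S : Type*} [CommRing S] (f : R →+* S) (a : ℤ → R) (x : ℤ) (l : ℕ) :
    cR' (fun i => f (a i)) x l = f (cR' a x l) := by
  simp only [cR']
  have := W_map f l (rarm a x)
  exact congrArg Prod.snd this

theorem cL_map {S : Type*} [CommRing S] (f : R →+* S) (a : ℤ → R) (x : ℤ) (l : ℕ) :
    cL (fun i => f (a i)) x l = f (cL a x l) := by
  simp only [cL]
  have := W_map f l (larm a x)
  exact congrArg Prod.fst this

theorem cL'_map {S : Type*} [CommRing S] (f : R →+* S) (a : ℤ → R) (x : ℤ) (l : ℕ) :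
    cL' (fun i => f (a i)) x l = f (cL' a x l) := by
  simp only [cL']
  have := W_map f l (larm a x)
  exact congrArg Prod.snd this

theorem DW_map {S : Type*} [CommRing S] (f : R →+* S) (a : ℤ → R) (x : ℤ) (l : ℕ) :
    DW (fun i => f (a i)) x l = f (DW a x l) := by
  simp only [DW, cR_map, cL_map, cR'_map, cL'_map, map_sub, map_mul]

end Win

end Pool.Agent.DensePP
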