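import Mathlib

set_option autoImplicit false

namespace Pool.Agent.DensePP

open MeasureTheory Set
open scoped ENNReal

/-- squared norm on a set -/
noncomputable def SI (s : Set ℝ) (g : ℝ → ℝ) : ℝ≥0∞ := ∫⁻ x in s, ENNReal.ofReal (g x ^ 2)

/-- squared norm -/
noncomputable def SS (g : ℝ → ℝ) : ℝ≥0∞ := ∫⁻ x, ENNReal.ofReal (g x ^ 2)

/-- squared norm of the difference to a translate -/
noncomputable def AA (t : ℝ) (g : ℝ → ℝ) : ℝ≥0∞ := ∫⁻ x, ENNReal.ofReal ((g x - g (x + t)) ^ 2)

theorem SS_shift (g : ℝ → ℝ) (a : ℝ) : SS (fun x => g (x + a)) = SS g :=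
  lintegral_add_right_eq_self (fun x => ENNReal.ofReal (g x ^ 2)) a

theorem AA_shift (t : ℝ) (g : ℝ → ℝ) (a : ℝ) : AA t (fun x => g (x + a)) = AA t g := by
  have := lintegral_add_right_eq_self (μ := volume)
    (fun x => ENNReal.ofReal ((g x - g (x + t)) ^ 2)) a
  rw [AA, AA, ← this]
  congr 1
  funext x
  rw [add_right_comm]

/-- average with a translate -/
noncomputable def av (t : ℝ) (g : ℝ → ℝ) : ℝ → ℝ := fun x => (g x + g (x + t)) / 2

theorem av_meas (t : ℝ) (g : ℝ → ℝ) (hg : Measurable g) : Measurable (av t g) := by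
  unfold av; fun_prop

theorem par (t : ℝ) (g : ℝ → ℝ) (hg : Measurable g) :
    4 * SS (av t g) + AA t g = 4 * SS g := by
  have e1 : 4 * SS (av t g) + AA t g = ∫⁻ x, (ENNReal.ofReal (2 * g x ^ 2)
      + ENNReal.ofReal (2 * g (x + t) ^ 2)) := by
    rw [SS, AA, ← lintegral_const_mul _ (by unfold av; fun_prop), ← lintegral_add_left
      (by unfold av; fun_prop)]
    apply lintegral_congr
    intro x
    have h4 : (4 : ℝ≥0∞) = ENNReal.ofReal 4 := by simp
    rw [h4, ← ENNReal.ofReal_mul (by norm_num), ← ENNReal.ofReal_add (by positivity)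
      (by positivity), ← ENNReal.ofReal_add (by positivity) (by positivity)]
    congr 1
    unfold av
    ring
  rw [e1, lintegral_add_left (by fun_prop)]
  have h2 : ∀ y : ℝ, ENNReal.ofReal (2 * y ^ 2) = 2 * ENNReal.ofReal (y ^ 2) := by
    intro y
    rw [ENNReal.ofReal_mul (by norm_num)]
    simp
  simp only [h2]
  rw [lintegral_const_mul _ (by fun_prop), lintegral_const_mul _ (by fun_prop)]
  have h3 := SS_shift g t
  unfold SS at h3 ⊢
  rw [h3, ← add_mul]
  norm_num

theorem AA_av_le (t : ℝ) (g : ℝ → ℝ) (hg : Measurable g) : AA t (av t g) ≤ AA t g := by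
  have h1 : 2 * AA t (av t g) ≤ AA t g + AA t g := by
    have h3 := AA_shift t g t
    nth_rewrite 2 [← h3]
    unfold AA
    rw [← lintegral_const_mul _ (by unfold av; fun_prop), ← lintegral_add_left (by fun_prop)]
    apply lintegral_mono
    intro x
    have h4 : (2 : ℝ≥0∞) = ENNReal.ofReal 2 := by simp
    simp only
    rw [h4, ← ENNReal.ofReal_mul (by norm_num), ← ENNReal.ofReal_add (by positivity)
      (by positivity)]
    apply ENNReal.ofReal_le_ofReal
    unfold av
    nlinarith [sq_nonneg ((g x - g (x + t)) - (g (x + t) - g (x + t + t)))]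
  rw [← two_mul] at h1
  exact (ENNReal.mul_le_mul_iff_right (by norm_num) (by norm_num)).mp h1

theorem AA_nat_mul (t : ℝ) (g : ℝ → ℝ) (hg : Measurable g) (k : ℕ) :
    AA (k * t) g ≤ (k : ℝ≥0∞) ^ 2 * AA t g := by
  have hpt : ∀ x, (g x - g (x + k * t)) ^ 2
      ≤ k * ∑ i ∈ Finset.range k, (g (x + i * t) - g (x + i * t + t)) ^ 2 := by
    intro x
    have e : g x - g (x + k * t) = ∑ i ∈ Finset.range k, (g (x + i * t) - g (x + i * t + t)) := by
      have := Finset.sum_range_sub' (fun i : ℕ => g (x + i * t)) k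
      simp only [Nat.cast_zero, zero_mul, add_zero] at this
      rw [← this]
      apply Finset.sum_congr rfl
      intro i _
      congr 2
      push_cast
      ring
    rw [e]
    have := sq_sum_le_card_mul_sum_sq (s := Finset.range k)
      (f := fun i : ℕ => g (x + i * t) - g (x + i * t + t))
    rwa [Finset.card_range] at this
  calc AA (k * t) g ≤ ∫⁻ x, ENNReal.ofReal
        (k * ∑ i ∈ Finset.range k, (g (x + i * t) - g (x + i * t + t)) ^ 2) :=
        lintegral_mono fun x => ENNReal.ofReal_le_ofReal (hpt x)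
    _ = (k : ℝ≥0∞) * ∑ i ∈ Finset.range k,
        ∫⁻ x, ENNReal.ofReal ((g (x + i * t) - g (x + i * t + t)) ^ 2) := by
        rw [← lintegral_finsetSum _ (fun i _ => by fun_prop),
          ← lintegral_const_mul _ (by fun_prop)]
        apply lintegral_congr
        intro x
        rw [ENNReal.ofReal_mul (by positivity), ENNReal.ofReal_natCast,
          ENNReal.ofReal_sum_of_nonneg (fun i _ => by positivity)]
    _ = (k : ℝ≥0∞) ^ 2 * AA t g := by
        have : ∀ i ∈ Finset.range k,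
            ∫⁻ x, ENNReal.ofReal ((g (x + i * t) - g (x + i * t + t)) ^ 2) = AA t g := by
          intro i _
          exact lintegral_add_right_eq_self (μ := volume)
            (fun x => ENNReal.ofReal ((g x - g (x + t)) ^ 2)) (i * t)
        rw [Finset.sum_congr rfl this, Finset.sum_const, Finset.card_range, nsmul_eq_mul]
        ring

/-- the interval `[-1,1)` -/
abbrev I0 : Set ℝ := Ico (-1) 1

theorem SI_shift (g : ℝ → ℝ) (hg : Measurable g) (c : ℝ) :
    SI I0 (fun x => g (x + c)) = SI (Ico (-1 + c) (1 + c)) g := by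
  have h := (measurePreserving_add_right (volume : Measure ℝ) c).setLIntegral_comp_preimage
    (s := Ico (-1 + c) (1 + c)) measurableSet_Ico
    (f := fun x => ENNReal.ofReal (g x ^ 2)) (by fun_prop)
  have e : (fun x : ℝ => x + c) ⁻¹' (Ico (-1 + c) (1 + c)) = I0 := by
    ext x
    simp only [mem_preimage, mem_Ico]
    constructor
    · rintro ⟨h1, h2⟩; exact ⟨by linarith, by linarith⟩
    · rintro ⟨h1, h2⟩; exact ⟨by linarith, by linarith⟩
  rw [e] at h
  exact h

theorem spread (t : ℝ) (ht : 0 < t) (J : ℕ) (hJ : 2 ≤ J * t) (g : ℝ → ℝ) (hg : Measurable g) :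
    8 * SI I0 g ≤ 2 * SS g + (408 * J ^ 2 : ℕ) * AA t g := by
  let c : ℕ → ℝ := fun j => (((j + 1) * J : ℕ) : ℝ) * t
  have h1 : ∀ j, SI I0 g ≤ 2 * SI (Ico (-1 + c j) (1 + c j)) g
      + (2 * ((j + 1) * J) ^ 2 : ℕ) * AA t g := by
    intro j
    have e1 : SI I0 g ≤ 2 * SI I0 (fun x => g (x + c j)) + 2 * AA (c j) g := by
      calc SI I0 g ≤ ∫⁻ x in I0, (2 * ENNReal.ofReal (g (x + c j) ^ 2)
            + 2 * ENNReal.ofReal ((g x - g (x + c j)) ^ 2)) := by
            apply lintegral_mono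
            intro x
            have h4 : (2 : ℝ≥0∞) = ENNReal.ofReal 2 := by simp
            simp only
            rw [h4, ← ENNReal.ofReal_mul (by norm_num), ← ENNReal.ofReal_mul (by norm_num),
              ← ENNReal.ofReal_add (by positivity) (by positivity)]
            apply ENNReal.ofReal_le_ofReal
            nlinarith [sq_nonneg (g (x + c j) - (g x - g (x + c j)))]
        _ = 2 * SI I0 (fun x => g (x + c j))
            + 2 * ∫⁻ x in I0, ENNReal.ofReal ((g x - g (x + c j)) ^ 2) := by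
            rw [lintegral_add_left (by fun_prop), lintegral_const_mul _ (by fun_prop),
              lintegral_const_mul _ (by fun_prop)]
            rfl
        _ ≤ 2 * SI I0 (fun x => g (x + c j)) + 2 * AA (c j) g := by
            gcongr
            exact setLIntegral_le_lintegral _ _
    rw [SI_shift g hg] at e1
    refine e1.trans ?_
    have e2 := AA_nat_mul t g hg ((j + 1) * J)
    calc _ ≤ 2 * SI (Ico (-1 + c j) (1 + c j)) g
          + 2 * ((((j + 1) * J : ℕ) : ℝ≥0∞) ^ 2 * AA t g) := by gcongr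
      _ = _ := by
          congr 1
          push_cast
          ring
  have h2 : ∑ j ∈ Finset.range 8, SI (Ico (-1 + c j) (1 + c j)) g ≤ SS g := by
    have hd : (↑(Finset.range 8) : Set ℕ).PairwiseDisjoint
        (fun j => Ico (-1 + c j) (1 + c j)) := by
      have key : ∀ i j : ℕ, i < j → Disjoint (Ico (-1 + c i) (1 + c i))
          (Ico (-1 + c j) (1 + c j)) := by
        intro i j hij
        rw [Set.disjoint_left]
        rintro x ⟨_, hx2⟩ ⟨hx3, _⟩
        have h5 : c i + 2 ≤ c j := by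
          have h6 : (i : ℝ) + 1 ≤ j := by exact_mod_cast hij
          simp only [c]
          push_cast
          nlinarith
        linarith
      intro i _ j _ hij
      rcases lt_or_gt_of_ne hij with h | h
      · exact key i j h
      · exact (key j i h).symm
    have := lintegral_biUnion_finset (μ := (volume : Measure ℝ)) hd
      (fun j _ => measurableSet_Ico) (fun x => ENNReal.ofReal (g x ^ 2))
    unfold SI
    rw [← this]
    exact setLIntegral_le_lintegral _ _
  have h3 : ∑ _j ∈ Finset.range 8, SI I0 g ≤ ∑ j ∈ Finset.range 8,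
      (2 * SI (Ico (-1 + c j) (1 + c j)) g + (2 * ((j + 1) * J) ^ 2 : ℕ) * AA t g) :=
    Finset.sum_le_sum fun j _ => h1 j
  rw [Finset.sum_const, Finset.card_range, nsmul_eq_mul, Finset.sum_add_distrib,
    ← Finset.mul_sum, ← Finset.sum_mul] at h3
  have h4 : ∑ j ∈ Finset.range 8, ((2 * ((j + 1) * J) ^ 2 : ℕ) : ℝ≥0∞) = (408 * J ^ 2 : ℕ) := by
    rw [← Nat.cast_sum]
    congr 1
    simp only [Finset.sum_range_succ, Finset.sum_range_zero]
    ring
  rw [h4] at h3
  calc 8 * SI I0 g = ((8 : ℕ) : ℝ≥0∞) * SI I0 g := by norm_num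
    _ ≤ _ := h3
    _ ≤ _ := by gcongr

/-- inversion -/
noncomputable def Inv (g : ℝ → ℝ) : ℝ → ℝ := fun x => |x|⁻¹ * g (-x⁻¹)

theorem Inv_meas (g : ℝ → ℝ) (hg : Measurable g) : Measurable (Inv g) := by
  unfold Inv
  exact (measurable_id.abs.inv).mul (hg.comp measurable_inv.neg)

theorem SI_Inv (h : ℝ → ℝ) (s : Set ℝ) (hs : MeasurableSet s) (h0 : ∀ x ∈ s, x ≠ 0) :
    SI s (Inv h) = SI ((fun x : ℝ => -x⁻¹) '' s) h := by
  unfold SI
  rw [lintegral_image_eq_lintegral_abs_deriv_mul (f' := fun x => (x ^ 2)⁻¹) hs]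
  · apply setLIntegral_congr_fun hs
    intro x hx
    simp only
    rw [← ENNReal.ofReal_mul (abs_nonneg _)]
    congr 1
    unfold Inv
    rw [mul_pow, inv_pow, sq_abs, abs_of_nonneg (inv_nonneg.mpr (sq_nonneg x))]
  · intro x hx
    have := (hasDerivAt_inv (h0 x hx)).neg
    rw [neg_neg] at this
    exact this.hasDerivWithinAt
  · intro x _ y _ hxy
    simpa using hxy

theorem SS_eq_SI (h : ℝ → ℝ) : SS h = SI {0}ᶜ h := by
  unfold SS SI
  rw [restrict_compl_singleton]

theorem SS_Inv (h : ℝ → ℝ) : SS (Inv h) = SS h := by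
  rw [SS_eq_SI, SS_eq_SI, SI_Inv h _ (measurableSet_singleton _).compl (fun x hx => hx)]
  congr 1
  ext y
  constructor
  · rintro ⟨x, hx, rfl⟩
    simpa using hx
  · intro hy
    refine ⟨-y⁻¹, by simpa using hy, ?_⟩
    simp

theorem SI_I0_Inv (h : ℝ → ℝ) : SI I0 (Inv h) = SI I0ᶜ h := by
  have e1 : SI I0 (Inv h) = SI (I0 \ {0}) (Inv h) := by
    unfold SI
    apply setLIntegral_congr
    exact (sdiff_null_ae_eq_self (by simp)).symm
  rw [e1, SI_Inv h _ (measurableSet_Ico.diff (measurableSet_singleton _)) (fun x hx => hx.2)]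
  congr 1
  ext y
  simp only [mem_image, mem_sdiff, mem_Ico, mem_singleton_iff, mem_compl_iff, not_and, not_lt]
  constructor
  · rintro ⟨x, ⟨⟨h1, h2⟩, h3⟩, rfl⟩
    intro h4
    rcases lt_or_gt_of_ne h3 with h | h
    · have : x⁻¹ ≤ -1 := by
        rw [inv_le_of_neg h (by norm_num)]
        norm_num
        exact h1
      linarith
    · have : 1 < x⁻¹ := (one_lt_inv₀ h).mpr h2
      linarith
  · intro hy
    rcases le_or_gt (-1) y with h | h
    · have h1 := hy h
      have hy0 : 0 < y := by linarith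
      refine ⟨-y⁻¹, ⟨⟨?_, ?_⟩, ?_⟩, by simp⟩
      · have := inv_le_one_of_one_le₀ h1
        linarith
      · have := inv_pos.mpr hy0
        linarith
      · simp [hy0.ne']
    · have hy0 : y < 0 := by linarith
      refine ⟨-y⁻¹, ⟨⟨?_, ?_⟩, ?_⟩, by simp⟩
      · have := inv_lt_zero.mpr hy0
        linarith
      · have : -1 < y⁻¹ := by
          rw [lt_inv_of_neg (by norm_num) hy0]
          norm_num
          exact h
        linarith
      · simp [hy0.ne]

/-- the two-point averaged operator -/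
noncomputable def qq (t a : ℝ) (g : ℝ → ℝ) : ℝ → ℝ := Inv (av t (fun x => g (x + (a - t))))

theorem qq_meas (t a : ℝ) (g : ℝ → ℝ) (hg : Measurable g) : Measurable (qq t a g) :=
  Inv_meas _ (av_meas _ _ (by fun_prop))

theorem two_step (t : ℝ) (ht : 0 < t) (J : ℕ) (hJ : 2 ≤ J * t) (a₁ a₂ : ℝ) (g : ℝ → ℝ)
    (hg : Measurable g) :
    (408 * J ^ 2 + 1 : ℕ) * SS (qq t a₂ (qq t a₁ g)) ≤ (408 * J ^ 2 : ℕ) * SS g := by
  have hJ0 : J ≠ 0 := by
    rintro rfl
    norm_num at hJ
  rcases eq_or_ne (SS g) ⊤ with htop | htop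
  · rw [htop, ENNReal.mul_top (by positivity)]
    exact le_top
  set g' : ℝ → ℝ := fun x => g (x + (a₁ - t)) with hg'
  have hg'm : Measurable g' := by fun_prop
  set h := av t g' with hh
  have hhm : Measurable h := av_meas _ _ hg'm
  set g₂ := Inv h with hg₂
  have hg₂m : Measurable g₂ := Inv_meas _ hhm
  have hq1 : qq t a₁ g = g₂ := rfl
  set g₂' : ℝ → ℝ := fun x => g₂ (x + (a₂ - t)) with hg₂'
  have hg₂'m : Measurable g₂' := by fun_prop
  have hX : SS (qq t a₂ (qq t a₁ g)) = SS (av t g₂') := by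
    rw [hq1]
    exact SS_Inv _
  rw [hX]
  -- relations
  have r1 : 4 * SS h + AA t g = 4 * SS g := by
    have := par t g' hg'm
    rwa [AA_shift t g, SS_shift g] at this
  have r2 : AA t h ≤ AA t g := by
    have := AA_av_le t g' hg'm
    rwa [AA_shift t g] at this
  have r3 : 4 * SS (av t g₂') + AA t g₂ = 4 * SS h := by
    have := par t g₂' hg₂'m
    rwa [AA_shift t g₂, SS_shift g₂, SS_Inv h] at this
  have r4 : 8 * SI I0 h ≤ 2 * SS h + (408 * J ^ 2 : ℕ) * AA t h := spread t ht J hJ h hhm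
  have r5 : 8 * SI I0ᶜ h ≤ 2 * SS h + (408 * J ^ 2 : ℕ) * AA t g₂ := by
    have := spread t ht J hJ g₂ hg₂m
    rwa [SI_I0_Inv h, SS_Inv h] at this
  have r6 : SI I0 h + SI I0ᶜ h = SS h := lintegral_add_compl _ measurableSet_Ico
  -- finiteness
  have hSh : SS h ≠ ⊤ := by
    intro hcon
    rw [hcon] at r1
    have : (4 : ℝ≥0∞) * SS g = ⊤ := by rw [← r1]; simp
    rw [ENNReal.mul_eq_top] at this
    rcases this with h | h
    · exact htop h.2
    · exact absurd h.1 (by norm_num)
  have hAg : AA t g ≠ ⊤ := by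
    intro hcon
    rw [hcon] at r1
    have : (4 : ℝ≥0∞) * SS g = ⊤ := by rw [← r1]; simp
    rw [ENNReal.mul_eq_top] at this
    rcases this with h | h
    · exact htop h.2
    · exact absurd h.1 (by norm_num)
  have hAh : AA t h ≠ ⊤ := ne_top_of_le_ne_top hAg r2
  have hXtop : SS (av t g₂') ≠ ⊤ ∧ AA t g₂ ≠ ⊤ := by
    have h4 : (4 : ℝ≥0∞) * SS h ≠ ⊤ := ENNReal.mul_ne_top (by norm_num) hSh
    rw [← r3] at h4
    constructor
    · intro hcon
      apply h4
      rw [hcon]; simp
    · intro hcon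
      apply h4
      rw [hcon]; simp
  have hI : SI I0 h ≠ ⊤ := ne_top_of_le_ne_top hSh (by rw [← r6]; exact le_self_add)
  have hIc : SI I0ᶜ h ≠ ⊤ := ne_top_of_le_ne_top hSh (by rw [← r6]; exact le_add_self)
  -- pass to reals
  lift SS g to NNReal using htop with sg
  lift SS h to NNReal using hSh with sh
  lift AA t g to NNReal using hAg with ag
  lift AA t h to NNReal using hAh with ah
  lift AA t g₂ to NNReal using hXtop.2 with ag2
  lift SS (av t g₂') to NNReal using hXtop.1 with X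
  lift SI I0 h to NNReal using hI with i1
  lift SI I0ᶜ h to NNReal using hIc with i2
  norm_cast at r1 r2 r3 r4 r5 r6 ⊢
  have s1 : (4 : ℝ) * sh + ag = 4 * sg := by exact_mod_cast r1
  have s2 : (ah : ℝ) ≤ ag := by exact_mod_cast r2
  have s3 : (4 : ℝ) * X + ag2 = 4 * sh := by exact_mod_cast r3
  have s4 : (8 : ℝ) * i1 ≤ 2 * sh + (408 * J ^ 2 : ℝ) * ah := by exact_mod_cast r4
  have s5 : (8 : ℝ) * i2 ≤ 2 * sh + (408 * J ^ 2 : ℝ) * ag2 := by exact_mod_cast r5
  have s6 : (i1 : ℝ) + i2 = sh := by exact_mod_cast r6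
  have s7 : (0 : ℝ) ≤ ag2 := ag2.2
  have s8 : (0 : ℝ) ≤ ah := ah.2
  have goal : ((408 * J ^ 2 + 1 : ℝ)) * X ≤ (408 * J ^ 2 : ℝ) * sg := by
    have hJ2 : (0 : ℝ) ≤ (J : ℝ) ^ 2 := by positivity
    nlinarith
  exact_mod_cast goal

end Pool.Agent.DensePP
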