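import Mathlib
import Pool.Agent.Lib.MP_0eac64_mp.Contr
import Pool.Agent.Lib.MP_0eac64_mp.Cont

set_option autoImplicit false

namespace Pool.Agent.DensePP

open MeasureTheory Set
open scoped ENNReal

/-- uniform distribution on the unit interval -/
noncomputable def nu : Measure ℝ := volume.restrict (Ico 0 1)

instance : IsProbabilityMeasure nu := ⟨by simp [nu]⟩

/-- product of `n` uniform distributions -/
noncomputable abbrev piN (n : ℕ) : Measure (Fin n → ℝ) := Measure.pi (fun _ => nu)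

theorem lintegral_piN_succ (n : ℕ) (φ : (Fin (n + 1) → ℝ) → ℝ≥0∞) (hφ : Measurable φ) :
    ∫⁻ x, φ x ∂(piN (n + 1)) = ∫⁻ s, ∫⁻ y, φ (Fin.cons s y) ∂(piN n) ∂nu := by
  have h := (measurePreserving_piFinSuccAbove (fun _ : Fin (n + 1) => nu) 0).symm
  rw [← h.lintegral_comp hφ, lintegral_prod _ (by fun_prop)]
  apply lintegral_congr
  intro s
  apply lintegral_congr
  intro y
  congr 1
  exact Fin.insertNth_zero' s y

theorem meas_cons {X : Type*} [MeasurableSpace X] (n : ℕ) (f : X → ℝ) (g : X → Fin n → ℝ)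
    (hf : Measurable f) (hg : Measurable g) :
    Measurable (fun x => (Fin.cons (f x) (g x) : Fin (n + 1) → ℝ)) := by
  apply measurable_pi_lambda
  intro i
  refine Fin.cases ?_ ?_ i
  · simpa using hf
  · intro j
    simp only [Fin.cons_succ]
    exact (measurable_pi_apply j).comp hg

theorem lintegral_piN_succ' (n : ℕ) (φ : (Fin (n + 1) → ℝ) → ℝ≥0∞) (hφ : Measurable φ) :
    ∫⁻ x, φ x ∂(piN (n + 1)) = ∫⁻ y, ∫⁻ s, φ (Fin.cons s y) ∂nu ∂(piN n) := by
  rw [lintegral_piN_succ n φ hφ, lintegral_lintegral_swap]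
  exact (hφ.comp (meas_cons n _ _ measurable_fst measurable_snd)).aemeasurable

/-- change of variables for affine maps of the unit interval -/
theorem affine_cov (b c : ℝ) (hb : b ≠ 0) (ψ : ℝ → ℝ≥0∞) :
    ∫⁻ x in (fun s => b * s + c) '' (Ico 0 1), ψ x = ENNReal.ofReal |b| * ∫⁻ s, ψ (b * s + c) ∂nu := by
  rw [lintegral_image_eq_lintegral_abs_deriv_mul (f' := fun _ => b) measurableSet_Ico]
  · rw [nu, lintegral_const_mul' _ _ ENNReal.ofReal_ne_top]
  · intro x _
    have := ((hasDerivAt_id x).const_mul b).add_const c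
    rw [mul_one] at this
    exact this.hasDerivWithinAt
  · intro x _ y _ hxy
    simpa [hb] using hxy

theorem half_split (ψ : ℝ → ℝ≥0∞) (hψ : Measurable ψ) :
    2 * ∫⁻ s, ψ s ∂nu = ∫⁻ s, (ψ (s / 2) + ψ ((s + 1) / 2)) ∂nu := by
  have h1 := affine_cov (1 / 2) 0 (by norm_num) ψ
  have h2 := affine_cov (1 / 2) (1 / 2) (by norm_num) ψ
  have e1 : (fun s : ℝ => 1 / 2 * s + 0) '' (Ico 0 1) = Ico 0 (1 / 2) := by
    ext y
    simp only [mem_image, mem_Ico]
    constructor
    · rintro ⟨x, ⟨hx1, hx2⟩, rfl⟩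
      constructor <;> linarith
    · rintro ⟨h1, h2⟩
      exact ⟨2 * y, ⟨by linarith, by linarith⟩, by ring⟩
  have e2 : (fun s : ℝ => 1 / 2 * s + 1 / 2) '' (Ico 0 1) = Ico (1 / 2) 1 := by
    ext y
    simp only [mem_image, mem_Ico]
    constructor
    · rintro ⟨x, ⟨hx1, hx2⟩, rfl⟩
      constructor <;> linarith
    · rintro ⟨h1, h2⟩
      exact ⟨2 * y - 1, ⟨by linarith, by linarith⟩, by ring⟩
  have e3 : ∫⁻ s, ψ s ∂nu = (∫⁻ s in Ico 0 (1 / 2), ψ s) + ∫⁻ s in Ico (1 / 2) 1, ψ s := by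
    rw [nu, ← lintegral_union measurableSet_Ico]
    · rw [Ico_union_Ico_eq_Ico (by norm_num) (by norm_num)]
    · rw [Set.disjoint_left]
      rintro x ⟨_, h⟩ ⟨h', _⟩
      linarith
  rw [e1] at h1
  rw [e2] at h2
  have e4 : ENNReal.ofReal |(1 / 2 : ℝ)| = 2⁻¹ := by
    rw [abs_of_nonneg (by norm_num), one_div, ENNReal.ofReal_inv_of_pos (by norm_num)]
    simp
  rw [e4] at h1 h2
  rw [e3, h1, h2, ← mul_add, ← mul_assoc, ENNReal.mul_inv_cancel (by norm_num) (by norm_num),
    one_mul, ← lintegral_add_left (by fun_prop)]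
  apply lintegral_congr
  intro s
  congr 2
  · ring
  · ring

/-- Extension of a finite vector by zero. -/
noncomputable def ex (n : ℕ) (x : Fin n → ℝ) : ℕ → ℝ := fun i => if h : i < n then x ⟨i, h⟩ else 0

theorem ex_cons_zero (n : ℕ) (s : ℝ) (y : Fin n → ℝ) : ex (n + 1) (Fin.cons s y) 0 = s := by
  simp [ex]

theorem ex_cons_succ (n : ℕ) (s : ℝ) (y : Fin n → ℝ) (i : ℕ) :
    ex (n + 1) (Fin.cons s y) (i + 1) = ex n y i := by
  unfold ex
  by_cases h : i < n
  · rw [dif_pos h, dif_pos (by omega)]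
    exact Fin.cons_succ (α := fun _ => ℝ) s y ⟨i, h⟩
  · rw [dif_neg h, dif_neg (by omega)]

theorem ex_meas (n : ℕ) (i : ℕ) : Measurable (fun x : Fin n → ℝ => ex n x i) := by
  unfold ex
  split_ifs with h
  · exact measurable_pi_apply _
  · exact measurable_const

/-- the random arm -/
noncomputable def AW (a : ℕ → ℝ) (e : ℝ) (n : ℕ) (x : Fin n → ℝ) : ℝ × ℝ :=
  W (fun i => a i - e * ex n x i) n

theorem AW_cons (a : ℕ → ℝ) (e : ℝ) (n : ℕ) (s : ℝ) (y : Fin n → ℝ) :
    AW a e (n + 1) (Fin.cons s y) =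
      ((a 0 - e * s) * (AW (fun i => a (i + 1)) e n y).1 - (AW (fun i => a (i + 1)) e n y).2,
        (AW (fun i => a (i + 1)) e n y).1) := by
  unfold AW
  rw [W_succ]
  simp only [ex_cons_zero, ex_cons_succ]

theorem W_measurable {X : Type*} [MeasurableSpace X] (n : ℕ) : ∀ (b : X → ℕ → ℝ),
    (∀ i, Measurable (fun x => b x i)) → Measurable (fun x => W (b x) n) := by
  induction n with
  | zero => intro b _; simp only [W_zero]; exact measurable_const
  | succ n ih =>
    intro b hb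
    have h1 := ih (fun x i => b x (i + 1)) (fun i => hb (i + 1))
    simp only [W_succ]
    exact (((hb 0).mul h1.fst).sub h1.snd).prodMk h1.fst

theorem AW_meas (a : ℕ → ℝ) (e : ℝ) (n : ℕ) : Measurable (AW a e n) := by
  unfold AW
  apply W_measurable
  intro i
  exact measurable_const.sub (measurable_const.mul (ex_meas n i))

/-- homogeneous nonnegative functions -/
structure HF (F : ℝ × ℝ → ℝ) : Prop where
  meas : Measurable F
  nonneg : ∀ v, 0 ≤ F v
  hom : ∀ (c : ℝ), c ≠ 0 → ∀ v : ℝ × ℝ, F (c * v.1, c * v.2) = |c|⁻¹ * F v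

/-- section -/
def sec (F : ℝ × ℝ → ℝ) : ℝ → ℝ := fun x => F (x, 1)

/-- action of a transfer matrix -/
def act (a : ℝ) (F : ℝ × ℝ → ℝ) : ℝ × ℝ → ℝ := fun v => F (a * v.1 - v.2, v.1)

theorem act_HF (a : ℝ) (F : ℝ × ℝ → ℝ) (hF : HF F) : HF (act a F) where
  meas := by
    unfold act
    exact hF.meas.comp (by fun_prop)
  nonneg v := hF.nonneg _
  hom c hc v := by
    unfold act
    rw [← hF.hom c hc]
    congr 2
    ring

/-- averaged action -/
noncomputable def qF (t a : ℝ) (F : ℝ × ℝ → ℝ) : ℝ × ℝ → ℝ :=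
  fun v => (act (a - t) F v + act a F v) / 2

theorem qF_HF (t a : ℝ) (F : ℝ × ℝ → ℝ) (hF : HF F) : HF (qF t a F) where
  meas := by
    have h1 := (act_HF (a - t) F hF).meas
    have h2 := (act_HF a F hF).meas
    unfold qF
    fun_prop
  nonneg v := by
    have h1 := (act_HF (a - t) F hF).nonneg v
    have h2 := (act_HF a F hF).nonneg v
    unfold qF
    positivity
  hom c hc v := by
    unfold qF
    rw [(act_HF (a - t) F hF).hom c hc, (act_HF a F hF).hom c hc]
    ring

theorem sec_meas (F : ℝ × ℝ → ℝ) (hF : HF F) : Measurable (sec F) := by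
  unfold sec
  exact hF.meas.comp (by fun_prop)

theorem sec_act (a : ℝ) (F : ℝ × ℝ → ℝ) (hF : HF F) (x : ℝ) (hx : x ≠ 0) :
    sec (act a F) x = Inv (fun y => sec F (y + a)) x := by
  unfold sec act Inv
  simp only
  rw [← hF.hom x hx]
  congr 2
  · field_simp
    ring
  · ring

theorem SS_sec_act (a : ℝ) (F : ℝ × ℝ → ℝ) (hF : HF F) : SS (sec (act a F)) = SS (sec F) := by
  have h1 : SS (sec (act a F)) = SS (Inv (fun y => sec F (y + a))) := by
    unfold SS
    apply lintegral_congr_ae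
    filter_upwards [Measure.ae_ne volume (0 : ℝ)] with x hx
    rw [sec_act a F hF x hx]
  rw [h1, SS_Inv, SS_shift]

theorem sec_qF (t a : ℝ) (F : ℝ × ℝ → ℝ) (hF : HF F) (x : ℝ) (hx : x ≠ 0) :
    sec (qF t a F) x = qq t a (sec F) x := by
  have h1 := sec_act (a - t) F hF x hx
  have h2 := sec_act a F hF x hx
  have e : sec (qF t a F) x = (sec (act (a - t) F) x + sec (act a F) x) / 2 := rfl
  rw [e, h1, h2]
  unfold qq Inv av
  have : -x⁻¹ + t + (a - t) = -x⁻¹ + a := by ring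
  simp only [this]
  ring

theorem SS_sec_qF_qF (t a₁ a₂ : ℝ) (F : ℝ × ℝ → ℝ) (hF : HF F) :
    SS (sec (qF t a₂ (qF t a₁ F))) = SS (qq t a₂ (qq t a₁ (sec F))) := by
  unfold SS
  apply lintegral_congr_ae
  filter_upwards [Measure.ae_ne volume (0 : ℝ), Measure.ae_ne volume ((a₂ - t)⁻¹ : ℝ),
    Measure.ae_ne volume (a₂⁻¹ : ℝ)] with x hx h1 h2
  rw [sec_qF t a₂ _ (qF_HF t a₁ F hF) x hx]
  have key : ∀ b : ℝ, x ≠ b⁻¹ → -x⁻¹ + b ≠ 0 := by
    intro b hb h0
    apply hb
    have : x⁻¹ = b := by linarith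
    rw [← this, inv_inv]
  unfold qq Inv av
  have e1 := sec_qF t a₁ F hF (-x⁻¹ + (a₂ - t)) (key _ h1)
  have e2 := sec_qF t a₁ F hF (-x⁻¹ + t + (a₂ - t)) (by
    have := key _ h2
    have h3 : -x⁻¹ + t + (a₂ - t) = -x⁻¹ + a₂ := by ring
    rwa [h3])
  simp only [e1, e2]
  rfl

/-- contraction constant -/
noncomputable def th (J : ℕ) : ℝ := (408 * J ^ 2 : ℕ) / (408 * J ^ 2 + 1 : ℕ)

theorem th_lt_one (J : ℕ) : th J < 1 := by
  unfold th
  rw [div_lt_one (by positivity)]
  exact_mod_cast Nat.lt_succ_self _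

theorem th_pos (J : ℕ) (hJ : J ≠ 0) : 0 < th J := by
  unfold th
  positivity

theorem contr_real (t : ℝ) (ht : 0 < t) (J : ℕ) (hJ : 2 ≤ J * t) (a₁ a₂ : ℝ) (F : ℝ × ℝ → ℝ)
    (hF : HF F) (B : ℝ) (hB : 0 < B) (hS : SS (sec F) ≤ ENNReal.ofReal B) :
    SS (sec (qF t a₂ (qF t a₁ F))) ≤ ENNReal.ofReal (th J * B) := by
  rw [SS_sec_qF_qF t a₁ a₂ F hF]
  have h := two_step t ht J hJ a₁ a₂ (sec F) (sec_meas F hF)
  set X := SS (qq t a₂ (qq t a₁ (sec F))) with hX
  have h2 : ((408 * J ^ 2 + 1 : ℕ) : ℝ≥0∞) * X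
      ≤ ((408 * J ^ 2 + 1 : ℕ) : ℝ≥0∞) * ENNReal.ofReal (th J * B) := by
    refine h.trans ?_
    have e1 : ((408 * J ^ 2 : ℕ) : ℝ≥0∞) * SS (sec F)
        ≤ ((408 * J ^ 2 : ℕ) : ℝ≥0∞) * ENNReal.ofReal B := by gcongr
    refine e1.trans (le_of_eq ?_)
    rw [← ENNReal.ofReal_natCast, ← ENNReal.ofReal_natCast, ← ENNReal.ofReal_mul (by positivity),
      ← ENNReal.ofReal_mul (by positivity)]
    congr 1
    unfold th
    have : ((408 * J ^ 2 + 1 : ℕ) : ℝ) ≠ 0 := by positivity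
    field_simp
  exact (ENNReal.mul_le_mul_iff_right (by positivity) (ENNReal.natCast_ne_top _)).mp h2

theorem base_bound (e : ℝ) (he : 0 < e) (g : ℝ → ℝ)
    (B : ℝ) (hB : 0 < B) (hS : SS g ≤ ENNReal.ofReal B) (b : ℝ) :
    ∫⁻ s, ENNReal.ofReal (g (b - e * s)) ∂nu ≤ ENNReal.ofReal (Real.sqrt (B / e)) := by
  set lam := Real.sqrt (B / e) with hlam
  have hlpos : 0 < lam := Real.sqrt_pos.mpr (by positivity)
  have hl2 : lam ^ 2 = B / e := Real.sq_sqrt (by positivity)
  have h1 : ∫⁻ s, ENNReal.ofReal (g (b - e * s) ^ 2) ∂nu ≤ ENNReal.ofReal (B / e) := by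
    have h2 := affine_cov (-e) b (by linarith) (fun x => ENNReal.ofReal (g x ^ 2))
    rw [abs_neg, abs_of_pos he] at h2
    have h3 : ENNReal.ofReal e * ∫⁻ s, ENNReal.ofReal (g (-e * s + b) ^ 2) ∂nu
        ≤ ENNReal.ofReal e * ENNReal.ofReal (B / e) := by
      rw [← h2, ← ENNReal.ofReal_mul he.le]
      refine (setLIntegral_le_lintegral _ _).trans (hS.trans ?_)
      apply ENNReal.ofReal_le_ofReal
      field_simp
      exact le_rfl
    have h4 := (ENNReal.mul_le_mul_iff_right (by simpa using he) ENNReal.ofReal_ne_top).mp h3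
    refine le_trans (le_of_eq ?_) h4
    apply lintegral_congr
    intro s
    congr 3
    ring
  calc ∫⁻ s, ENNReal.ofReal (g (b - e * s)) ∂nu
      ≤ ∫⁻ s, (ENNReal.ofReal (lam / 2)
          + ENNReal.ofReal (1 / (2 * lam)) * ENNReal.ofReal (g (b - e * s) ^ 2)) ∂nu := by
        apply lintegral_mono
        intro s
        simp only
        rw [← ENNReal.ofReal_mul (by positivity), ← ENNReal.ofReal_add (by positivity)
          (by positivity)]
        apply ENNReal.ofReal_le_ofReal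
        have h5 : 0 ≤ (lam - g (b - e * s)) ^ 2 / (2 * lam) := by positivity
        have h6 : (lam - g (b - e * s)) ^ 2 / (2 * lam)
            = lam / 2 + 1 / (2 * lam) * g (b - e * s) ^ 2 - g (b - e * s) := by
          field_simp
          ring
        linarith
    _ = ENNReal.ofReal (lam / 2) + ENNReal.ofReal (1 / (2 * lam)) *
          ∫⁻ s, ENNReal.ofReal (g (b - e * s) ^ 2) ∂nu := by
        rw [lintegral_add_left measurable_const, lintegral_const_mul' _ _ ENNReal.ofReal_ne_top]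
        simp
    _ ≤ ENNReal.ofReal (lam / 2) + ENNReal.ofReal (1 / (2 * lam)) * ENNReal.ofReal (B / e) := by
        gcongr
    _ = ENNReal.ofReal lam := by
        rw [← ENNReal.ofReal_mul (by positivity), ← ENNReal.ofReal_add (by positivity)
          (by positivity)]
        congr 1
        rw [← hl2]
        field_simp
        ring

theorem four_split (φ : ℝ → ℝ → ℝ≥0∞) (hφ : Measurable (Function.uncurry φ)) :
    4 * ∫⁻ s, ∫⁻ r, φ s r ∂nu ∂nu = ∫⁻ s, ∫⁻ r,
      (φ (s / 2) (r / 2) + φ (s / 2) ((r + 1) / 2) + (φ ((s + 1) / 2) (r / 2)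
        + φ ((s + 1) / 2) ((r + 1) / 2))) ∂nu ∂nu := by
  have hm : ∀ (f g : ℝ → ℝ), Measurable f → Measurable g →
      Measurable (fun p : ℝ × ℝ => φ (f p.1) (g p.2)) := fun f g hf hg =>
    hφ.comp ((hf.comp measurable_fst).prodMk (hg.comp measurable_snd))
  have hm1 : ∀ (s : ℝ) (g : ℝ → ℝ), Measurable g → Measurable (fun r => φ s (g r)) := fun s g hg =>
    hφ.comp (measurable_const.prodMk hg)
  have h1 : ∀ s, 2 * ∫⁻ r, φ s r ∂nu = ∫⁻ r, (φ s (r / 2) + φ s ((r + 1) / 2)) ∂nu := fun s =>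
    half_split (φ s) (hm1 s _ measurable_id)
  have h2 : 2 * ∫⁻ s, ∫⁻ r, φ s r ∂nu ∂nu = ∫⁻ s, ∫⁻ r, (φ s (r / 2) + φ s ((r + 1) / 2)) ∂nu ∂nu := by
    rw [← lintegral_const_mul' _ _ (by norm_num)]
    exact lintegral_congr h1
  have h3 := half_split (fun s => ∫⁻ r, (φ s (r / 2) + φ s ((r + 1) / 2)) ∂nu) (by
    apply Measurable.lintegral_prod_right'
      (f := fun p : ℝ × ℝ => φ p.1 (p.2 / 2) + φ p.1 ((p.2 + 1) / 2))
    exact (hm id (fun r => r / 2) measurable_id (by fun_prop)).add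
      (hm id (fun r => (r + 1) / 2) measurable_id (by fun_prop)))
  have h4 : (4 : ℝ≥0∞) = 2 * 2 := by norm_num
  rw [h4, mul_assoc, h2, h3]
  apply lintegral_congr
  intro s
  rw [← lintegral_add_left]
  exact (hm1 _ _ (by fun_prop)).add (hm1 _ _ (by fun_prop))

theorem ofReal_four (x y z w : ℝ) (hx : 0 ≤ x) (hy : 0 ≤ y) (hz : 0 ≤ z) (hw : 0 ≤ w) :
    ENNReal.ofReal x + ENNReal.ofReal y + (ENNReal.ofReal z + ENNReal.ofReal w)
      = 4 * ENNReal.ofReal (((x + z) / 2 + (y + w) / 2) / 2) := by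
  have h4 : (4 : ℝ≥0∞) = ENNReal.ofReal 4 := by simp
  rw [h4, ← ENNReal.ofReal_mul (by norm_num), ← ENNReal.ofReal_add hx hy,
    ← ENNReal.ofReal_add hz hw, ← ENNReal.ofReal_add (by positivity) (by positivity)]
  congr 1
  ring

theorem act_meas_comp {X : Type*} [MeasurableSpace X] (F : ℝ × ℝ → ℝ) (hF : HF F)
    (b : X → ℝ) (hb : Measurable b) (w : X → ℝ × ℝ) (hw : Measurable w) :
    Measurable (fun x => act (b x) F (w x)) := by
  unfold act
  exact hF.meas.comp (((hb.mul hw.fst).sub hw.snd).prodMk hw.fst)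

theorem arm_bound (e : ℝ) (he : 0 < e) (J : ℕ) (hJ : 2 ≤ J * (e / 2)) (n : ℕ) :
    ∀ (F : ℝ × ℝ → ℝ) (_ : HF F) (B : ℝ) (_ : 0 < B) (_ : SS (sec F) ≤ ENNReal.ofReal B)
      (a : ℕ → ℝ), ∫⁻ x, ENNReal.ofReal (F (AW a e (n + 1) x)) ∂(piN (n + 1))
        ≤ ENNReal.ofReal (Real.sqrt (th J ^ (n / 2) * B / e)) := by
  have hJ0 : J ≠ 0 := by
    rintro rfl
    norm_num at hJ
  induction n using Nat.twoStepInduction with
  | zero =>
    intro F hF B hB hS a
    rw [lintegral_piN_succ _ _ (by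
      exact ENNReal.measurable_ofReal.comp (hF.meas.comp (AW_meas a e _)))]
    simp only [AW_cons]
    have h0 : ∀ y : Fin 0 → ℝ, AW (fun i => a (i + 1)) e 0 y = (1, 0) := fun y => rfl
    simp only [h0, mul_one, sub_zero, lintegral_const, measure_univ, mul_one]
    have := base_bound e he (sec F) B hB hS (a 0)
    simpa [sec] using this
  | one =>
    intro F hF B hB hS a
    rw [lintegral_piN_succ _ _ (by
      exact ENNReal.measurable_ofReal.comp (hF.meas.comp (AW_meas a e _)))]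
    simp only [AW_cons a e 1]
    have key : ∀ s, ∫⁻ y, ENNReal.ofReal (F ((a 0 - e * s) * (AW (fun i => a (i + 1)) e 1 y).1
        - (AW (fun i => a (i + 1)) e 1 y).2, (AW (fun i => a (i + 1)) e 1 y).1)) ∂(piN 1)
        ≤ ENNReal.ofReal (Real.sqrt (th J ^ (1 / 2) * B / e)) := by
      intro s
      have hact := act_HF (a 0 - e * s) F hF
      have hSa : SS (sec (act (a 0 - e * s) F)) ≤ ENNReal.ofReal B := by
        rwa [SS_sec_act _ _ hF]
      have h2 := base_bound e he (sec (act (a 0 - e * s) F)) B hB hSa (a 1)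
      have h3 : ∫⁻ y, ENNReal.ofReal (act (a 0 - e * s) F (AW (fun i => a (i + 1)) e 1 y)) ∂(piN 1)
          = ∫⁻ s', ENNReal.ofReal (sec (act (a 0 - e * s) F) (a 1 - e * s')) ∂nu := by
        rw [lintegral_piN_succ _ _ (by
          exact ENNReal.measurable_ofReal.comp (hact.meas.comp (AW_meas _ e _)))]
        simp only [AW_cons]
        have h0 : ∀ y : Fin 0 → ℝ, AW (fun i => a (i + 1 + 1)) e 0 y = (1, 0) := fun y => rfl
        simp only [h0, mul_one, sub_zero, lintegral_const, measure_univ, mul_one]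
        rfl
      calc _ = ∫⁻ y, ENNReal.ofReal (act (a 0 - e * s) F (AW (fun i => a (i + 1)) e 1 y))
            ∂(piN 1) := rfl
        _ ≤ _ := by
          rw [h3]
          simpa using h2
    calc _ ≤ ∫⁻ _s, ENNReal.ofReal (Real.sqrt (th J ^ (1 / 2) * B / e)) ∂nu :=
          lintegral_mono key
      _ = _ := by simp
  | more n ih _ =>
    intro F hF B hB hS a
    have hmF : ∀ k, Measurable (fun x => ENNReal.ofReal (F (AW a e k x))) := fun k =>
      ENNReal.measurable_ofReal.comp (hF.meas.comp (AW_meas a e _))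
    rw [lintegral_piN_succ _ _ (hmF _)]
    have e1 : ∀ s, ∫⁻ y, ENNReal.ofReal (F (AW a e (n + 2 + 1) (Fin.cons s y))) ∂(piN (n + 2))
        = ∫⁻ r, ∫⁻ z, ENNReal.ofReal (act (a 1 - e * r) (act (a 0 - e * s) F)
            (AW (fun i => a (i + 1 + 1)) e (n + 1) z)) ∂(piN (n + 1)) ∂nu := by
      intro s
      have hm1 : Measurable (fun y => ENNReal.ofReal (F (AW a e (n + 2 + 1) (Fin.cons s y)))) :=
        (hmF _).comp (meas_cons _ _ _ measurable_const measurable_id)
      rw [lintegral_piN_succ _ _ hm1]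
      apply lintegral_congr
      intro r
      apply lintegral_congr
      intro z
      rw [AW_cons, AW_cons]
      rfl
    simp only [e1]
    set w := AW (fun i => a (i + 1 + 1)) e (n + 1) with hw
    have hwm : Measurable w := AW_meas _ _ _
    let φ : ℝ → ℝ → ℝ≥0∞ := fun s r =>
      ∫⁻ z, ENNReal.ofReal (act (a 1 - e * r) (act (a 0 - e * s) F) (w z)) ∂(piN (n + 1))
    have hφint : Measurable (fun p : (ℝ × ℝ) × (Fin (n + 1) → ℝ) =>
        ENNReal.ofReal (act (a 1 - e * p.1.2) (act (a 0 - e * p.1.1) F) (w p.2))) := by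
      apply ENNReal.measurable_ofReal.comp
      unfold act
      apply hF.meas.comp
      have hw1 : Measurable (fun p : (ℝ × ℝ) × (Fin (n + 1) → ℝ) => (w p.2).1) :=
        (hwm.comp measurable_snd).fst
      have hw2 : Measurable (fun p : (ℝ × ℝ) × (Fin (n + 1) → ℝ) => (w p.2).2) :=
        (hwm.comp measurable_snd).snd
      fun_prop
    have hφ : Measurable (Function.uncurry φ) := by
      have := Measurable.lintegral_prod_right' (ν := piN (n + 1)) hφint
      exact this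
    have hsplit := four_split φ hφ
    have hcomb : ∀ s r, φ (s / 2) (r / 2) + φ (s / 2) ((r + 1) / 2) + (φ ((s + 1) / 2) (r / 2)
        + φ ((s + 1) / 2) ((r + 1) / 2)) = 4 * ∫⁻ z, ENNReal.ofReal
          (qF (e / 2) (a 1 - e * (r / 2)) (qF (e / 2) (a 0 - e * (s / 2)) F) (w z))
            ∂(piN (n + 1)) := by
      intro s r
      have hmz : ∀ s r, Measurable (fun z =>
          ENNReal.ofReal (act (a 1 - e * r) (act (a 0 - e * s) F) (w z))) := by
        intro s r
        exact hφint.comp (measurable_const.prodMk measurable_id : Measurable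
          (fun z : Fin (n + 1) → ℝ => ((s, r), z)))
      have hadd : ∀ s r s' r', Measurable (fun z =>
          ENNReal.ofReal (act (a 1 - e * r) (act (a 0 - e * s) F) (w z))
          + ENNReal.ofReal (act (a 1 - e * r') (act (a 0 - e * s') F) (w z))) :=
        fun s r s' r' => (hmz s r).add (hmz s' r')
      simp only [φ]
      rw [← lintegral_add_left (hmz _ _), ← lintegral_add_left (hmz _ _),
        ← lintegral_add_left (hadd _ _ _ _), ← lintegral_const_mul' _ _ (by norm_num)]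
      apply lintegral_congr
      intro z
      have hn : ∀ c d, 0 ≤ act c (act d F) (w z) := fun c d =>
        (act_HF c _ (act_HF d F hF)).nonneg _
      rw [ofReal_four _ _ _ _ (hn _ _) (hn _ _) (hn _ _) (hn _ _)]
      congr 2
      unfold qF
      have c1 : a 1 - e * ((r + 1) / 2) = a 1 - e * (r / 2) - e / 2 := by ring
      have c2 : a 0 - e * ((s + 1) / 2) = a 0 - e * (s / 2) - e / 2 := by ring
      rw [c1, c2]
      unfold act
      ring
    have hle : ∀ s r, ∫⁻ z, ENNReal.ofReal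
          (qF (e / 2) (a 1 - e * (r / 2)) (qF (e / 2) (a 0 - e * (s / 2)) F) (w z))
            ∂(piN (n + 1)) ≤ ENNReal.ofReal (Real.sqrt (th J ^ (n / 2) * (th J * B) / e)) := by
      intro s r
      have h1 := contr_real (e / 2) (by positivity) J hJ (a 0 - e * (s / 2)) (a 1 - e * (r / 2)) F hF
        B hB hS
      exact ih _ (qF_HF _ _ _ (qF_HF _ _ _ hF)) (th J * B) (mul_pos (th_pos J hJ0) hB) h1 _
    have hpow : th J ^ ((n + 2) / 2) * B / e = th J ^ (n / 2) * (th J * B) / e := by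
      have : (n + 2) / 2 = n / 2 + 1 := by omega
      rw [this, pow_succ]
      ring
    rw [hpow]
    have hfin : 4 * ∫⁻ s, ∫⁻ r, φ s r ∂nu ∂nu
        ≤ 4 * ENNReal.ofReal (Real.sqrt (th J ^ (n / 2) * (th J * B) / e)) := by
      rw [hsplit]
      simp only [hcomb]
      calc _ ≤ ∫⁻ _s, ∫⁻ _r, 4 * ENNReal.ofReal (Real.sqrt (th J ^ (n / 2) * (th J * B) / e)) ∂nu
            ∂nu := by
            apply lintegral_mono
            intro s
            apply lintegral_mono
            intro r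
            simp only
            gcongr
            exact hle s r
        _ = _ := by simp
    exact (ENNReal.mul_le_mul_iff_right (by norm_num) (by norm_num)).mp hfin

/-- the test function -/
noncomputable def F0 : ℝ × ℝ → ℝ := fun v => (Real.sqrt (v.1 ^ 2 + v.2 ^ 2))⁻¹

theorem F0_HF : HF F0 where
  meas := by
    unfold F0
    fun_prop
  nonneg v := by unfold F0; positivity
  hom c hc v := by
    unfold F0
    simp only
    have : (c * v.1) ^ 2 + (c * v.2) ^ 2 = c ^ 2 * (v.1 ^ 2 + v.2 ^ 2) := by ring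
    rw [this, Real.sqrt_mul (sq_nonneg c), Real.sqrt_sq_eq_abs, mul_inv]

theorem SS_F0 : SS (sec F0) ≤ ENNReal.ofReal Real.pi := by
  rw [← integral_univ_inv_one_add_sq, ofReal_integral_eq_lintegral_ofReal
    integrable_inv_one_add_sq (Filter.Eventually.of_forall fun x => by positivity)]
  unfold SS sec F0
  apply lintegral_mono
  intro x
  simp only
  apply ENNReal.ofReal_le_ofReal
  rw [inv_pow, Real.sq_sqrt (by positivity)]
  apply le_of_eq
  congr 1
  ring

theorem interval_meas (k m r : ℝ) (hk : k ≠ 0) :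
    nu {s | |k * s + m| ≤ r} ≤ ENNReal.ofReal (2 * r / |k|) := by
  have hk' : 0 < |k| := abs_pos.mpr hk
  have hsub : {s | |k * s + m| ≤ r} ⊆ Icc (-m / k - r / |k|) (-m / k + r / |k|) := by
    intro s hs
    simp only [mem_ofPred_eq] at hs
    have h1 : |k * s + m| = |k| * |s - (-m / k)| := by
      rw [← abs_mul]
      congr 1
      field_simp
      ring
    rw [h1] at hs
    have h2 : |s - (-m / k)| ≤ r / |k| := by
      rw [le_div_iff₀ hk']
      linarith
    rw [abs_le] at h2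
    exact ⟨by linarith [h2.1], by linarith [h2.2]⟩
  calc nu {s | |k * s + m| ≤ r} ≤ nu (Icc (-m / k - r / |k|) (-m / k + r / |k|)) :=
        measure_mono hsub
    _ ≤ volume (Icc (-m / k - r / |k|) (-m / k + r / |k|)) := Measure.restrict_apply_le _ _
    _ = ENNReal.ofReal (2 * r / |k|) := by
        rw [Real.volume_Icc]
        congr 1
        ring

/-- constant -/
noncomputable def Cc (e A : ℝ) : ℝ := 4 * (1 + A) / e + 2

theorem one_step (e : ℝ) (he : 0 < e) (A : ℝ) (hA : 0 ≤ A) (a₀ : ℝ)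
    (ha : ∀ s ∈ Ico (0 : ℝ) 1, |a₀ - e * s| ≤ A) (w : ℝ × ℝ) (hw : w.1 ≠ 0 ∨ w.2 ≠ 0)
    (r : ℝ) (hr : 0 ≤ r) :
    nu {s | |(a₀ - e * s) * w.1 - w.2| ≤ r} ≤ ENNReal.ofReal (Cc e A * r * F0 w) := by
  set N := Real.sqrt (w.1 ^ 2 + w.2 ^ 2) with hN
  have hNpos : 0 < N := by
    apply Real.sqrt_pos.mpr
    rcases hw with h | h
    · have := sq_nonneg w.2
      positivity
    · have := sq_nonneg w.1
      positivity
  have hNle : N ≤ |w.1| + |w.2| := by
    rw [hN, Real.sqrt_le_left (by positivity)]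
    rw [← sq_abs w.1, ← sq_abs w.2]
    nlinarith [mul_nonneg (abs_nonneg w.1) (abs_nonneg w.2)]
  have hF0 : F0 w = N⁻¹ := rfl
  rw [hF0]
  rcases le_or_gt (N / (2 * (1 + A))) |w.1| with h | h
  · have hw1 : 0 < |w.1| := lt_of_lt_of_le (by positivity) h
    have hw1' : w.1 ≠ 0 := abs_pos.mp hw1
    have h1 := interval_meas (-e * w.1) (a₀ * w.1 - w.2) r (mul_ne_zero (by linarith) hw1')
    have e1 : {s | |(a₀ - e * s) * w.1 - w.2| ≤ r} = {s | |-e * w.1 * s + (a₀ * w.1 - w.2)| ≤ r} := by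
      ext s
      simp only [mem_ofPred_eq]
      have : (a₀ - e * s) * w.1 - w.2 = -e * w.1 * s + (a₀ * w.1 - w.2) := by ring
      rw [this]
    rw [e1]
    refine h1.trans (ENNReal.ofReal_le_ofReal ?_)
    rw [abs_mul, abs_neg, abs_of_pos he]
    unfold Cc
    have h2 : 2 * r / (e * |w.1|) ≤ 4 * (1 + A) / e * r * N⁻¹ := by
      rw [div_le_iff₀ (by positivity)]
      have h3 : N ≤ |w.1| * (2 * (1 + A)) := (div_le_iff₀ (by positivity)).mp h
      have h4 : 4 * (1 + A) / e * r * N⁻¹ * (e * |w.1|) = 2 * r * (|w.1| * (2 * (1 + A)) / N) := by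
        field_simp
        ring
      rw [h4]
      have h5 : 1 ≤ |w.1| * (2 * (1 + A)) / N := (one_le_div hNpos).mpr h3
      nlinarith
    have h6 : 0 ≤ 2 * r * N⁻¹ := by positivity
    nlinarith
  · rcases le_or_gt r (N / 2) with h2 | h2
    · have hemp : {s | |(a₀ - e * s) * w.1 - w.2| ≤ r} ∩ Ico 0 1 = ∅ := by
        rw [Set.eq_empty_iff_forall_notMem]
        rintro s ⟨hs, hs1⟩
        simp only [mem_ofPred_eq] at hs
        have h3 := ha s hs1
        have h4 : |w.2| - |(a₀ - e * s) * w.1| ≤ |(a₀ - e * s) * w.1 - w.2| := by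
          have := abs_sub_abs_le_abs_sub w.2 ((a₀ - e * s) * w.1)
          rwa [abs_sub_comm] at this
        rw [abs_mul] at h4
        have h5 : |a₀ - e * s| * |w.1| ≤ A * |w.1| := mul_le_mul_of_nonneg_right h3 (abs_nonneg _)
        have h6 : |w.1| * (2 * (1 + A)) < N := (lt_div_iff₀ (by positivity)).mp h
        nlinarith
      rw [nu, Measure.restrict_apply' measurableSet_Ico, hemp]
      simp
    · calc nu {s | |(a₀ - e * s) * w.1 - w.2| ≤ r} ≤ 1 := prob_le_one
        _ = ENNReal.ofReal 1 := by simp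
        _ ≤ ENNReal.ofReal (Cc e A * r * N⁻¹) := by
          apply ENNReal.ofReal_le_ofReal
          unfold Cc
          have h3 : 1 ≤ 2 * r * N⁻¹ := by
            rw [← div_eq_mul_inv, le_div_iff₀ hNpos]
            linarith
          have h4 : 0 ≤ 4 * (1 + A) / e * (r * N⁻¹) := by positivity
          nlinarith

theorem AW_ne (a : ℕ → ℝ) (e : ℝ) (n : ℕ) (x : Fin n → ℝ) :
    (AW a e n x).1 ≠ 0 ∨ (AW a e n x).2 ≠ 0 := W_ne_zero n _

theorem arm_prob (e : ℝ) (he : 0 < e) (J : ℕ) (hJ : 2 ≤ J * (e / 2)) (A : ℝ) (hA : 0 ≤ A)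
    (a : ℕ → ℝ) (ha : ∀ s ∈ Ico (0 : ℝ) 1, |a 0 - e * s| ≤ A) (n : ℕ) (r : ℝ) (hr : 0 ≤ r) :
    piN (n + 2) {x | |(AW a e (n + 2) x).1| ≤ r}
      ≤ ENNReal.ofReal (Cc e A * r * Real.sqrt (th J ^ (n / 2) * Real.pi / e)) := by
  have hms : MeasurableSet {x | |(AW a e (n + 2) x).1| ≤ r} :=
    measurableSet_le (AW_meas a e _).fst.abs measurable_const
  rw [← lintegral_indicator_one hms, lintegral_piN_succ' _ _ (measurable_one.indicator hms)]
  have h1 : ∀ y : Fin (n + 1) → ℝ, ∫⁻ s, {x | |(AW a e (n + 2) x).1| ≤ r}.indicator 1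
      (Fin.cons s y : Fin (n + 2) → ℝ) ∂nu
      ≤ ENNReal.ofReal (Cc e A * r) * ENNReal.ofReal (F0 (AW (fun i => a (i + 1)) e (n + 1) y)) := by
    intro y
    set w := AW (fun i => a (i + 1)) e (n + 1) y with hw
    have e1 : ∀ s, {x | |(AW a e (n + 2) x).1| ≤ r}.indicator (1 : (Fin (n + 2) → ℝ) → ℝ≥0∞)
        (Fin.cons s y : Fin (n + 2) → ℝ)
        = {s | |(a 0 - e * s) * w.1 - w.2| ≤ r}.indicator (1 : ℝ → ℝ≥0∞) s := by
      intro s
      simp only [indicator, mem_ofPred_eq, AW_cons, ← hw, Pi.one_apply]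
    simp only [e1]
    rw [lintegral_indicator_one (measurableSet_le (by fun_prop) (by fun_prop)),
      ← ENNReal.ofReal_mul (by unfold Cc; positivity)]
    exact one_step e he A hA (a 0) ha w (AW_ne _ _ _ _) r hr
  calc _ ≤ ∫⁻ y, ENNReal.ofReal (Cc e A * r)
        * ENNReal.ofReal (F0 (AW (fun i => a (i + 1)) e (n + 1) y)) ∂(piN (n + 1)) :=
        lintegral_mono h1
    _ = ENNReal.ofReal (Cc e A * r) *
        ∫⁻ y, ENNReal.ofReal (F0 (AW (fun i => a (i + 1)) e (n + 1) y)) ∂(piN (n + 1)) :=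
        lintegral_const_mul' _ _ ENNReal.ofReal_ne_top
    _ ≤ ENNReal.ofReal (Cc e A * r) * ENNReal.ofReal (Real.sqrt (th J ^ (n / 2) * Real.pi / e)) := by
        gcongr
        exact arm_bound e he J hJ n F0 F0_HF Real.pi Real.pi_pos SS_F0 _
    _ = _ := by
        rw [← ENNReal.ofReal_mul (by unfold Cc; positivity)]

end Pool.Agent.DensePP
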