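import Mathlib

set_option autoImplicit false

namespace Pool.Agent.DensePP

open Set Filter Topology
open scoped ENNReal

/-- strictly increasing thresholds -/
def thr (T : ℕ → ℕ) : ℕ → ℕ
  | 0 => 0
  | k + 1 => max (thr T k + 1) (T (k + 1))

theorem diag_select (a : ℕ → ℕ → ℝ) (h0 : ∀ k m, 0 ≤ a k m) (hs : ∀ k, Summable (a k)) :
    ∃ κ : ℕ → ℕ, (∀ k, ∃ N, ∀ m, κ m = k → m ≤ N) ∧ Summable (fun m => a (κ m) m) := by
  classical
  -- tails
  have htail : ∀ k, ∃ M, ∑' m, a k (m + M) ≤ (1 / 2 : ℝ) ^ k := by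
    intro k
    have h1 := tendsto_sum_nat_add (a k)
    have h2 := h1.eventually (gt_mem_nhds (show (0 : ℝ) < (1 / 2 : ℝ) ^ k by positivity))
    obtain ⟨M, hM⟩ := h2.exists
    exact ⟨M, hM.le⟩
  choose T hT using htail
  -- strictly increasing thresholds
  set M : ℕ → ℕ := thr T with hM
  have hM0 : M 0 = 0 := rfl
  have hMs : ∀ k, M (k + 1) = max (M k + 1) (T (k + 1)) := fun k => rfl
  have hMlt : ∀ k, M k < M (k + 1) := by
    intro k
    rw [hMs]
    exact lt_of_lt_of_le (Nat.lt_succ_self _) (le_max_left _ _)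
  have hMmono : StrictMono M := strictMono_nat_of_lt_succ hMlt
  have hMge : ∀ k, k ≤ M k := hMmono.id_le
  have hMT : ∀ k, 1 ≤ k → T k ≤ M k := by
    intro k hk
    obtain ⟨j, rfl⟩ : ∃ j, k = j + 1 := ⟨k - 1, by omega⟩
    rw [hMs]
    exact le_max_right _ _
  have htail2 : ∀ k, 1 ≤ k → ∑' m, a k (m + M k) ≤ (1 / 2 : ℝ) ^ k := by
    intro k hk
    refine le_trans ?_ (hT k)
    have hc : Summable (fun m => a k (m + T k)) := (summable_nat_add_iff (T k)).mpr (hs k)
    obtain ⟨d, hd⟩ := Nat.exists_eq_add_of_le (hMT k hk)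
    have e1 : (fun m => a k (m + M k)) = fun m => (fun j => a k (j + T k)) (m + d) := by
      funext m
      simp only
      congr 1
      omega
    rw [e1]
    have := hc.sum_add_tsum_nat_add d
    have h3 : 0 ≤ ∑ i ∈ Finset.range d, a k (i + T k) := Finset.sum_nonneg fun i _ => h0 _ _
    linarith
  let κ : ℕ → ℕ := fun m => Nat.findGreatest (fun k : ℕ => M k ≤ m) m
  have hκ : ∀ m, M (κ m) ≤ m := by
    intro m
    exact Nat.findGreatest_spec (P := fun k : ℕ => M k ≤ m) (m := 0) (Nat.zero_le m)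
      (by simp [hM0])
  have hκ2 : ∀ m, m < M (κ m + 1) := by
    intro m
    by_contra hcon
    push Not at hcon
    have h1 : κ m + 1 ≤ m := (hMge _).trans hcon
    exact Nat.findGreatest_is_greatest (P := fun k => M k ≤ m) (Nat.lt_succ_self (κ m)) h1 hcon
  refine ⟨κ, fun k => ⟨M (k + 1), fun m hm => ?_⟩, ?_⟩
  · have := hκ2 m
    rw [hm] at this
    exact this.le
  -- summability
  have hE : ∑' m, ENNReal.ofReal (a (κ m) m) ≠ ⊤ := by
    have h1 : ∀ m, ENNReal.ofReal (a (κ m) m)
        ≤ ∑' k, if M k ≤ m then ENNReal.ofReal (a k m) else 0 := by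
      intro m
      have := ENNReal.le_tsum (f := fun k => if M k ≤ m then ENNReal.ofReal (a k m) else 0) (κ m)
      simp only [hκ m, if_true] at this
      exact this
    have h2 : ∑' m, ENNReal.ofReal (a (κ m) m)
        ≤ ∑' k, ∑' m, (if M k ≤ m then ENNReal.ofReal (a k m) else 0) := by
      rw [ENNReal.tsum_comm]
      exact ENNReal.tsum_le_tsum h1
    have h3 : ∀ k, ∑' m, (if M k ≤ m then ENNReal.ofReal (a k m) else 0)
        = ENNReal.ofReal (∑' m, a k (m + M k)) := by
      intro k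
      have hc : Summable (fun m => a k (m + M k)) := (summable_nat_add_iff (M k)).mpr (hs k)
      rw [ENNReal.ofReal_tsum_of_nonneg (fun m => h0 _ _) hc]
      have hinj : Function.Injective (fun m : ℕ => m + M k) := add_left_injective (M k)
      rw [← hinj.tsum_eq]
      · apply tsum_congr
        intro m
        rw [if_pos (by omega)]
      · intro m hm
        simp only [Function.mem_support, ne_eq, ite_eq_right_iff, Classical.not_imp] at hm
        exact ⟨m - M k, by simp only; omega⟩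
    have h4 : ∑' k, ENNReal.ofReal (∑' m, a k (m + M k))
        ≤ ENNReal.ofReal (∑' m, a 0 m) + ∑' k, ENNReal.ofReal ((1 / 2 : ℝ) ^ k) := by
      rw [tsum_eq_zero_add' ENNReal.summable]
      have e0 : (∑' m, a 0 (m + M 0)) = ∑' m, a 0 m := by simp [hM0]
      rw [e0]
      refine add_le_add le_rfl ?_
      calc ∑' k, ENNReal.ofReal (∑' m, a (k + 1) (m + M (k + 1)))
          ≤ ∑' k, ENNReal.ofReal ((1 / 2 : ℝ) ^ (k + 1)) :=
            ENNReal.tsum_le_tsum fun k => ENNReal.ofReal_le_ofReal (htail2 (k + 1) (by omega))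
        _ ≤ ∑' k, ENNReal.ofReal ((1 / 2 : ℝ) ^ k) := by
            apply ENNReal.tsum_le_tsum
            intro k
            apply ENNReal.ofReal_le_ofReal
            exact pow_le_pow_of_le_one (by norm_num) (by norm_num) (by omega)
    have h5 : ∑' k, ENNReal.ofReal ((1 / 2 : ℝ) ^ k) = ENNReal.ofReal (∑' k, (1 / 2 : ℝ) ^ k) :=
      (ENNReal.ofReal_tsum_of_nonneg (fun k => by positivity) summable_geometric_two).symm
    refine ne_top_of_le_ne_top ?_ (h2.trans ((le_of_eq (tsum_congr h3)).trans h4))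
    rw [h5]
    exact ENNReal.add_ne_top.mpr ⟨ENNReal.ofReal_ne_top, ENNReal.ofReal_ne_top⟩
  have h6 := ENNReal.summable_toReal hE
  refine h6.congr (fun m => ?_)
  exact ENNReal.toReal_ofReal (h0 _ _)

end Pool.Agent.DensePP
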