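import Mathlib
import Pool.Agent.Lib.MP_b5b0d6_mp.SpecMeas

set_option autoImplicit false

namespace Pool.Agent.DensePP

open MeasureTheory ContinuousLinearMap Filter Topology
open scoped InnerProductSpace

set_option linter.unusedSectionVars false

section General

variable {H : Type*} [NormedAddCommGroup H] [InnerProductSpace ℂ H] [CompleteSpace H]
  (T : H →L[ℂ] H) (hT : IsSelfAdjoint T)

/-- The functional calculus. -/
noncomputable abbrev Phi : C(spectrum ℝ T, ℝ) →⋆ₐ[ℝ] (H →L[ℂ] H) := cfcHom hT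

theorem Phi_symm (g : C(spectrum ℝ T, ℝ)) (x y : H) :
    ⟪Phi T hT g x, y⟫_ℂ = ⟪x, Phi T hT g y⟫_ℂ := by
  have h : adjoint (Phi T hT g) = Phi T hT g := by
    change star (Phi T hT g) = Phi T hT g
    rw [← map_star, star_trivial]
  conv_lhs => rw [← h]
  exact adjoint_inner_left _ _ _

theorem Phi_mul_apply (f g : C(spectrum ℝ T, ℝ)) (x : H) :
    Phi T hT (f * g) x = Phi T hT f (Phi T hT g x) := by
  rw [map_mul]; rfl

theorem norm_sq_Phi (g : C(spectrum ℝ T, ℝ)) (x : H) :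
    ‖Phi T hT g x‖ ^ 2 = (⟪x, Phi T hT (g * g) x⟫_ℂ).re := by
  rw [Phi_mul_apply, ← Phi_symm]
  exact (inner_self_eq_norm_sq (𝕜 := ℂ) (Phi T hT g x)).symm

theorem norm_Phi_le (g : C(spectrum ℝ T, ℝ)) (c : ℝ) (hc : 0 ≤ c) (hg : ∀ s, |g s| ≤ c) (x : H) :
    ‖Phi T hT g x‖ ≤ c * ‖x‖ := by
  have : CompactSpace (spectrum ℝ T) := isCompact_iff_compactSpace.mp
    (ContinuousFunctionalCalculus.isCompact_spectrum (R := ℝ) T)
  have h1 : ‖Phi T hT g‖ = ‖g‖ := norm_cfcHom T g hT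
  have h2 : ‖g‖ ≤ c := (ContinuousMap.norm_le g hc).mpr hg
  calc ‖Phi T hT g x‖ ≤ ‖Phi T hT g‖ * ‖x‖ := le_opNorm _ _
    _ ≤ c * ‖x‖ := by rw [h1]; exact mul_le_mul_of_nonneg_right h2 (norm_nonneg _)

theorem re_nonneg (g : C(spectrum ℝ T, ℝ)) (hg : ∀ s, 0 ≤ g s) (x : H) :
    0 ≤ (⟪x, Phi T hT g x⟫_ℂ).re := by
  let r : C(spectrum ℝ T, ℝ) := ⟨fun s => Real.sqrt (g s), Real.continuous_sqrt.comp g.continuous⟩
  have hr : g = r * r := by
    ext s
    simp only [ContinuousMap.mul_apply]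
    exact (Real.mul_self_sqrt (hg s)).symm
  rw [hr, ← norm_sq_Phi]
  positivity

theorem re_mono (f g : C(spectrum ℝ T, ℝ)) (hfg : ∀ s, f s ≤ g s) (x : H) :
    (⟪x, Phi T hT f x⟫_ℂ).re ≤ (⟪x, Phi T hT g x⟫_ℂ).re := by
  have := re_nonneg T hT (g - f) (fun s => sub_nonneg.mpr (hfg s)) x
  rw [map_sub, sub_apply, inner_sub_right, Complex.sub_re] at this
  linarith

theorem Phi_comm (g : C(spectrum ℝ T, ℝ)) (x : H) : T (Phi T hT g x) = Phi T hT g (T x) := by
  let idc : C(spectrum ℝ T, ℝ) := (ContinuousMap.id ℝ).restrict (spectrum ℝ T)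
  have h2 : Phi T hT idc = T := cfcHom_id hT
  have h3 : Phi T hT (idc * g) = Phi T hT (g * idc) := by rw [mul_comm]
  have h4 := congrArg (fun A : H →L[ℂ] H => A x) h3
  simp only [Phi_mul_apply] at h4
  rw [h2] at h4
  exact h4

/-- The span of the eigenvectors. -/
def eigSpan : Submodule ℂ H := Submodule.span ℂ {ψ : H | ∃ E : ℝ, T ψ = (E : ℂ) • ψ}

theorem Phi_mem_orth (g : C(spectrum ℝ T, ℝ)) (x : H) (hx : x ∈ (eigSpan T)ᗮ) :
    Phi T hT g x ∈ (eigSpan T)ᗮ := by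
  rw [Submodule.mem_orthogonal] at hx ⊢
  intro u hu
  rw [← Phi_symm]
  apply hx
  induction hu using Submodule.span_induction with
  | mem v hv =>
    obtain ⟨E, hE⟩ := hv
    apply Submodule.subset_span
    refine ⟨E, ?_⟩
    rw [Phi_comm, hE, map_smul]
  | zero => rw [map_zero]; exact zero_mem _
  | add u v _ _ hu hv => rw [map_add]; exact add_mem hu hv
  | smul a v _ hv => rw [map_smul]; exact Submodule.smul_mem _ _ hv

/-- Plateau function around `c`. -/
noncomputable def plat (c : ℝ) (m : ℕ) : C(spectrum ℝ T, ℝ) :=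
  ⟨fun s => max 0 (min 1 (2 - (m + 1 : ℝ) * |(s : ℝ) - c|)), by fun_prop⟩

theorem plat_nonneg (c : ℝ) (m : ℕ) (s : spectrum ℝ T) : 0 ≤ plat T c m s := le_max_left _ _

theorem plat_le_one (c : ℝ) (m : ℕ) (s : spectrum ℝ T) : plat T c m s ≤ 1 :=
  max_le zero_le_one (min_le_left _ _)

theorem plat_anti (c : ℝ) {m l : ℕ} (h : m ≤ l) (s : spectrum ℝ T) :
    plat T c l s ≤ plat T c m s := by
  have h' : (m : ℝ) ≤ l := by exact_mod_cast h
  change max 0 (min 1 (2 - (l + 1 : ℝ) * |(s : ℝ) - c|)) ≤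
    max 0 (min 1 (2 - (m + 1 : ℝ) * |(s : ℝ) - c|))
  refine max_le_max le_rfl (min_le_min le_rfl ?_)
  have := mul_le_mul_of_nonneg_right h' (abs_nonneg ((s : ℝ) - c))
  linarith

theorem plat_eq_one (c : ℝ) (m : ℕ) (s : spectrum ℝ T) (h : (m + 1 : ℝ) * |(s : ℝ) - c| ≤ 1) :
    plat T c m s = 1 := by
  change max 0 (min 1 (2 - (m + 1 : ℝ) * |(s : ℝ) - c|)) = 1
  rw [min_eq_left (by linarith)]
  simp

theorem plat_mul_bound (c : ℝ) (m : ℕ) (s : spectrum ℝ T) :
    |((s : ℝ) - c) * plat T c m s| ≤ 2 / (m + 1 : ℝ) := by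
  rw [abs_mul, abs_of_nonneg (plat_nonneg T c m s)]
  have hm : (0 : ℝ) < m + 1 := by positivity
  rcases le_or_gt ((m + 1 : ℝ) * |(s : ℝ) - c|) 2 with h | h
  · calc |(s : ℝ) - c| * plat T c m s ≤ |(s : ℝ) - c| * 1 :=
        mul_le_mul_of_nonneg_left (plat_le_one T c m s) (abs_nonneg _)
      _ ≤ 2 / (m + 1 : ℝ) := by
        rw [mul_one, le_div_iff₀ hm]; linarith
  · have : plat T c m s = 0 := by
      change max 0 (min 1 (2 - (m + 1 : ℝ) * |(s : ℝ) - c|)) = 0
      rw [max_eq_left]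
      exact (min_le_right _ _).trans (by linarith)
    rw [this, mul_zero]
    positivity

theorem plat_tendsto (c : ℝ) (x : H) (hx : x ∈ (eigSpan T)ᗮ) :
    Tendsto (fun m => ‖Phi T hT (plat T c m) x‖) atTop (𝓝 0) := by
  have : CompactSpace (spectrum ℝ T) := isCompact_iff_compactSpace.mp
    (ContinuousFunctionalCalculus.isCompact_spectrum (R := ℝ) T)
  set y : ℕ → H := fun m => Phi T hT (plat T c m) x with hy
  set a : ℕ → ℝ := fun m => (⟪x, Phi T hT (plat T c m) x⟫_ℂ).re with ha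
  have ha_anti : Antitone a := fun m l h => re_mono T hT _ _ (plat_anti T c h) x
  have ha_nn : ∀ m, 0 ≤ a m := fun m => re_nonneg T hT _ (plat_nonneg T c m) x
  have ha_tend : Tendsto a atTop (𝓝 (⨅ i, a i)) := tendsto_atTop_ciInf ha_anti
    ⟨0, by rintro _ ⟨m, rfl⟩; exact ha_nn m⟩
  have hdiff : ∀ m l, m ≤ l → ‖y m - y l‖ ^ 2 ≤ a m - a l := by
    intro m l h
    have h1 : y m - y l = Phi T hT (plat T c m - plat T c l) x := by
      rw [map_sub, sub_apply]
    have h2 : a m - a l = (⟪x, Phi T hT (plat T c m - plat T c l) x⟫_ℂ).re := by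
      rw [map_sub, sub_apply, inner_sub_right, Complex.sub_re]
    rw [h1, h2, norm_sq_Phi]
    apply re_mono
    intro s
    simp only [ContinuousMap.mul_apply, ContinuousMap.sub_apply]
    have e1 := plat_anti T c h s
    have e2 := plat_nonneg T c l s
    have e3 := plat_le_one T c m s
    nlinarith
  have hcauchy : CauchySeq y := by
    rw [Metric.cauchySeq_iff']
    intro ε hε
    have hc := ha_tend.cauchySeq
    rw [Metric.cauchySeq_iff'] at hc
    obtain ⟨N, hN⟩ := hc (ε ^ 2) (by positivity)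
    refine ⟨N, fun n hn => ?_⟩
    have h1 := hN n hn
    rw [Real.dist_eq] at h1
    have h2 := hdiff N n hn
    have h3 : ‖y N - y n‖ ^ 2 < ε ^ 2 := by
      calc ‖y N - y n‖ ^ 2 ≤ a N - a n := h2
        _ ≤ |a n - a N| := by rw [abs_sub_comm]; exact le_abs_self _
        _ < ε ^ 2 := h1
    rw [dist_comm, dist_eq_norm]
    exact lt_of_pow_lt_pow_left₀ 2 hε.le h3
  obtain ⟨z, hz⟩ := cauchySeq_tendsto_of_complete hcauchy
  have hzK : z ∈ (eigSpan T)ᗮ :=
    (Submodule.isClosed_orthogonal (eigSpan T)).mem_of_tendsto hz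
      (Eventually.of_forall fun m => Phi_mem_orth T hT _ x hx)
  have hTz : T z = (c : ℂ) • z := by
    have h1 : Tendsto (fun m => T (y m) - (c : ℂ) • y m) atTop (𝓝 (T z - (c : ℂ) • z)) :=
      ((T.continuous.tendsto z).comp hz).sub (hz.const_smul _)
    have h2 : Tendsto (fun m => T (y m) - (c : ℂ) • y m) atTop (𝓝 0) := by
      rw [tendsto_zero_iff_norm_tendsto_zero]
      have hb : ∀ m : ℕ, ‖T (y m) - (c : ℂ) • y m‖ ≤ 2 / (m + 1 : ℝ) * ‖x‖ := by
        intro m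
        let idc : C(spectrum ℝ T, ℝ) := (ContinuousMap.id ℝ).restrict (spectrum ℝ T)
        have e1 : T (y m) - (c : ℂ) • y m
            = Phi T hT ((idc - algebraMap ℝ _ c) * plat T c m) x := by
          rw [Phi_mul_apply, map_sub, sub_apply]
          have e2 : Phi T hT idc = T := cfcHom_id hT
          rw [e2, AlgHomClass.commutes]
          congr 1
        rw [e1]
        apply norm_Phi_le
        · positivity
        · intro s
          exact plat_mul_bound T c m s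
      refine squeeze_zero (fun m => norm_nonneg _) hb ?_
      have : Tendsto (fun m : ℕ => 2 / (m + 1 : ℝ)) atTop (𝓝 0) := by
        have := tendsto_one_div_add_atTop_nhds_zero_nat (𝕜 := ℝ)
        have h3 := this.const_mul 2
        rw [mul_zero] at h3
        refine h3.congr (fun m => ?_)
        ring
      have h4 := this.mul_const ‖x‖
      rwa [zero_mul] at h4
    exact sub_eq_zero.mp (tendsto_nhds_unique h1 h2)
  have hzM : z ∈ eigSpan T := Submodule.subset_span ⟨c, hTz⟩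
  have hz0 : z = 0 := by
    have := (Submodule.mem_orthogonal _ _).mp hzK z hzM
    exact inner_self_eq_zero.mp this
  rw [hz0] at hz
  exact tendsto_zero_iff_norm_tendsto_zero.mp hz

theorem sum_norm_le {ι : Type*} [Fintype ι] (δ : H) (co : H →L[ℂ] ℂ)
    (Q : ℝ)
    (h : ∀ g : C(spectrum ℝ T, ℝ), (∀ s, |g s| ≤ 1) → ‖co (Phi T hT g δ)‖ ≤ Q)
    (ρ : ι → C(spectrum ℝ T, ℝ)) (h0 : ∀ i s, 0 ≤ ρ i s) (h1 : ∀ s, ∑ i, ρ i s = 1) :
    ∑ i, ‖co (Phi T hT (ρ i) δ)‖ ≤ 2 * Q := by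
  classical
  have key : ∀ (L : ℂ →ₗ[ℝ] ℝ), (∀ z, |L z| ≤ ‖z‖) →
      ∑ i, |L (co (Phi T hT (ρ i) δ))| ≤ Q := by
    intro L hL
    let s : ι → ℝ := fun i => if 0 ≤ L (co (Phi T hT (ρ i) δ)) then 1 else -1
    have hs : ∀ i, |s i| = 1 := by
      intro i
      simp only [s]
      split_ifs <;> simp
    have hs2 : ∀ i, s i * L (co (Phi T hT (ρ i) δ)) = |L (co (Phi T hT (ρ i) δ))| := by
      intro i
      simp only [s]
      split_ifs with h
      · rw [one_mul, abs_of_nonneg h]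
      · rw [abs_of_neg (not_le.mp h)]; ring
    let g : C(spectrum ℝ T, ℝ) := ∑ i, s i • ρ i
    have hg : ∀ t, |g t| ≤ 1 := by
      intro t
      have : g t = ∑ i, s i * ρ i t := by
        simp only [g, ContinuousMap.coe_sum, ContinuousMap.coe_smul, Finset.sum_apply,
          Pi.smul_apply, smul_eq_mul]
      rw [this]
      calc |∑ i, s i * ρ i t| ≤ ∑ i, |s i * ρ i t| := Finset.abs_sum_le_sum_abs _ _
        _ = ∑ i, ρ i t := by
          apply Finset.sum_congr rfl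
          intro i _
          rw [abs_mul, hs, one_mul, abs_of_nonneg (h0 i t)]
        _ = 1 := h1 t
        _ ≤ 1 := le_rfl
    have hval : co (Phi T hT g δ) = ∑ i, s i • co (Phi T hT (ρ i) δ) := by
      simp only [g, map_sum, map_smul]
      rw [sum_apply, map_sum]
      apply Finset.sum_congr rfl
      intro i _
      have : (s i • (Phi T hT) (ρ i)) δ = ((s i : ℝ) : ℂ) • (Phi T hT (ρ i) δ) := by
        rw [smul_apply, Complex.coe_smul]
      rw [this, map_smul, Complex.coe_smul]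
    calc ∑ i, |L (co (Phi T hT (ρ i) δ))| = L (co (Phi T hT g δ)) := by
          rw [hval, map_sum]
          apply Finset.sum_congr rfl
          intro i _
          rw [map_smul, smul_eq_mul, hs2]
      _ ≤ |L (co (Phi T hT g δ))| := le_abs_self _
      _ ≤ ‖co (Phi T hT g δ)‖ := hL _
      _ ≤ Q := h g hg
  have hre := key Complex.reLm (fun z => by simpa using Complex.abs_re_le_norm z)
  have him := key Complex.imLm (fun z => by simpa using Complex.abs_im_le_norm z)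
  calc ∑ i, ‖co (Phi T hT (ρ i) δ)‖
      ≤ ∑ i, (|Complex.reLm (co (Phi T hT (ρ i) δ))|
          + |Complex.imLm (co (Phi T hT (ρ i) δ))|) := by
        apply Finset.sum_le_sum
        intro i _
        exact Complex.norm_le_abs_re_add_abs_im _
    _ ≤ 2 * Q := by rw [Finset.sum_add_distrib]; linarith

theorem pp_abs (δ : H) (e : ℤ → H)
    (hco' : ∀ u v : H, Summable (fun n => ‖⟪e n, v⟫_ℂ‖) → ‖⟪u, v⟫_ℂ‖ ≤ ‖u‖ * ∑' n, ‖⟪e n, v⟫_ℂ‖)
    (q : ℤ → ℝ) (hq : Summable q)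
    (h' : ∀ g : C(spectrum ℝ T, ℝ), (∀ s, |g s| ≤ 1) → ∀ n, ‖⟪e n, Phi T hT g δ⟫_ℂ‖ ≤ q n) :
    δ ∈ (eigSpan T).topologicalClosure := by
  classical
  let co : ℤ → H →L[ℂ] ℂ := fun n => innerSL ℂ (e n)
  have hco : ∀ u v : H, Summable (fun n => ‖co n v‖) → ‖⟪u, v⟫_ℂ‖ ≤ ‖u‖ * ∑' n, ‖co n v‖ := hco'
  have h : ∀ g : C(spectrum ℝ T, ℝ), (∀ s, |g s| ≤ 1) → ∀ n, ‖co n (Phi T hT g δ)‖ ≤ q n := h'
  have hcomp : CompactSpace (spectrum ℝ T) := isCompact_iff_compactSpace.mp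
    (ContinuousFunctionalCalculus.isCompact_spectrum (R := ℝ) T)
  have hq0 : ∀ n, 0 ≤ q n := by
    intro n
    exact (norm_nonneg _).trans (h 0 (fun s => by simp) n)
  set K := (eigSpan T)ᗮ with hK
  set x : H := K.starProjection δ with hx
  have hxK : x ∈ K := K.starProjection_apply_mem δ
  have hxorth : ∀ w ∈ K, ⟪δ - x, w⟫_ℂ = 0 := fun w hw =>
    K.starProjection_inner_eq_zero δ w hw
  suffices hx0 : x = 0 by
    have : δ ∈ Kᗮ := by
      rw [Submodule.mem_orthogonal']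
      intro w hw
      have := hxorth w hw
      rwa [hx0, sub_zero] at this
    rwa [hK, Submodule.orthogonal_orthogonal_eq_closure] at this
  have hnorm : ∀ η : ℝ, 0 < η → ‖x‖ ^ 2 ≤ η * (2 * ∑' n, q n) := by
    intro η hη
    have hcov : ∀ c : spectrum ℝ T, ∃ m : ℕ, ‖Phi T hT (plat T (c : ℝ) m) x‖ ≤ η := by
      intro c
      have := (plat_tendsto T hT (c : ℝ) x hxK).eventually (gt_mem_nhds hη)
      obtain ⟨m, hm⟩ := this.exists
      exact ⟨m, hm.le⟩
    choose m hm using hcov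
    let U : spectrum ℝ T → Set (spectrum ℝ T) := fun c => {s | (m c + 1 : ℝ) * |(s : ℝ) - c| < 1}
    have hUo : ∀ c, IsOpen (U c) := fun c => isOpen_lt (by fun_prop) continuous_const
    have hUc : ∀ c, c ∈ U c := fun c => by simp [U]
    obtain ⟨t, ht⟩ := isCompact_univ.elim_finite_subcover U hUo
      (fun c _ => Set.mem_iUnion.mpr ⟨c, hUc c⟩)
    obtain ⟨ρ₀, hρ₀⟩ := PartitionOfUnity.exists_isSubordinate (s := (Set.univ : Set (spectrum ℝ T)))
      isClosed_univ (fun c : t => U c) (fun c => hUo c) (fun s hs => by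
        have := ht hs
        simp only [Set.mem_iUnion] at this ⊢
        obtain ⟨i, hi, hs⟩ := this
        exact ⟨⟨i, hi⟩, hs⟩)
    let ρ : t → C(spectrum ℝ T, ℝ) := fun i => ⟨fun s => ρ₀ i s, (ρ₀ i).continuous⟩
    have h0 : ∀ (i : t) s, 0 ≤ ρ i s := fun i s => ρ₀.nonneg i s
    have h1 : ∀ s, ∑ i : t, ρ i s = 1 := by
      intro s
      rw [← finsum_eq_sum_of_fintype]
      exact ρ₀.sum_eq_one (Set.mem_univ s)
    have hle1 : ∀ (i : t) s, ρ i s ≤ 1 := fun i s => ρ₀.le_one i s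
    have hmul : ∀ i : t, plat T (i : spectrum ℝ T) (m i) * ρ i = ρ i := by
      intro i
      ext s
      rw [ContinuousMap.mul_apply]
      by_cases hs : ρ i s = 0
      · rw [hs, mul_zero]
      · have : s ∈ U i := hρ₀ i (subset_tsupport _ hs)
        rw [plat_eq_one T _ _ _ (le_of_lt this), one_mul]
    have hsumm : ∀ i : t, Summable (fun n => ‖co n (Phi T hT (ρ i) δ)‖) := by
      intro i
      refine Summable.of_nonneg_of_le (fun n => norm_nonneg _) (fun n => ?_) hq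
      exact h _ (fun s => abs_le.mpr ⟨by linarith [h0 i s], hle1 i s⟩) n
    have hterm : ∀ i : t, ‖⟪x, Phi T hT (ρ i) δ⟫_ℂ‖
        ≤ η * ∑' n, ‖co n (Phi T hT (ρ i) δ)‖ := by
      intro i
      have e1 : ⟪x, Phi T hT (ρ i) δ⟫_ℂ
          = ⟪Phi T hT (plat T (i : spectrum ℝ T) (m i)) x, Phi T hT (ρ i) δ⟫_ℂ := by
        rw [Phi_symm, ← Phi_mul_apply, hmul]
      rw [e1]
      refine (hco _ _ (hsumm i)).trans ?_
      exact mul_le_mul_of_nonneg_right (hm i) (tsum_nonneg fun n => norm_nonneg _)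
    have e2 : ‖x‖ ^ 2 = (⟪x, δ⟫_ℂ).re := by
      have := hxorth x hxK
      rw [inner_sub_left, sub_eq_zero] at this
      have h3 : ⟪x, δ⟫_ℂ = ⟪x, x⟫_ℂ := by
        rw [← inner_conj_symm, this, inner_conj_symm]
      rw [h3]
      exact (inner_self_eq_norm_sq (𝕜 := ℂ) x).symm
    have e3 : δ = ∑ i : t, Phi T hT (ρ i) δ := by
      have : (∑ i : t, ρ i) = 1 := by
        ext s
        simp only [ContinuousMap.coe_sum, Finset.sum_apply, ContinuousMap.one_apply]
        exact h1 s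
      rw [← sum_apply, ← map_sum, this, map_one]
      rfl
    calc ‖x‖ ^ 2 = (⟪x, δ⟫_ℂ).re := e2
      _ ≤ ‖⟪x, δ⟫_ℂ‖ := Complex.re_le_norm _
      _ = ‖∑ i : t, ⟪x, Phi T hT (ρ i) δ⟫_ℂ‖ := by
        rw [← inner_sum, ← e3]
      _ ≤ ∑ i : t, ‖⟪x, Phi T hT (ρ i) δ⟫_ℂ‖ := norm_sum_le _ _
      _ ≤ ∑ i : t, η * ∑' n, ‖co n (Phi T hT (ρ i) δ)‖ := Finset.sum_le_sum fun i _ => hterm i
      _ = η * ∑' n, ∑ i : t, ‖co n (Phi T hT (ρ i) δ)‖ := by
        rw [← Finset.mul_sum, Summable.tsum_finsetSum (fun i _ => hsumm i)]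
      _ ≤ η * (2 * ∑' n, q n) := by
        apply mul_le_mul_of_nonneg_left _ hη.le
        rw [← tsum_mul_left]
        refine Summable.tsum_le_tsum (fun n => ?_) (summable_sum fun i _ => hsumm i)
          (hq.mul_left 2)
        exact sum_norm_le T hT δ (co n) (q n) (fun g hg => h g hg n) (fun i : t => ρ i) h0 h1
  have hlim : Tendsto (fun η : ℝ => η * (2 * ∑' n, q n)) (𝓝[>] 0) (𝓝 0) := by
    have : Tendsto (fun η : ℝ => η * (2 * ∑' n, q n)) (𝓝 0) (𝓝 (0 * (2 * ∑' n, q n))) :=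
      tendsto_id.mul_const _
    rw [zero_mul] at this
    exact this.mono_left nhdsWithin_le_nhds
  have hle0 : ‖x‖ ^ 2 ≤ 0 := by
    refine ge_of_tendsto hlim ?_
    filter_upwards [self_mem_nhdsWithin] with η hη
    exact hnorm η hη
  have : ‖x‖ = 0 := by
    have h2 : ‖x‖ ^ 2 = 0 := le_antisymm hle0 (by positivity)
    exact pow_eq_zero_iff (two_ne_zero) |>.mp h2
  exact norm_eq_zero.mp this

end General

section Crit

open Pool.Agent.LimPer

/-- The standard basis vector. -/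
noncomputable abbrev dl (b : ℤ) : L2 := lp.single (E := fun _ : ℤ => ℂ) 2 b (1 : ℂ)

/-- Evaluation. -/
noncomputable def ev (n : ℤ) : L2 →L[ℂ] ℂ :=
  LinearMap.mkContinuous
    { toFun := fun u => u n
      map_add' := fun u v => rfl
      map_smul' := fun c u => rfl } 1 (fun u => by
        rw [one_mul]
        exact lp.norm_apply_le_norm (by norm_num) u n)

theorem ev_apply (n : ℤ) (u : L2) : ev n u = u n := rfl

theorem ev_eq_inner (n : ℤ) (u : L2) : ev n u = ⟪dl n, u⟫_ℂ := by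
  rw [lp.inner_single_left, ev_apply]
  simp

theorem inner_bound (u v : L2) (hv : Summable (fun n => ‖⟪dl n, v⟫_ℂ‖)) :
    ‖⟪u, v⟫_ℂ‖ ≤ ‖u‖ * ∑' n, ‖⟪dl n, v⟫_ℂ‖ := by
  rw [lp.inner_eq_tsum, ← tsum_mul_left]
  have hb : ∀ n, ‖⟪u n, v n⟫_ℂ‖ ≤ ‖u‖ * ‖⟪dl n, v⟫_ℂ‖ := by
    intro n
    rw [← ev_eq_inner, ev_apply]
    refine (norm_inner_le_norm _ _).trans ?_
    apply mul_le_mul_of_nonneg_right _ (norm_nonneg _)
    exact lp.norm_apply_le_norm (by norm_num) _ n
  exact tsum_of_norm_bounded (hv.mul_left ‖u‖).hasSum hb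

theorem closure_eq_top (S : Submodule ℂ L2) (h : ∀ b, dl b ∈ S.topologicalClosure) :
    S.topologicalClosure = ⊤ := by
  rw [← Submodule.orthogonal_eq_bot_iff]
  rw [Submodule.eq_bot_iff]
  intro u hu
  ext n
  have := (Submodule.mem_orthogonal _ _).mp hu (dl n) (h n)
  rw [← ev_eq_inner, ev_apply] at this
  rw [this]
  rfl

end Crit

end Pool.Agent.DensePP
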