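import Mathlib
import Pool.Agent.Lib.MP_0eac64_mp.PP
import Pool.Agent.Lib.MP_0eac64_mp.Cont

set_option autoImplicit false

namespace Pool.Agent.DensePP

open MeasureTheory ContinuousLinearMap Filter Topology Pool.Agent.LimPer
open scoped InnerProductSpace

/-- diagonal entries of `E - V` -/
def sch (V : ℤ → ℝ) (E : ℝ) : ℤ → ℝ := fun j => E - V j

/-- `E` is regular for the window of radius `l` at `x`. -/
def Reg (V : ℤ → ℝ) (x : ℤ) (l : ℕ) (τ : ℝ) (E : ℝ) : Prop :=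
  |cL (sch V E) x l| < τ * |DW (sch V E) x l| ∧ |cR (sch V E) x l| < τ * |DW (sch V E) x l|

section Norm

variable (V : ℤ → ℝ) (C : ℝ) (hV : ∀ n, |V n| ≤ C)

theorem norm_shift (u : L2) (a : ℤ) : ‖(⟨_, memℓp_shift u u.2 a⟩ : L2)‖ = ‖u‖ := by
  have h1 : ‖(⟨_, memℓp_shift u u.2 a⟩ : L2)‖ ^ 2 = ‖u‖ ^ 2 := by
    have e1 := lp.norm_rpow_eq_tsum (p := 2) (by norm_num) (⟨_, memℓp_shift u u.2 a⟩ : L2)
    have e2 := lp.norm_rpow_eq_tsum (p := 2) (by norm_num) u
    simp only [ENNReal.toReal_ofNat, Real.rpow_two] at e1 e2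
    rw [e1, e2]
    exact (Equiv.addRight a).tsum_eq (fun n => ‖u n‖ ^ 2)
  exact (pow_left_inj₀ (norm_nonneg _) (norm_nonneg _) two_ne_zero).mp h1

theorem norm_mul_le' (hC : 0 ≤ C) (u : L2) : ‖(⟨_, memℓp_mul V C hV u u.2⟩ : L2)‖ ≤ C * ‖u‖ := by
  have h1 : ‖(⟨_, memℓp_mul V C hV u u.2⟩ : L2)‖ ^ 2 ≤ (C * ‖u‖) ^ 2 := by
    have e1 := lp.norm_rpow_eq_tsum (p := 2) (by norm_num) (⟨_, memℓp_mul V C hV u u.2⟩ : L2)
    have e2 := lp.norm_rpow_eq_tsum (p := 2) (by norm_num) u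
    simp only [ENNReal.toReal_ofNat, Real.rpow_two] at e1 e2
    rw [mul_pow, e1, e2, ← tsum_mul_left]
    have s1 : Summable (fun n => ‖u n‖ ^ 2) := (memℓp_two_iff _).mp u.2
    have s2 : Summable (fun n => ‖(V n : ℂ) * u n‖ ^ 2) :=
      (memℓp_two_iff _).mp (memℓp_mul V C hV u u.2)
    refine Summable.tsum_le_tsum (fun n => ?_) s2 (s1.mul_left (C ^ 2))
    change ‖(V n : ℂ) * u n‖ ^ 2 ≤ _
    rw [norm_mul, mul_pow]
    have h1 : ‖(V n : ℂ)‖ ^ 2 ≤ C ^ 2 := by
      rw [Complex.norm_real, Real.norm_eq_abs]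
      exact pow_le_pow_left₀ (abs_nonneg _) (hV n) 2
    exact mul_le_mul_of_nonneg_right h1 (by positivity)
  exact le_of_sq_le_sq h1 (by positivity)

theorem norm_opCLM_le : ‖opCLM V C hV‖ ≤ C + 2 := by
  have hC : 0 ≤ C := (abs_nonneg _).trans (hV 0)
  refine ContinuousLinearMap.opNorm_le_bound _ (by positivity) (fun u => ?_)
  have e : opCLM V C hV u = (⟨_, memℓp_shift u u.2 1⟩ : L2) + (⟨_, memℓp_shift u u.2 (-1)⟩ : L2)
      + (⟨_, memℓp_mul V C hV u u.2⟩ : L2) := rfl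
  rw [e]
  refine (norm_add_le _ _).trans ?_
  have := norm_add_le (⟨_, memℓp_shift u u.2 1⟩ : L2) (⟨_, memℓp_shift u u.2 (-1)⟩ : L2)
  have h2 := norm_mul_le' V C hV hC u
  rw [norm_shift, norm_shift] at this
  linarith

theorem opCLM_dl (j : ℤ) :
    opCLM V C hV (dl j) = dl (j + 1) + dl (j - 1) + (V j : ℂ) • dl j := by
  ext n
  rw [opCLM_apply]
  change (dl j) (n + 1) + (dl j) (n - 1) + (V n : ℂ) * (dl j) n
    = (dl (j + 1)) n + (dl (j - 1)) n + (V j : ℂ) * (dl j) n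
  simp only [dl, lp.single_apply]
  by_cases h1 : n = j
  · subst h1
    simp
  · have h2 : (n + 1 = j) = (n = j - 1) := by
      apply propext; constructor <;> intro h <;> omega
    have h3 : (n - 1 = j) = (n = j + 1) := by
      apply propext; constructor <;> intro h <;> omega
    simp only [Pi.single_apply, h1, h2, h3, if_false, mul_zero, add_zero]
    ring

theorem norm_dl (x : ℤ) : ‖dl x‖ = 1 := by
  rw [dl, lp.norm_single (by norm_num)]
  simp

end Norm

section Abs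

variable {H : Type*} [NormedAddCommGroup H] [InnerProductSpace ℂ H] [CompleteSpace H]
  (T : H →L[ℂ] H) (hT : IsSelfAdjoint T) (V : ℤ → ℝ) (C : ℝ) (hC : ‖T‖ ≤ C)
  (e : ℤ → H) (he : ∀ j, ‖e j‖ = 1) (hTe : ∀ j, T (e j) = e (j + 1) + e (j - 1) + (V j : ℂ) • e j)

include hC in
theorem spec_bound (s : spectrum ℝ T) : |(s : ℝ)| ≤ C := by
  have h1 := spectrum.norm_le_norm_mul_of_mem s.2
  have h2 : ‖(1 : H →L[ℂ] H)‖ ≤ 1 := ContinuousLinearMap.norm_id_le
  have h3 : ‖(s : ℝ)‖ ≤ ‖T‖ := h1.trans (by nlinarith [norm_nonneg T])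
  exact h3.trans hC

/-- entries in the function ring on the spectrum -/
noncomputable def ent (j : ℤ) : C(spectrum ℝ T, ℝ) :=
  ⟨fun s => (s : ℝ) - V j, by fun_prop⟩

theorem Phi_ent (j : ℤ) (v : H) :
    Phi T hT (ent T V j) v = T v - (V j : ℂ) • v := by
  let idc : C(spectrum ℝ T, ℝ) := (ContinuousMap.id ℝ).restrict (spectrum ℝ T)
  have e1 : ent T V j = idc - algebraMap ℝ _ (V j) := by
    ext s; rfl
  have e2 : Phi T hT idc = T := cfcHom_id hT
  rw [e1, map_sub, sub_apply, e2, AlgHomClass.commutes]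
  congr 1

include hTe in
theorem window_identity (x : ℤ) (l : ℕ) :
    Phi T hT (DW (ent T V) x l) (e x)
      = Phi T hT (cR (ent T V) x l) (e (x - l - 1))
      + Phi T hT (cL (ent T V) x l) (e (x + l + 1)) := by
  letI : Module C(spectrum ℝ T, ℝ) H := Module.compHom H
    (Phi T hT : C(spectrum ℝ T, ℝ) →⋆ₐ[ℝ] (H →L[ℂ] H)).toRingHom
  have hsm : ∀ (g : C(spectrum ℝ T, ℝ)) (v : H), g • v = Phi T hT g v := fun g v => rfl
  have := DW_identity (ent T V) e (fun j => by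
    rw [hsm, Phi_ent, hTe]
    simp) x l
  exact this

theorem cR_ent (x : ℤ) (l : ℕ) (s : spectrum ℝ T) :
    cR (ent T V) x l s = cR (sch V s) x l := by
  let f : C(spectrum ℝ T, ℝ) →+* ℝ :=
    { toFun := fun g => g s
      map_one' := rfl
      map_mul' := fun _ _ => rfl
      map_zero' := rfl
      map_add' := fun _ _ => rfl }
  exact (cR_map f (ent T V) x l).symm

theorem cL_ent (x : ℤ) (l : ℕ) (s : spectrum ℝ T) :
    cL (ent T V) x l s = cL (sch V s) x l := by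
  let f : C(spectrum ℝ T, ℝ) →+* ℝ :=
    { toFun := fun g => g s
      map_one' := rfl
      map_mul' := fun _ _ => rfl
      map_zero' := rfl
      map_add' := fun _ _ => rfl }
  exact (cL_map f (ent T V) x l).symm

theorem DW_ent (x : ℤ) (l : ℕ) (s : spectrum ℝ T) :
    DW (ent T V) x l s = DW (sch V s) x l := by
  let f : C(spectrum ℝ T, ℝ) →+* ℝ :=
    { toFun := fun g => g s
      map_one' := rfl
      map_mul' := fun _ _ => rfl
      map_zero' := rfl
      map_add' := fun _ _ => rfl }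
  exact (DW_map f (ent T V) x l).symm

include he hTe in
/-- single window estimate -/
theorem window_est (x : ℤ) (l : ℕ) (τ c : ℝ) (hτ : 0 ≤ τ) (hc : 0 < c)
    (g : C(spectrum ℝ T, ℝ)) (hg : ∀ s, |g s| ≤ 1)
    (hreg : ∀ s : spectrum ℝ T, g s ≠ 0 → c ≤ |DW (sch V s) x l| ∧
      |cL (sch V s) x l| ≤ τ * |DW (sch V s) x l| ∧
      |cR (sch V s) x l| ≤ τ * |DW (sch V s) x l|) :
    ‖Phi T hT g (e x)‖ ≤ 2 * τ := by
  set D := DW (ent T V) x l with hD
  let k : C(spectrum ℝ T, ℝ) :=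
    ⟨fun s => g s * D s / max (D s ^ 2) (c ^ 2), by
      apply Continuous.div (by fun_prop) (by fun_prop)
      intro s
      exact (lt_of_lt_of_le (by positivity) (le_max_right _ _)).ne'⟩
  have hk : k * D = g := by
    ext s
    change g s * D s / max (D s ^ 2) (c ^ 2) * D s = g s
    by_cases hs : g s = 0
    · rw [hs]; simp
    · obtain ⟨h1, -, -⟩ := hreg s hs
      rw [← DW_ent T V x l s, ← hD] at h1
      have h2 : c ^ 2 ≤ D s ^ 2 := by
        rw [← sq_abs (D s)]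
        exact pow_le_pow_left₀ hc.le h1 2
      rw [max_eq_left h2]
      have h3 : D s ≠ 0 := by
        intro h0
        rw [h0, abs_zero] at h1
        linarith
      field_simp
  have hkb : ∀ (f : C(spectrum ℝ T, ℝ)),
      (∀ s : spectrum ℝ T, g s ≠ 0 → |f s| ≤ τ * |D s|) → ∀ s, |(k * f) s| ≤ τ := by
    intro f hf s
    change |g s * D s / max (D s ^ 2) (c ^ 2) * f s| ≤ τ
    by_cases hs : g s = 0
    · rw [hs]; simpa using hτ
    · obtain ⟨h1, -, -⟩ := hreg s hs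
      rw [← DW_ent T V x l s, ← hD] at h1
      have h2 : c ^ 2 ≤ D s ^ 2 := by
        rw [← sq_abs (D s)]
        exact pow_le_pow_left₀ hc.le h1 2
      rw [max_eq_left h2]
      have h3 : 0 < |D s| := lt_of_lt_of_le hc h1
      have h4 := hf s hs
      have h5 : |g s * D s / D s ^ 2 * f s| = |g s| * |f s| / |D s| := by
        rw [abs_mul, abs_div, abs_mul, abs_pow]
        field_simp
      rw [h5, div_le_iff₀ h3]
      calc |g s| * |f s| ≤ 1 * (τ * |D s|) :=
            mul_le_mul (hg s) h4 (abs_nonneg _) zero_le_one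
        _ = τ * |D s| := one_mul _
  have e1 : Phi T hT g (e x)
      = Phi T hT (k * cR (ent T V) x l) (e (x - l - 1))
      + Phi T hT (k * cL (ent T V) x l) (e (x + l + 1)) := by
    rw [Phi_mul_apply, Phi_mul_apply, ← map_add, ← window_identity T hT V e hTe,
      ← Phi_mul_apply, ← hD, hk]
  rw [e1]
  refine (norm_add_le _ _).trans ?_
  have b1 := norm_Phi_le T hT (k * cR (ent T V) x l) τ hτ
    (hkb _ (fun s hs => by
      rw [cR_ent, hD, DW_ent]; exact (hreg s hs).2.2)) (e (x - l - 1))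
  have b2 := norm_Phi_le T hT (k * cL (ent T V) x l) τ hτ
    (hkb _ (fun s hs => by
      rw [cL_ent, hD, DW_ent]; exact (hreg s hs).2.1)) (e (x + l + 1))
  rw [he, mul_one] at b1 b2
  linarith

include hC he hTe in
theorem loc_bound (x y : ℤ) (l : ℕ) (τ : ℝ) (hτ : 0 < τ)
    (hreg : ∀ E : ℝ, |E| ≤ C → Reg V x l τ E ∨ Reg V y l τ E)
    (g : C(spectrum ℝ T, ℝ)) (hg : ∀ s, |g s| ≤ 1) :
    ‖⟪e y, Phi T hT g (e x)⟫_ℂ‖ ≤ 4 * τ := by
  have hcomp : CompactSpace (spectrum ℝ T) := isCompact_iff_compactSpace.mp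
    (ContinuousFunctionalCalculus.isCompact_spectrum (R := ℝ) T)
  -- the regularity functions
  let F : ℤ → C(spectrum ℝ T, ℝ) := fun z =>
    ⟨fun s => τ * |DW (ent T V) z l s| - max |cL (ent T V) z l s| |cR (ent T V) z l s|,
      by fun_prop⟩
  have hF : ∀ z s, 0 < F z s ↔ Reg V z l τ s := by
    intro z s
    change 0 < τ * |DW (ent T V) z l s| - max |cL (ent T V) z l s| |cR (ent T V) z l s|
      ↔ _
    rw [DW_ent, cL_ent, cR_ent, sub_pos, max_lt_iff]
    rfl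
  -- a uniform lower bound
  obtain ⟨ε, hε, hmax⟩ : ∃ ε : ℝ, 0 < ε ∧ ∀ s, 2 * ε ≤ max (F x s) (F y s) := by
    rcases isEmpty_or_nonempty (spectrum ℝ T) with hem | hne
    · exact ⟨1, one_pos, fun s => (hem.false s).elim⟩
    · obtain ⟨s₀, -, hs₀⟩ := isCompact_univ.exists_isMinOn (Set.univ_nonempty)
        (f := fun s => max (F x s) (F y s)) (by fun_prop)
      have hpos : 0 < max (F x s₀) (F y s₀) := by
        rcases hreg s₀ (spec_bound T C hC s₀) with h | h
        · exact lt_max_of_lt_left ((hF x s₀).mpr h)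
        · exact lt_max_of_lt_right ((hF y s₀).mpr h)
      refine ⟨max (F x s₀) (F y s₀) / 2, by positivity, fun s => ?_⟩
      have : max (F x s₀) (F y s₀) ≤ max (F x s) (F y s) := hs₀ (Set.mem_univ s)
      linarith
  let ρ : ℤ → C(spectrum ℝ T, ℝ) := fun z => ⟨fun s => max 0 (F z s - ε), by fun_prop⟩
  have hρ0 : ∀ z s, 0 ≤ ρ z s := fun z s => le_max_left _ _
  have hρsum : ∀ s, 0 < ρ x s + ρ y s := by
    intro s
    have h1 := hmax s
    rcases le_max_iff.mp h1 with h | h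
    · have : ε ≤ ρ x s := le_max_of_le_right (by linarith)
      linarith [hρ0 y s]
    · have : ε ≤ ρ y s := le_max_of_le_right (by linarith)
      linarith [hρ0 x s]
  have hρpos : ∀ z s, ρ z s ≠ 0 → ε ≤ F z s := by
    intro z s h
    by_contra hcon
    apply h
    change max 0 (F z s - ε) = 0
    rw [max_eq_left]
    linarith [not_le.mp hcon]
  let G : ℤ → C(spectrum ℝ T, ℝ) := fun z =>
    ⟨fun s => g s * (ρ z s / (ρ x s + ρ y s)), by
      apply Continuous.mul (by fun_prop)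
      exact Continuous.div (by fun_prop) (by fun_prop) (fun s => (hρsum s).ne')⟩
  have hGsum : G x + G y = g := by
    ext s
    change g s * (ρ x s / (ρ x s + ρ y s)) + g s * (ρ y s / (ρ x s + ρ y s)) = g s
    have := (hρsum s).ne'
    field_simp
  have hGle : ∀ z, (z = x ∨ z = y) → ∀ s, |G z s| ≤ 1 := by
    intro z hz s
    change |g s * (ρ z s / (ρ x s + ρ y s))| ≤ 1
    rw [abs_mul]
    have h1 : |ρ z s / (ρ x s + ρ y s)| ≤ 1 := by
      rw [abs_of_nonneg (div_nonneg (hρ0 z s) (hρsum s).le), div_le_one (hρsum s)]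
      rcases hz with rfl | rfl
      · linarith [hρ0 y s]
      · linarith [hρ0 x s]
    calc |g s| * |ρ z s / (ρ x s + ρ y s)| ≤ 1 * 1 :=
          mul_le_mul (hg s) h1 (abs_nonneg _) zero_le_one
      _ = 1 := one_mul _
  have hGreg : ∀ z (s : spectrum ℝ T), G z s ≠ 0 → ε / τ ≤ |DW (sch V s) z l| ∧
      |cL (sch V s) z l| ≤ τ * |DW (sch V s) z l| ∧
      |cR (sch V s) z l| ≤ τ * |DW (sch V s) z l| := by
    intro z s h
    have h1 : ρ z s ≠ 0 := by
      intro h0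
      apply h
      change g s * (ρ z s / (ρ x s + ρ y s)) = 0
      rw [h0]; simp
    have h2 := hρpos z s h1
    change ε ≤ τ * |DW (ent T V) z l s| - max |cL (ent T V) z l s| |cR (ent T V) z l s|
      at h2
    rw [DW_ent, cL_ent, cR_ent] at h2
    have h3 := le_max_left |cL (sch V s) z l| |cR (sch V s) z l|
    have h4 := le_max_right |cL (sch V s) z l| |cR (sch V s) z l|
    have h5 := abs_nonneg (cL (sch V s) z l)
    refine ⟨?_, by linarith, by linarith⟩
    rw [div_le_iff₀ hτ]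
    linarith
  have key : ∀ z, (z = x ∨ z = y) → ‖Phi T hT (G z) (e z)‖ ≤ 2 * τ := fun z hz =>
    window_est T hT V e he hTe z l τ (ε / τ) hτ.le (by positivity) (G z) (hGle z hz) (hGreg z)
  rw [← hGsum, map_add, add_apply, inner_add_right]
  refine (norm_add_le _ _).trans ?_
  have b1 : ‖⟪e y, Phi T hT (G x) (e x)⟫_ℂ‖ ≤ 2 * τ := by
    refine (norm_inner_le_norm _ _).trans ?_
    rw [he, one_mul]
    exact key x (Or.inl rfl)
  have b2 : ‖⟪e y, Phi T hT (G y) (e x)⟫_ℂ‖ ≤ 2 * τ := by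
    rw [← Phi_symm]
    refine (norm_inner_le_norm _ _).trans ?_
    rw [he, mul_one]
    exact key y (Or.inr rfl)
  linarith

include hT hC he hTe in
/-- Localization criterion, abstract form. -/
theorem loc_abs
    (hco : ∀ u v : H, Summable (fun n => ‖⟪e n, v⟫_ℂ‖) → ‖⟪u, v⟫_ℂ‖ ≤ ‖u‖ * ∑' n, ‖⟪e n, v⟫_ℂ‖)
    (x : ℤ) (l : ℤ → ℕ) (τ : ℤ → ℝ) (hτ : ∀ y, 0 < τ y) (hs : Summable τ)
    (hbad : {y | ∃ E : ℝ, |E| ≤ C ∧ ¬ Reg V x (l y) (τ y) E ∧ ¬ Reg V y (l y) (τ y) E}.Finite) :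
    e x ∈ (eigSpan T).topologicalClosure := by
  classical
  set B := {y | ∃ E : ℝ, |E| ≤ C ∧ ¬ Reg V x (l y) (τ y) E ∧ ¬ Reg V y (l y) (τ y) E} with hB
  let q : ℤ → ℝ := fun y => (if y ∈ B then 1 else 0) + 4 * τ y
  have hq : Summable q := by
    refine Summable.add ?_ (hs.mul_left 4)
    apply summable_of_finite_support
    refine hbad.subset ?_
    intro y hy
    by_contra hcon
    simp only [Function.mem_support, ne_eq, hcon, if_false, not_true_eq_false] at hy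
  refine pp_abs T hT (e x) e hco q hq ?_
  intro g hg y
  by_cases hy : y ∈ B
  · have h1 := norm_Phi_le T hT g 1 zero_le_one hg (e x)
    rw [he, mul_one] at h1
    have h2 : ‖⟪e y, Phi T hT g (e x)⟫_ℂ‖ ≤ 1 := by
      refine (norm_inner_le_norm _ _).trans ?_
      rw [he, one_mul]; exact h1
    simp only [q, hy, if_true]
    linarith [hτ y]
  · have h1 := loc_bound T hT V C hC e he hTe x y (l y) (τ y) (hτ y) (fun E hE => by
      by_contra hcon
      push Not at hcon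
      exact hy ⟨E, hE, hcon.1, hcon.2⟩) g hg
    simp only [q, hy, if_false]
    linarith

end Abs

/-- Localization criterion for the Schroedinger operator. -/
theorem loc_main (V : ℤ → ℝ) (C : ℝ) (hV : ∀ n, |V n| ≤ C)
    (h : ∀ x : ℤ, ∃ (l : ℤ → ℕ) (τ : ℤ → ℝ), (∀ y, 0 < τ y) ∧ Summable τ ∧
      {y | ∃ E : ℝ, |E| ≤ C + 2 ∧ ¬ Reg V x (l y) (τ y) E ∧ ¬ Reg V y (l y) (τ y) E}.Finite) :
    (Submodule.span ℂ
      {ψ : lp (fun _ : ℤ => ℂ) 2 |
        ∃ E : ℝ, ∀ n : ℤ,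
          ψ (n + 1) + ψ (n - 1) + (V n : ℂ) * ψ n = (E : ℂ) * ψ n}
      ).topologicalClosure = ⊤ := by
  have hset : {ψ : lp (fun _ : ℤ => ℂ) 2 |
        ∃ E : ℝ, ∀ n : ℤ,
          ψ (n + 1) + ψ (n - 1) + (V n : ℂ) * ψ n = (E : ℂ) * ψ n}
      = {ψ : L2 | ∃ E : ℝ, opCLM V C hV ψ = (E : ℂ) • ψ} := by
    ext ψ
    constructor
    · rintro ⟨E, hE⟩
      refine ⟨E, ?_⟩
      ext n
      rw [opCLM_apply, hE n]
      rfl
    · rintro ⟨E, hE⟩
      refine ⟨E, fun n => ?_⟩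
      rw [← opCLM_apply V C hV, hE]
      rfl
  rw [hset]
  apply closure_eq_top
  intro x
  obtain ⟨l, τ, hτ, hs, hbad⟩ := h x
  exact loc_abs (opCLM V C hV) (opCLM_selfAdjoint V C hV) V (C + 2) (norm_opCLM_le V C hV) dl
    norm_dl (opCLM_dl V C hV) (fun u v hv => inner_bound u v hv) x l τ hτ hs hbad

end Pool.Agent.DensePP
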