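import Mathlib
import Pool.Agent.Lib.MP_0eac64_mp.Arm

set_option autoImplicit false

namespace Pool.Agent.DensePP

open MeasureTheory Set
open scoped ENNReal

variable {ι : Type*}

/-- product of uniform distributions over `ι` -/
noncomputable abbrev PrI (ι : Type*) : Measure (ι → ℝ) := Measure.infinitePi (fun _ : ι => nu)

theorem extend_meas (M : ℕ) (e : Fin M → ι) (he : Function.Injective e) :
    Measurable (fun p : (Fin M → ℝ) × (ι → ℝ) => Function.extend e p.1 p.2) := by
  classical
  apply measurable_pi_lambda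
  intro i
  by_cases hi : ∃ j, e j = i
  · obtain ⟨j, rfl⟩ := hi
    simp only [he.extend_apply]
    exact (measurable_pi_apply j).comp measurable_fst
  · simp only [Function.extend_apply' _ _ _ hi]
    exact (measurable_pi_apply i).comp measurable_snd

theorem resample_map (M : ℕ) (e : Fin M → ι) (he : Function.Injective e) :
    ((piN M).prod (PrI ι)).map (fun p : (Fin M → ℝ) × (ι → ℝ) => Function.extend e p.1 p.2)
      = PrI ι := by
  classical
  apply Measure.eq_infinitePi
  intro s t ht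
  rw [Measure.map_apply (extend_meas M e he) (MeasurableSet.pi s.countable_toSet (fun i _ => ht i))]
  have e1 : (fun p : (Fin M → ℝ) × (ι → ℝ) => Function.extend e p.1 p.2) ⁻¹' (Set.pi s t)
      = (Set.pi univ (fun j : Fin M => if e j ∈ s then t (e j) else univ))
        ×ˢ (Set.pi (↑(s.filter (fun i => ¬ ∃ j, e j = i))) t) := by
    ext ⟨x, y⟩
    simp only [mem_preimage, Set.mem_pi, mem_prod, Finset.mem_coe, Finset.mem_filter, mem_univ,
      true_implies]
    constructor
    · intro h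
      constructor
      · intro j
        split_ifs with hj
        · have := h (e j) hj
          rwa [he.extend_apply] at this
        · trivial
      · rintro i ⟨hi, hi2⟩
        have := h i hi
        rwa [Function.extend_apply' _ _ _ hi2] at this
    · rintro ⟨h1, h2⟩ i hi
      by_cases hi2 : ∃ j, e j = i
      · obtain ⟨j, rfl⟩ := hi2
        rw [he.extend_apply]
        have := h1 j
        rwa [if_pos hi] at this
      · rw [Function.extend_apply' _ _ _ hi2]
        exact h2 i ⟨hi, hi2⟩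
  rw [e1, Measure.prod_prod, Measure.pi_pi, Measure.infinitePi_pi _ (fun i _ => ht i)]
  rw [← Finset.prod_filter_mul_prod_filter_not s (fun i => ∃ j, e j = i)]
  congr 1
  have e2 : ∀ j : Fin M, nu (if e j ∈ s then t (e j) else univ)
      = if e j ∈ s then nu (t (e j)) else 1 := by
    intro j
    split_ifs
    · rfl
    · exact measure_univ
  simp only [e2]
  rw [← Finset.prod_filter]
  have e3 : s.filter (fun i => ∃ j, e j = i)
      = (Finset.univ.filter (fun j : Fin M => e j ∈ s)).image e := by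
    ext i
    simp only [Finset.mem_filter, Finset.mem_image, Finset.mem_univ, true_and]
    constructor
    · rintro ⟨hi, j, rfl⟩
      exact ⟨j, hi, rfl⟩
    · rintro ⟨j, hj, rfl⟩
      exact ⟨hj, j, rfl⟩
  rw [e3, Finset.prod_image (fun a _ b _ h => he h)]

theorem resample (M : ℕ) (e : Fin M → ι) (he : Function.Injective e) (B : Set (ι → ℝ))
    (hB : MeasurableSet B) (c : ℝ≥0∞)
    (h : ∀ ξ : ι → ℝ, piN M {u | Function.extend e u ξ ∈ B} ≤ c) : PrI ι B ≤ c := by
  rw [← resample_map M e he, Measure.map_apply (extend_meas M e he) hB,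
    Measure.prod_apply_symm (extend_meas M e he hB)]
  calc _ ≤ ∫⁻ _y : ι → ℝ, c ∂(PrI ι) := lintegral_mono (fun y => h y)
    _ = c := by simp

theorem cube_ae (M : ℕ) : ∀ᵐ u ∂(piN M), ∀ i, u i ∈ Ico (0 : ℝ) 1 := by
  rw [ae_all_iff]
  intro i
  have h : ∀ᵐ s ∂nu, s ∈ Ico (0 : ℝ) 1 := ae_restrict_mem measurableSet_Ico
  exact (measurePreserving_eval (fun _ : Fin M => nu) i).quasiMeasurePreserving.ae h

/-- clamp to the unit interval -/
noncomputable def cl (x : ℝ) : ℝ := max 0 (min 1 x)

theorem cl_of_mem {x : ℝ} (h : x ∈ Ico (0 : ℝ) 1) : cl x = x := by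
  unfold cl
  rw [min_eq_right h.2.le, max_eq_right h.1]

theorem cl_nonneg (x : ℝ) : 0 ≤ cl x := le_max_left _ _
theorem cl_le_one (x : ℝ) : cl x ≤ 1 := max_le zero_le_one (min_le_left _ _)

theorem cl_cont : Continuous cl := by unfold cl; fun_prop

/-- One random layer on top of a background not depending on that layer. -/
structure Model (V : (ι → ℝ) → ℤ → ℝ) (e R : ℝ) (κ : ℤ → ι) (bg : (ι → ℝ) → ℤ → ℝ) : Prop where
  meas : ∀ j, Measurable (fun ξ => V ξ j)
  dec : ∀ ξ j, V ξ j = bg ξ j + e * cl (ξ (κ j))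
  bgdep : ∀ ξ ξ', (∀ i, i ∉ range κ → ξ i = ξ' i) → ∀ j, bg ξ j = bg ξ' j
  bound : ∀ ξ j, |V ξ j| ≤ R

section

variable {V : (ι → ℝ) → ℤ → ℝ} {e R : ℝ} {κ : ℤ → ι} {bg : (ι → ℝ) → ℤ → ℝ}

theorem Model.upd_in (hM : Model V e R κ bg) (M : ℕ) (s : Fin M → ℤ)
    (hs : Function.Injective (fun i => κ (s i))) (u : Fin M → ℝ) (ξ : ι → ℝ) (i : Fin M) :
    V (Function.extend (fun i => κ (s i)) u ξ) (s i) = bg ξ (s i) + e * cl (u i) := by
  rw [hM.dec]
  congr 1
  · apply hM.bgdep
    intro k hk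
    rw [Function.extend_apply']
    rintro ⟨j, rfl⟩
    exact hk ⟨_, rfl⟩
  · have : Function.extend (fun i => κ (s i)) u ξ (κ (s i)) = u i := hs.extend_apply u ξ i
    rw [this]

theorem Model.upd_out (hM : Model V e R κ bg) (M : ℕ) (s : Fin M → ℤ)
    (u : Fin M → ℝ) (ξ : ι → ℝ) (j : ℤ) (hj : ∀ i, κ (s i) ≠ κ j) :
    V (Function.extend (fun i => κ (s i)) u ξ) j = V ξ j := by
  rw [hM.dec, hM.dec]
  congr 1
  · apply hM.bgdep
    intro k hk
    rw [Function.extend_apply']
    rintro ⟨j, rfl⟩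
    exact hk ⟨_, rfl⟩
  · rw [Function.extend_apply']
    rintro ⟨i, hi⟩
    exact hj i hi

theorem Model.bg_bound (hM : Model V e R κ bg) (he : 0 ≤ e) (he1 : e ≤ 1) (ξ : ι → ℝ) (j : ℤ) :
    |bg ξ j| ≤ R + 1 := by
  have h1 := hM.bound ξ j
  have h2 := hM.dec ξ j
  have h3 := cl_nonneg (ξ (κ j))
  have h4 := cl_le_one (ξ (κ j))
  rw [abs_le] at h1 ⊢
  constructor <;> nlinarith

end

end Pool.Agent.DensePP
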