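import Mathlib
import Pool.Agent.Lib.MP_0eac64_mp.Resample
import Pool.Agent.Lib.MP_0eac64_mp.Loc

set_option autoImplicit false

namespace Pool.Agent.DensePP

open MeasureTheory Set
open scoped ENNReal

variable {ι : Type*} {V : (ι → ℝ) → ℤ → ℝ} {e R : ℝ} {κ : ℤ → ι} {bg : (ι → ℝ) → ℤ → ℝ}

/-- continuant pair along a sequence of sites -/
def cs (V : ℤ → ℝ) (E : ℝ) (s : ℕ → ℤ) (l : ℕ) : ℝ × ℝ := W (fun i => E - V (s i)) l

theorem cR_eq (V : ℤ → ℝ) (E : ℝ) (x : ℤ) (l : ℕ) :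
    cR (sch V E) x l = (cs V E (fun i => x + 1 + i) l).1 := rfl
theorem cR'_eq (V : ℤ → ℝ) (E : ℝ) (x : ℤ) (l : ℕ) :
    cR' (sch V E) x l = (cs V E (fun i => x + 1 + i) l).2 := rfl
theorem cL_eq (V : ℤ → ℝ) (E : ℝ) (x : ℤ) (l : ℕ) :
    cL (sch V E) x l = (cs V E (fun i => x - 1 - i) l).1 := rfl
theorem cL'_eq (V : ℤ → ℝ) (E : ℝ) (x : ℤ) (l : ℕ) :
    cL' (sch V E) x l = (cs V E (fun i => x - 1 - i) l).2 := rfl

theorem DW_eq (V : ℤ → ℝ) (E : ℝ) (x : ℤ) (l : ℕ) :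
    DW (sch V E) x l = (E - V x) * ((cs V E (fun i => x - 1 - i) l).1
      * (cs V E (fun i => x + 1 + i) l).1)
      - (cs V E (fun i => x - 1 - i) l).1 * (cs V E (fun i => x + 1 + i) l).2
      - (cs V E (fun i => x + 1 + i) l).1 * (cs V E (fun i => x - 1 - i) l).2 := rfl

theorem DW_eq' (V : ℤ → ℝ) (E : ℝ) (x : ℤ) (l : ℕ) :
    DW (sch V E) x l = (E - V x) * ((cs V E (fun i => x + 1 + i) l).1
      * (cs V E (fun i => x - 1 - i) l).1)
      - (cs V E (fun i => x + 1 + i) l).1 * (cs V E (fun i => x - 1 - i) l).2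
      - (cs V E (fun i => x - 1 - i) l).1 * (cs V E (fun i => x + 1 + i) l).2 := by
  rw [DW_eq]; ring

theorem cs_congr (V V' : ℤ → ℝ) (E : ℝ) (s : ℕ → ℤ) (l : ℕ) (h : ∀ i < l, V (s i) = V' (s i)) :
    cs V E s l = cs V' E s l := by
  unfold cs
  apply W_congr
  intro i hi
  rw [h i hi]

theorem Model.cs_meas (hM : Model V e R κ bg) (E : ℝ) (s : ℕ → ℤ) (l : ℕ) :
    Measurable (fun ξ => cs (V ξ) E s l) := by
  unfold cs
  apply W_measurable
  intro i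
  exact measurable_const.sub (hM.meas _)

theorem Model.R_nonneg [Nonempty ι] (hM : Model V e R κ bg) : 0 ≤ R :=
  (abs_nonneg _).trans (hM.bound (fun _ => 0) 0)

/-- bound for the arm probability -/
noncomputable def pa (e R : ℝ) (J n : ℕ) (r : ℝ) : ℝ :=
  Cc e (2 * R + 5) * r * Real.sqrt (th J ^ (n / 2) * Real.pi / e)

theorem arm_event (hM : Model V e R κ bg) (he : 0 < e) (he1 : e ≤ 1) (hR : 0 ≤ R) (J : ℕ)
    (hJ : 2 ≤ J * (e / 2)) (n : ℕ) (s : ℕ → ℤ)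
    (hs : ∀ i < n + 2, ∀ j < n + 2, κ (s i) = κ (s j) → i = j) (E : ℝ) (hE : |E| ≤ R + 3)
    (r : ℝ) (hr : 0 ≤ r) :
    PrI ι {ξ | |(cs (V ξ) E s (n + 2)).1| ≤ r} ≤ ENNReal.ofReal (pa e R J n r) := by
  have hinj : Function.Injective (fun i : Fin (n + 2) => κ (s i)) := by
    intro i j hij
    exact Fin.ext (hs i i.2 j j.2 hij)
  apply resample (n + 2) (fun i : Fin (n + 2) => κ (s i)) hinj
  · exact measurableSet_le (hM.cs_meas E s (n + 2)).fst.abs measurable_const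
  intro ξ
  set a : ℕ → ℝ := fun i => E - bg ξ (s i) with ha
  have hA : ∀ t ∈ Ico (0 : ℝ) 1, |a 0 - e * t| ≤ 2 * R + 5 := by
    intro t ht
    have h1 := hM.bg_bound he.le he1 ξ (s 0)
    simp only [ha]
    rw [abs_le] at hE h1 ⊢
    have h2 : 0 ≤ e * t := mul_nonneg he.le ht.1
    have h3 : e * t ≤ 1 := by nlinarith [ht.2, ht.1]
    constructor <;> linarith
  refine le_trans (measure_mono_ae ?_) (arm_prob e he J hJ (2 * R + 5) (by positivity) a hA n r hr)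
  filter_upwards [cube_ae (n + 2)] with u hu hmem
  have key : cs (V (Function.extend (fun i : Fin (n + 2) => κ (s i)) u ξ)) E s (n + 2)
      = AW a e (n + 2) u := by
    unfold cs AW
    apply W_congr
    intro i hi
    have h1 := hM.upd_in (n + 2) (fun i : Fin (n + 2) => s i) hinj u ξ ⟨i, hi⟩
    simp only at h1
    rw [h1, cl_of_mem (hu _)]
    unfold ex
    rw [dif_pos hi]
    simp only [ha]
    ring
  change |(AW a e (n + 2) u).1| ≤ r
  rw [← key]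
  exact hmem

theorem center_real (he : 0 < e) (b : ℝ) (u v : ℝ × ℝ) (hu : u.1 ≠ 0 ∨ u.2 ≠ 0) (τ r : ℝ)
    (hτ : 0 < τ) (hr : 0 < r) (hv : r < |v.1|) :
    nu {s | τ * |(b - e * s) * (u.1 * v.1) - u.1 * v.2 - v.1 * u.2| ≤ |u.1|}
      ≤ ENNReal.ofReal (2 / (τ * e * r)) := by
  have hv0 : v.1 ≠ 0 := by
    intro h
    rw [h, abs_zero] at hv
    linarith
  by_cases hu1 : u.1 = 0
  · have hu2 : u.2 ≠ 0 := by
      rcases hu with h | h
      · exact absurd hu1 h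
      · exact h
    have hemp : {s : ℝ | τ * |(b - e * s) * (u.1 * v.1) - u.1 * v.2 - v.1 * u.2| ≤ |u.1|} = ∅ := by
      rw [Set.eq_empty_iff_forall_notMem]
      intro s hs
      simp only [mem_ofPred_eq, hu1] at hs
      have : 0 < |v.1 * u.2| := abs_pos.mpr (mul_ne_zero hv0 hu2)
      simp only [zero_mul, mul_zero, sub_zero, zero_sub, abs_neg, abs_zero] at hs
      nlinarith
    rw [hemp]
    simp
  · have h1 := interval_meas (-e * v.1) (b * v.1 - v.2 - v.1 * u.2 / u.1) (1 / τ)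
      (mul_ne_zero (by linarith) hv0)
    have hsub : {s : ℝ | τ * |(b - e * s) * (u.1 * v.1) - u.1 * v.2 - v.1 * u.2| ≤ |u.1|}
        ⊆ {s | |-e * v.1 * s + (b * v.1 - v.2 - v.1 * u.2 / u.1)| ≤ 1 / τ} := by
      intro s hs
      simp only [mem_ofPred_eq] at hs ⊢
      have e1 : (b - e * s) * (u.1 * v.1) - u.1 * v.2 - v.1 * u.2
          = u.1 * (-e * v.1 * s + (b * v.1 - v.2 - v.1 * u.2 / u.1)) := by
        field_simp
        ring
      rw [e1, abs_mul] at hs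
      have h2 : 0 < |u.1| := abs_pos.mpr hu1
      rw [le_div_iff₀ hτ]
      by_contra hcon
      push Not at hcon
      nlinarith
    refine (measure_mono hsub).trans (h1.trans (ENNReal.ofReal_le_ofReal ?_))
    rw [abs_mul, abs_neg, abs_of_pos he]
    rw [div_le_div_iff₀ (by positivity) (by positivity)]
    have h3 : 2 * (1 / τ) * (τ * e * r) = 2 * (e * r) := by field_simp
    rw [h3]
    have : e * r ≤ e * |v.1| := mul_le_mul_of_nonneg_left hv.le he.le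
    linarith

/-- pair form of the determinant -/
def dpair (b : ℝ) (u v : ℝ × ℝ) : ℝ := b * (u.1 * v.1) - u.1 * v.2 - v.1 * u.2

theorem center_event (hM : Model V e R κ bg) (he : 0 < e) (x : ℤ) (s₁ s₂ : ℕ → ℤ) (l : ℕ)
    (h1 : ∀ i < l, κ x ≠ κ (s₁ i)) (h2 : ∀ i < l, κ x ≠ κ (s₂ i)) (E τ r : ℝ) (hτ : 0 < τ)
    (hr : 0 < r) :
    PrI ι {ξ | τ * |dpair (E - V ξ x) (cs (V ξ) E s₁ l) (cs (V ξ) E s₂ l)|
        ≤ |(cs (V ξ) E s₁ l).1| ∧ r < |(cs (V ξ) E s₂ l).1|}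
      ≤ ENNReal.ofReal (2 / (τ * e * r)) := by
  have hinj : Function.Injective (fun i : Fin 1 => κ ((fun _ => x : Fin 1 → ℤ) i)) :=
    fun i j _ => Subsingleton.elim i j
  apply resample 1 _ hinj
  · have m1 := hM.cs_meas E s₁ l
    have m2 := hM.cs_meas E s₂ l
    have m3 := hM.meas x
    have hd : Measurable (fun ξ => dpair (E - V ξ x) (cs (V ξ) E s₁ l) (cs (V ξ) E s₂ l)) := by
      unfold dpair
      exact ((measurable_const.sub m3).mul (m1.fst.mul m2.fst)).sub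
          (m1.fst.mul m2.snd) |>.sub (m2.fst.mul m1.snd)
    have hA : MeasurableSet {ξ | τ * |dpair (E - V ξ x) (cs (V ξ) E s₁ l) (cs (V ξ) E s₂ l)|
        ≤ |(cs (V ξ) E s₁ l).1|} := measurableSet_le (measurable_const.mul hd.abs) m1.fst.abs
    have hB : MeasurableSet {ξ | r < |(cs (V ξ) E s₂ l).1|} :=
      measurableSet_lt measurable_const m2.fst.abs
    exact hA.inter hB
  intro ξ
  have e1 : ∀ u, cs (V (Function.extend (fun i : Fin 1 => κ ((fun _ => x : Fin 1 → ℤ) i)) u ξ)) E s₁ l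
      = cs (V ξ) E s₁ l := by
    intro u
    apply cs_congr
    intro i hi
    exact hM.upd_out 1 (fun _ => x) u ξ (s₁ i) (fun _ => h1 i hi)
  have e2 : ∀ u, cs (V (Function.extend (fun i : Fin 1 => κ ((fun _ => x : Fin 1 → ℤ) i)) u ξ)) E s₂ l
      = cs (V ξ) E s₂ l := by
    intro u
    apply cs_congr
    intro i hi
    exact hM.upd_out 1 (fun _ => x) u ξ (s₂ i) (fun _ => h2 i hi)
  have e3 : ∀ u : Fin 1 → ℝ,
      V (Function.extend (fun i : Fin 1 => κ ((fun _ => x : Fin 1 → ℤ) i)) u ξ) x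
      = bg ξ x + e * cl (u 0) := fun u => hM.upd_in 1 (fun _ => x) hinj u ξ 0
  simp only [mem_ofPred_eq, e1, e2, e3]
  by_cases hv : r < |(cs (V ξ) E s₂ l).1|
  · have h3 := center_real he (E - bg ξ x) (cs (V ξ) E s₁ l) (cs (V ξ) E s₂ l)
      (W_ne_zero l _) τ r hτ hr hv
    have h4 := (measurePreserving_eval (fun _ : Fin 1 => nu) 0)
    have hmeas : MeasurableSet {s : ℝ | τ * |(E - bg ξ x - e * s) * ((cs (V ξ) E s₁ l).1
        * (cs (V ξ) E s₂ l).1) - (cs (V ξ) E s₁ l).1 * (cs (V ξ) E s₂ l).2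
        - (cs (V ξ) E s₂ l).1 * (cs (V ξ) E s₁ l).2| ≤ |(cs (V ξ) E s₁ l).1|} := by
      apply measurableSet_le <;> fun_prop
    rw [← h4.measure_preimage hmeas.nullMeasurableSet] at h3
    refine le_trans (measure_mono_ae ?_) h3
    filter_upwards [cube_ae 1] with u hu hmem
    obtain ⟨hm1, -⟩ := hmem
    rw [cl_of_mem (hu 0)] at hm1
    change τ * |(E - bg ξ x - e * u 0) * ((cs (V ξ) E s₁ l).1
        * (cs (V ξ) E s₂ l).1) - (cs (V ξ) E s₁ l).1 * (cs (V ξ) E s₂ l).2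
        - (cs (V ξ) E s₂ l).1 * (cs (V ξ) E s₁ l).2| ≤ |(cs (V ξ) E s₁ l).1|
    unfold dpair at hm1
    have : E - (bg ξ x + e * u 0) = E - bg ξ x - e * u 0 := by ring
    rwa [this] at hm1
  · have : {u : Fin 1 → ℝ | τ * |dpair (E - (bg ξ x + e * cl (u 0))) (cs (V ξ) E s₁ l)
        (cs (V ξ) E s₂ l)| ≤ |(cs (V ξ) E s₁ l).1| ∧ r < |(cs (V ξ) E s₂ l).1|} = ∅ := by
      rw [Set.eq_empty_iff_forall_notMem]
      intro u hu
      exact hv hu.2
    rw [this]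
    simp

/-- probability that a fixed energy is singular -/
noncomputable def pf (e R : ℝ) (J n : ℕ) (τ r : ℝ) : ℝ := 2 * (pa e R J n r + 2 / (τ * e * r))

theorem fixed_energy (hM : Model V e R κ bg) (he : 0 < e) (he1 : e ≤ 1) (hR : 0 ≤ R) (J : ℕ)
    (hJ : 2 ≤ J * (e / 2)) (n : ℕ) (x : ℤ)
    (hκ : InjOn κ (Icc (x - (n + 2 : ℕ)) (x + (n + 2 : ℕ)))) (E : ℝ) (hE : |E| ≤ R + 3)
    (τ r : ℝ) (hτ : 0 < τ) (hr : 0 < r) :
    PrI ι {ξ | ¬ Reg (V ξ) x (n + 2) τ E} ≤ ENNReal.ofReal (pf e R J n τ r) := by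
  set l := n + 2 with hl
  have hx : x ∈ Icc (x - (l : ℤ)) (x + (l : ℤ)) := ⟨by omega, by omega⟩
  have hRm : ∀ i < l, x + 1 + (i : ℤ) ∈ Icc (x - (l : ℤ)) (x + (l : ℤ)) := fun i hi =>
    ⟨by omega, by omega⟩
  have hLm : ∀ i < l, x - 1 - (i : ℤ) ∈ Icc (x - (l : ℤ)) (x + (l : ℤ)) := fun i hi =>
    ⟨by omega, by omega⟩
  have hRinj : ∀ i < l, ∀ j < l, κ (x + 1 + (i : ℤ)) = κ (x + 1 + (j : ℤ)) → i = j := by
    intro i hi j hj h
    have := hκ (hRm i hi) (hRm j hj) h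
    omega
  have hLinj : ∀ i < l, ∀ j < l, κ (x - 1 - (i : ℤ)) = κ (x - 1 - (j : ℤ)) → i = j := by
    intro i hi j hj h
    have := hκ (hLm i hi) (hLm j hj) h
    omega
  have hRx : ∀ i < l, κ x ≠ κ (x + 1 + (i : ℤ)) := by
    intro i hi h
    have := hκ hx (hRm i hi) h
    omega
  have hLx : ∀ i < l, κ x ≠ κ (x - 1 - (i : ℤ)) := by
    intro i hi h
    have := hκ hx (hLm i hi) h
    omega
  have b1 := arm_event hM he he1 hR J hJ n (fun i => x + 1 + (i : ℤ)) hRinj E hE r hr.le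
  have b2 := arm_event hM he he1 hR J hJ n (fun i => x - 1 - (i : ℤ)) hLinj E hE r hr.le
  have b3 := center_event hM he x (fun i => x - 1 - (i : ℤ)) (fun i => x + 1 + (i : ℤ)) l
    hLx hRx E τ r hτ hr
  have b4 := center_event hM he x (fun i => x + 1 + (i : ℤ)) (fun i => x - 1 - (i : ℤ)) l
    hRx hLx E τ r hτ hr
  set S1 := {ξ | |(cs (V ξ) E (fun i => x + 1 + (i : ℤ)) (n + 2)).1| ≤ r} with hS1
  set S2 := {ξ | |(cs (V ξ) E (fun i => x - 1 - (i : ℤ)) (n + 2)).1| ≤ r} with hS2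
  set S3 := {ξ | τ * |dpair (E - V ξ x) (cs (V ξ) E (fun i => x - 1 - (i : ℤ)) l)
      (cs (V ξ) E (fun i => x + 1 + (i : ℤ)) l)|
        ≤ |(cs (V ξ) E (fun i => x - 1 - (i : ℤ)) l).1| ∧
        r < |(cs (V ξ) E (fun i => x + 1 + (i : ℤ)) l).1|} with hS3
  set S4 := {ξ | τ * |dpair (E - V ξ x) (cs (V ξ) E (fun i => x + 1 + (i : ℤ)) l)
      (cs (V ξ) E (fun i => x - 1 - (i : ℤ)) l)|
        ≤ |(cs (V ξ) E (fun i => x + 1 + (i : ℤ)) l).1| ∧
        r < |(cs (V ξ) E (fun i => x - 1 - (i : ℤ)) l).1|} with hS4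
  have hsub : {ξ | ¬ Reg (V ξ) x l τ E} ⊆ (S1 ∪ S3) ∪ (S2 ∪ S4) := by
    intro ξ hξ
    simp only [mem_ofPred_eq, Reg, not_and_or, not_lt] at hξ
    rcases hξ with h | h
    · left
      rcases le_or_gt |(cs (V ξ) E (fun i => x + 1 + (i : ℤ)) (n + 2)).1| r with h5 | h5
      · left; exact h5
      · right
        refine ⟨?_, h5⟩
        rw [DW_eq, cL_eq] at h
        exact h
    · right
      rcases le_or_gt |(cs (V ξ) E (fun i => x - 1 - (i : ℤ)) (n + 2)).1| r with h5 | h5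
      · left; exact h5
      · right
        refine ⟨?_, h5⟩
        rw [DW_eq', cR_eq] at h
        exact h
  have hpa : 0 ≤ pa e R J n r := by
    unfold pa Cc
    positivity
  calc PrI ι {ξ | ¬ Reg (V ξ) x l τ E} ≤ PrI ι ((S1 ∪ S3) ∪ (S2 ∪ S4)) := measure_mono hsub
    _ ≤ (PrI ι S1 + PrI ι S3) + (PrI ι S2 + PrI ι S4) :=
      (measure_union_le _ _).trans (add_le_add (measure_union_le _ _) (measure_union_le _ _))
    _ ≤ (ENNReal.ofReal (pa e R J n r) + ENNReal.ofReal (2 / (τ * e * r)))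
        + (ENNReal.ofReal (pa e R J n r) + ENNReal.ofReal (2 / (τ * e * r))) := by
      gcongr
    _ = ENNReal.ofReal (pf e R J n τ r) := by
      rw [← ENNReal.ofReal_add hpa (by positivity), ← ENNReal.ofReal_add (by positivity)
        (by positivity)]
      congr 1
      unfold pf
      ring

end Pool.Agent.DensePP
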