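import Mathlib

set_option autoImplicit false

namespace Pool.Agent.DensePP

open Set Filter Topology

variable {Ω : Type*} [AddCommGroup Ω] [TopologicalSpace Ω] [IsTopologicalAddGroup Ω]
  [CompactSpace Ω] [T2Space Ω] [TotallyDisconnectedSpace Ω] [Infinite Ω]

theorem zsmul_ne_zero_of_dense (α : Ω) (hα : Dense (range (fun n : ℤ => n • α))) (n : ℤ)
    (hn : n ≠ 0) : n • α ≠ 0 := by
  intro h0
  have hfin : (range (fun n : ℤ => n • α)).Finite := by
    have hsub : range (fun n : ℤ => n • α) ⊆ (fun k : ℤ => k • α) '' (Icc 0 |n|) := by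
      rintro _ ⟨k, rfl⟩
      refine ⟨k % n, ⟨Int.emod_nonneg k hn, (Int.emod_lt_abs k hn).le⟩, ?_⟩
      simp only
      have h1 := Int.emod_add_mul_ediv k n
      have h2 : k • α = (k % n) • α + (k / n) • (n • α) := by
        rw [smul_smul, ← add_smul, mul_comm (k / n) n, h1]
      rw [h2, h0, smul_zero, add_zero]
    exact ((finite_Icc 0 |n|).image _).subset hsub
  have hcl := hfin.isClosed
  have huniv : range (fun n : ℤ => n • α) = univ := by
    rw [← hcl.closure_eq]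
    exact hα.closure_eq
  rw [huniv] at hfin
  exact Set.infinite_univ hfin

theorem exists_subgroup (α : Ω) (hα : Dense (range (fun n : ℤ => n • α))) (N : ℕ) :
    ∃ U : AddSubgroup Ω, IsOpen (U : Set Ω) ∧ ∀ j : ℤ, j ≠ 0 → |j| ≤ N → j • α ∉ U := by
  set F : Set Ω := (fun k : ℤ => k • α) '' {k : ℤ | k ≠ 0 ∧ |k| ≤ N} with hF
  have hFfin : F.Finite := by
    apply Set.Finite.image
    apply (finite_Icc (-(N : ℤ)) N).subset
    rintro k ⟨_, hk⟩
    exact abs_le.mp hk
  have h0 : (0 : Ω) ∈ Fᶜ := by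
    rintro ⟨k, ⟨hk, _⟩, h⟩
    exact zsmul_ne_zero_of_dense α hα k hk h
  obtain ⟨W, hW, h0W, hWF⟩ := compact_exists_isClopen_in_isOpen hFfin.isClosed.isOpen_compl h0
  obtain ⟨H, hH⟩ := IsTopologicalAddGroup.exist_openAddSubgroup_sub_clopen_nhds_of_zero hW h0W
  refine ⟨H.toAddSubgroup, H.isOpen, ?_⟩
  intro j hj hjN hmem
  exact hWF (hH hmem) ⟨j, ⟨hj, hjN⟩, rfl⟩

end Pool.Agent.DensePP
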