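import Mathlib
import Pool.Agent.Lib.MP_0eac64_mp.Loc

set_option autoImplicit false

namespace Pool.Agent.DensePP

open MeasureTheory Set Polynomial
open scoped ENNReal

/-- polynomial entries -/
noncomputable def entP (V : ℤ → ℝ) : ℤ → ℝ[X] := fun j => X - C (V j)

theorem W_degree (n : ℕ) : ∀ (a : ℕ → ℝ[X]), (∀ i, (a i).Monic ∧ (a i).degree = 1) →
    (W a n).1.Monic ∧ (W a n).1.degree = n ∧ (W a n).2.degree < n := by
  induction n with
  | zero =>
    intro a _
    refine ⟨monic_one, by simp [W_zero], by simp [W_zero]⟩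
  | succ n ih =>
    intro a ha
    obtain ⟨h1, h2, h3⟩ := ih (fun i => a (i + 1)) (fun i => ha (i + 1))
    rw [W_succ]
    set w := W (fun i => a (i + 1)) n with hw
    have hd : (a 0 * w.1).degree = ((n + 1 : ℕ) : WithBot ℕ) := by
      rw [degree_mul, (ha 0).2, h2]
      push_cast
      rw [add_comm]
    have hm : (a 0 * w.1).Monic := (ha 0).1.mul h1
    have hlt : w.2.degree < (a 0 * w.1).degree := by
      rw [hd]
      refine h3.trans ?_
      exact_mod_cast Nat.lt_succ_self n
    refine ⟨hm.sub_of_left hlt, ?_, ?_⟩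
    · simp only
      rw [degree_sub_eq_left_of_degree_lt hlt, hd]
    · simp only
      rw [h2]
      exact_mod_cast Nat.lt_succ_self n

theorem DW_degree (V : ℤ → ℝ) (x : ℤ) (l : ℕ) :
    (DW (entP V) x l).Monic ∧ (DW (entP V) x l).degree = ((2 * l + 1 : ℕ) : WithBot ℕ) := by
  have hent : ∀ j, (entP V j).Monic ∧ (entP V j).degree = 1 := fun j =>
    ⟨monic_X_sub_C _, degree_X_sub_C _⟩
  obtain ⟨l1, l2, l3⟩ := W_degree l (larm (entP V) x) (fun i => hent _)
  obtain ⟨r1, r2, r3⟩ := W_degree l (rarm (entP V) x) (fun i => hent _)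
  have hm : (entP V x * (cL (entP V) x l * cR (entP V) x l)).Monic :=
    (hent x).1.mul (l1.mul r1)
  have hd : (entP V x * (cL (entP V) x l * cR (entP V) x l)).degree
      = ((2 * l + 1 : ℕ) : WithBot ℕ) := by
    rw [degree_mul, degree_mul, (hent x).2]
    have e1 : (cL (entP V) x l).degree = l := l2
    have e2 : (cR (entP V) x l).degree = l := r2
    rw [e1, e2]
    norm_cast
    ring
  have hlt1 : (cL (entP V) x l * cR' (entP V) x l).degree
      < (entP V x * (cL (entP V) x l * cR (entP V) x l)).degree := by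
    rw [hd, degree_mul]
    have e1 : (cL (entP V) x l).degree = l := l2
    have e2 : (cR' (entP V) x l).degree < l := r3
    rw [e1]
    calc (l : WithBot ℕ) + (cR' (entP V) x l).degree ≤ (l : WithBot ℕ) + l := by
          gcongr
      _ < ((2 * l + 1 : ℕ) : WithBot ℕ) := by
          norm_cast
          omega
  have hm2 := hm.sub_of_left hlt1
  have hd2 := degree_sub_eq_left_of_degree_lt hlt1
  rw [hd] at hd2
  have hlt2 : (cR (entP V) x l * cL' (entP V) x l).degree
      < (entP V x * (cL (entP V) x l * cR (entP V) x l)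
        - cL (entP V) x l * cR' (entP V) x l).degree := by
    rw [hd2, degree_mul]
    have e1 : (cR (entP V) x l).degree = l := r2
    have e2 : (cL' (entP V) x l).degree < l := l3
    rw [e1]
    calc (l : WithBot ℕ) + (cL' (entP V) x l).degree ≤ (l : WithBot ℕ) + l := by
          gcongr
      _ < ((2 * l + 1 : ℕ) : WithBot ℕ) := by
          norm_cast
          omega
  refine ⟨hm2.sub_of_left hlt2, ?_⟩
  have := degree_sub_eq_left_of_degree_lt hlt2
  rw [hd2] at this
  exact this

/-- left or right continuant -/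
def cS {R : Type*} [CommRing R] (b : Bool) (a : ℤ → R) (x : ℤ) (l : ℕ) : R :=
  if b then cL a x l else cR a x l

theorem cS_map {R S : Type*} [CommRing R] [CommRing S] (f : R →+* S) (b : Bool) (a : ℤ → R) (x : ℤ)
    (l : ℕ) : cS b (fun i => f (a i)) x l = f (cS b a x l) := by
  unfold cS
  split_ifs
  · exact cL_map f a x l
  · exact cR_map f a x l

/-- the function whose nonnegativity describes singularity -/
def fS (b : Bool) (τ : ℝ) (V : ℤ → ℝ) (x : ℤ) (l : ℕ) (z : ℝ) : ℝ :=
  cS b (sch V z) x l ^ 2 - τ ^ 2 * DW (sch V z) x l ^ 2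

theorem not_reg_iff (V : ℤ → ℝ) (x : ℤ) (l : ℕ) (τ E : ℝ) (hτ : 0 < τ) :
    ¬ Reg V x l τ E ↔ ∃ b, 0 ≤ fS b τ V x l E := by
  have key : ∀ c d : ℝ, τ * |d| ≤ |c| ↔ 0 ≤ c ^ 2 - τ ^ 2 * d ^ 2 := by
    intro c d
    rw [← abs_of_pos hτ, ← abs_mul, ← sq_le_sq, abs_of_pos hτ]
    constructor
    · intro h; nlinarith
    · intro h; nlinarith
  unfold Reg
  rw [not_and_or, not_lt, not_lt, key, key]
  constructor
  · rintro (h | h)
    · exact ⟨true, h⟩
    · exact ⟨false, h⟩
  · rintro ⟨b, h⟩
    cases b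
    · right; exact h
    · left; exact h

theorem fS_roots (b : Bool) (τ : ℝ) (hτ : 0 < τ) (V : ℤ → ℝ) (x : ℤ) (l : ℕ) :
    ∃ Z : Finset ℝ, Z.card ≤ 4 * l + 2 ∧ ∀ z, fS b τ V x l z = 0 ↔ z ∈ Z := by
  classical
  obtain ⟨hm, hd⟩ := DW_degree V x l
  set D := DW (entP V) x l with hD
  set c := cS b (entP V) x l with hc
  have hent : ∀ j, (entP V j).Monic ∧ (entP V j).degree = 1 := fun j =>
    ⟨monic_X_sub_C _, degree_X_sub_C _⟩
  have hcd : c.degree = l := by
    rw [hc]
    unfold cS
    split_ifs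
    · exact (W_degree l (larm (entP V) x) (fun i => hent _)).2.1
    · exact (W_degree l (rarm (entP V) x) (fun i => hent _)).2.1
  set P : ℝ[X] := C (τ ^ 2) * D ^ 2 - c ^ 2 with hP
  have hτ2 : τ ^ 2 ≠ 0 := by positivity
  have hdD : (C (τ ^ 2) * D ^ 2).degree = ((4 * l + 2 : ℕ) : WithBot ℕ) := by
    rw [degree_mul, degree_C hτ2, zero_add, sq, degree_mul, hd]
    norm_cast
    ring
  have hlt : (c ^ 2).degree < (C (τ ^ 2) * D ^ 2).degree := by
    rw [hdD, sq, degree_mul, hcd]
    norm_cast
    omega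
  have hPd : P.degree = ((4 * l + 2 : ℕ) : WithBot ℕ) := by
    rw [hP, degree_sub_eq_left_of_degree_lt hlt, hdD]
  have hP0 : P ≠ 0 := by
    intro h
    rw [h, degree_zero] at hPd
    exact WithBot.natCast_ne_bot _ hPd.symm
  refine ⟨P.roots.toFinset, ?_, ?_⟩
  · calc P.roots.toFinset.card ≤ Multiset.card P.roots := Multiset.toFinset_card_le _
      _ ≤ P.natDegree := card_roots' P
      _ = 4 * l + 2 := natDegree_eq_of_degree_eq_some hPd
  · intro z
    rw [Multiset.mem_toFinset, mem_roots hP0, IsRoot.def]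
    have e1 : eval z D = DW (sch V z) x l := by
      have := DW_map (evalRingHom z) (entP V) x l
      rw [coe_evalRingHom] at this
      rw [hD, ← this]
      congr 1
      funext j
      simp [entP, sch]
    have e2 : eval z c = cS b (sch V z) x l := by
      have := cS_map (evalRingHom z) b (entP V) x l
      rw [coe_evalRingHom] at this
      rw [hc, ← this]
      congr 1
      funext j
      simp [entP, sch]
    rw [hP, eval_sub, eval_mul, eval_pow, eval_pow, eval_C, e1, e2]
    unfold fS
    constructor <;> intro h <;> linarith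

theorem fS_shift (b : Bool) (τ : ℝ) (V : ℤ → ℝ) (x : ℤ) (l : ℕ) (z c : ℝ) :
    fS b τ (fun j => V j + c) x l z = fS b τ V x l (z - c) := by
  have : sch (fun j => V j + c) z = sch V (z - c) := by
    funext j
    unfold sch
    ring
  unfold fS
  rw [this]

theorem win_congr {R : Type*} [CommRing R] (a a' : ℤ → R) (x : ℤ) (l : ℕ)
    (h : ∀ j ∈ Icc (x - (l : ℤ)) (x + (l : ℤ)), a j = a' j) :
    (∀ b, cS b a x l = cS b a' x l) ∧ DW a x l = DW a' x l := by
  have h1 : W (rarm a x) l = W (rarm a' x) l := W_congr l _ _ (fun i hi =>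
    h _ ⟨by omega, by omega⟩)
  have h2 : W (larm a x) l = W (larm a' x) l := W_congr l _ _ (fun i hi =>
    h _ ⟨by omega, by omega⟩)
  have h3 : a x = a' x := h _ ⟨by omega, by omega⟩
  constructor
  · intro b
    unfold cS cL cR
    rw [h1, h2]
  · unfold DW cL cR cL' cR'
    rw [h1, h2, h3]

theorem fS_congr (b : Bool) (τ : ℝ) (V V' : ℤ → ℝ) (x : ℤ) (l : ℕ) (z : ℝ)
    (h : ∀ j ∈ Icc (x - (l : ℤ)) (x + (l : ℤ)), V j = V' j) :
    fS b τ V x l z = fS b τ V' x l z := by
  obtain ⟨h1, h2⟩ := win_congr (sch V z) (sch V' z) x l (fun j hj => by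
    unfold sch
    rw [h j hj])
  unfold fS
  rw [h1, h2]

theorem W_continuous {X : Type*} [TopologicalSpace X] (n : ℕ) : ∀ (b : X → ℕ → ℝ),
    (∀ i, Continuous (fun x => b x i)) → Continuous (fun x => W (b x) n) := by
  induction n with
  | zero => intro b _; simp only [W_zero]; exact continuous_const
  | succ n ih =>
    intro b hb
    have h1 := ih (fun x i => b x (i + 1)) (fun i => hb (i + 1))
    simp only [W_succ]
    exact (((hb 0).mul h1.fst).sub h1.snd).prodMk h1.fst

theorem fS_continuous {X : Type*} [TopologicalSpace X] (b : Bool) (τ : ℝ) (x : ℤ) (l : ℕ)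
    (V : X → ℤ → ℝ) (z : X → ℝ) (hV : ∀ j, Continuous (fun p => V p j)) (hz : Continuous z) :
    Continuous (fun p => fS b τ (V p) x l (z p)) := by
  have h1 : Continuous (fun p => W (rarm (sch (V p) (z p)) x) l) :=
    W_continuous l _ (fun i => hz.sub (hV _))
  have h2 : Continuous (fun p => W (larm (sch (V p) (z p)) x) l) :=
    W_continuous l _ (fun i => hz.sub (hV _))
  have h3 : Continuous (fun p => sch (V p) (z p) x) := hz.sub (hV _)
  unfold fS
  apply Continuous.sub
  · apply Continuous.pow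
    unfold cS
    split_ifs
    · exact h2.fst
    · exact h1.fst
  · apply Continuous.mul continuous_const
    apply Continuous.pow
    unfold DW cL cR cL' cR'
    exact ((h3.mul (h2.fst.mul h1.fst)).sub (h2.fst.mul h1.snd)).sub (h1.fst.mul h2.snd)

end Pool.Agent.DensePP
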