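import Mathlib
import Pool.Agent.Lib.MP_0eac64_mp.Poly
import Pool.Agent.Lib.MP_0eac64_mp.Resample

set_option autoImplicit false

namespace Pool.Agent.DensePP

open MeasureTheory Set
open scoped ENNReal

/-- the cube -/
abbrev Qc (M : ℕ) : Set (Fin M → ℝ) := Set.pi univ (fun _ => Ico (0 : ℝ) 1)

theorem piN_eq (M : ℕ) : piN M = (volume : Measure (Fin M → ℝ)).restrict (Qc M) := by
  rw [volume_pi, Measure.restrict_pi_pi]
  rfl

theorem Qc_meas (M : ℕ) : MeasurableSet (Qc M) := MeasurableSet.univ_pi fun _ => measurableSet_Ico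

/-- Stollmann-type estimate: small diagonal sections imply small measure. -/
theorem stoll (M : ℕ) (H : Set (Fin M → ℝ)) (hH : MeasurableSet H) (β : ℝ) (hβ0 : 0 ≤ β)
    (hβ : ∀ u : Fin M → ℝ, volume {t : ℝ | (fun i => u i + t) ∈ H} ≤ ENNReal.ofReal β)
    (h : ℝ) (hh : 0 < h) :
    piN M H ≤ ENNReal.ofReal (β / h + M * h) := by
  have hstep : ∀ t ∈ Icc (0 : ℝ) h, piN M H
      ≤ piN M {u | (fun i => u i + t) ∈ H} + ENNReal.ofReal (M * h) := by
    intro t ht
    have hmH : MeasurableSet {u : Fin M → ℝ | (fun i => u i + t) ∈ H} := by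
      have : Measurable (fun u : Fin M → ℝ => (fun i => u i + t)) := by fun_prop
      exact this hH
    have h1 : H ∩ Qc M ⊆ ((fun v : Fin M → ℝ => v + (fun _ => -t)) ⁻¹'
        ({u | (fun i => u i + t) ∈ H} ∩ Qc M)) ∪ (⋃ i : Fin M, ({v | v i < t} ∩ Qc M)) := by
      rintro v ⟨hv, hvQ⟩
      by_cases hex : ∃ i, v i < t
      · right
        obtain ⟨i, hi⟩ := hex
        exact mem_iUnion.mpr ⟨i, hi, hvQ⟩
      · left
        push Not at hex
        refine ⟨?_, ?_⟩
        · have : (fun i => (v i + -t) + t) = v := by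
            funext i
            simp
          change (fun i => (v i + -t) + t) ∈ H
          rw [this]
          exact hv
        · intro i _
          have h2 := hvQ i (mem_univ i)
          have h3 := hex i
          change v i + -t ∈ Ico (0 : ℝ) 1
          exact ⟨by linarith, by linarith [h2.2, ht.1]⟩
    have h2 : piN M H = volume (H ∩ Qc M) := by
      rw [piN_eq, Measure.restrict_apply hH]
    have h3 : volume ((fun v : Fin M → ℝ => v + (fun _ => -t)) ⁻¹'
        ({u | (fun i => u i + t) ∈ H} ∩ Qc M)) = piN M {u | (fun i => u i + t) ∈ H} := by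
      rw [measure_preimage_add_right, piN_eq, Measure.restrict_apply hmH]
    have h4 : ∀ i : Fin M, volume ({v : Fin M → ℝ | v i < t} ∩ Qc M) ≤ ENNReal.ofReal h := by
      intro i
      have hm : MeasurableSet {v : Fin M → ℝ | v i < t} :=
        measurableSet_lt (measurable_pi_apply i) measurable_const
      rw [← Measure.restrict_apply hm, ← piN_eq]
      have h5 := (measurePreserving_eval (fun _ : Fin M => nu) i).measure_preimage
        (s := Iio t) measurableSet_Iio.nullMeasurableSet
      have h6 : {v : Fin M → ℝ | v i < t} = Function.eval i ⁻¹' Iio t := rfl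
      rw [h6, h5, nu, Measure.restrict_apply measurableSet_Iio]
      calc volume (Iio t ∩ Ico 0 1) ≤ volume (Icc 0 t) := by
            apply measure_mono
            rintro y ⟨hy1, hy2⟩
            exact ⟨hy2.1, le_of_lt hy1⟩
        _ = ENNReal.ofReal t := by simp
        _ ≤ ENNReal.ofReal h := ENNReal.ofReal_le_ofReal ht.2
    rw [h2]
    calc volume (H ∩ Qc M) ≤ _ := measure_mono h1
      _ ≤ _ := measure_union_le _ _
      _ ≤ piN M {u | (fun i => u i + t) ∈ H} + ∑ i : Fin M, volume ({v : Fin M → ℝ | v i < t} ∩ Qc M) := by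
          rw [h3]
          gcongr
          exact measure_iUnion_fintype_le _ _
      _ ≤ piN M {u | (fun i => u i + t) ∈ H} + ∑ i : Fin M, ENNReal.ofReal h := by
          gcongr with i
          exact h4 i
      _ = _ := by
          rw [Finset.sum_const, Finset.card_univ, Fintype.card_fin, nsmul_eq_mul,
            ENNReal.ofReal_mul (by positivity), ENNReal.ofReal_natCast]
  have hjoint : MeasurableSet {p : ℝ × (Fin M → ℝ) | (fun i => p.2 i + p.1) ∈ H} := by
    have : Measurable (fun p : ℝ × (Fin M → ℝ) => (fun i => p.2 i + p.1)) := by fun_prop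
    exact this hH
  have hint : ∫⁻ t in Icc 0 h, piN M {u | (fun i => u i + t) ∈ H} ≤ ENNReal.ofReal β := by
    have e1 : ∫⁻ t in Icc 0 h, piN M {u | (fun i => u i + t) ∈ H}
        = ((volume.restrict (Icc 0 h)).prod (piN M))
          {p : ℝ × (Fin M → ℝ) | (fun i => p.2 i + p.1) ∈ H} := by
      rw [Measure.prod_apply hjoint]
      rfl
    rw [e1, Measure.prod_apply_symm hjoint]
    calc _ ≤ ∫⁻ _u : Fin M → ℝ, ENNReal.ofReal β ∂(piN M) := by
          apply lintegral_mono
          intro u
          exact (Measure.restrict_apply_le _ _).trans (hβ u)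
      _ = ENNReal.ofReal β := by simp
  have hfin : ENNReal.ofReal h * piN M H ≤ ENNReal.ofReal h * ENNReal.ofReal (β / h + M * h) := by
    calc ENNReal.ofReal h * piN M H = ∫⁻ _t in Icc 0 h, piN M H := by
          rw [setLIntegral_const, Real.volume_Icc, sub_zero, mul_comm]
      _ ≤ ∫⁻ t in Icc 0 h, (piN M {u | (fun i => u i + t) ∈ H} + ENNReal.ofReal (M * h)) := by
          apply setLIntegral_mono' measurableSet_Icc
          exact hstep
      _ = (∫⁻ t in Icc 0 h, piN M {u | (fun i => u i + t) ∈ H})
          + ∫⁻ _t in Icc 0 h, ENNReal.ofReal (M * h) := by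
          rw [lintegral_add_right _ measurable_const]
      _ ≤ ENNReal.ofReal β + ENNReal.ofReal (M * h) * ENNReal.ofReal h := by
          gcongr
          rw [setLIntegral_const, Real.volume_Icc, sub_zero]
      _ = ENNReal.ofReal h * ENNReal.ofReal (β / h + M * h) := by
          rw [← ENNReal.ofReal_mul (by positivity), ← ENNReal.ofReal_add hβ0 (by positivity),
            ← ENNReal.ofReal_mul hh.le]
          congr 1
          field_simp
  exact (ENNReal.mul_le_mul_iff_right (by simpa using hh) ENNReal.ofReal_ne_top).mp hfin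

end Pool.Agent.DensePP
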