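import Mathlib
import Pool.Agent.Lib.MP_0eac64_mp.Shift
import Pool.Agent.Lib.MP_0eac64_mp.FixedE

set_option autoImplicit false

namespace Pool.Agent.DensePP

open MeasureTheory Set
open scoped ENNReal

/-- sites of the window -/
def ws (x : ℤ) (l : ℕ) : Fin (2 * l + 1) → ℤ := fun i => x - l + i

theorem ws_inj (x : ℤ) (l : ℕ) : Function.Injective (ws x l) := by
  intro i j h
  unfold ws at h
  apply Fin.ext
  omega

theorem ws_surj (x : ℤ) (l : ℕ) (j : ℤ) (hj : j ∈ Icc (x - (l : ℤ)) (x + (l : ℤ))) :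
    ∃ i, ws x l i = j := by
  obtain ⟨h1, h2⟩ := hj
  refine ⟨⟨(j - (x - l)).toNat, by omega⟩, ?_⟩
  unfold ws
  simp only
  omega

theorem ws_mem (x : ℤ) (l : ℕ) (i : Fin (2 * l + 1)) :
    ws x l i ∈ Icc (x - (l : ℤ)) (x + (l : ℤ)) := by
  have := i.2
  unfold ws
  constructor <;> omega

/-- potential with the window values added -/
noncomputable def pot (b : ℤ → ℝ) (e : ℝ) (x : ℤ) (l : ℕ) (u : Fin (2 * l + 1) → ℝ) : ℤ → ℝ :=
  fun j => b j + e * Function.extend (ws x l) u 0 j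

theorem pot_ws (b : ℤ → ℝ) (e : ℝ) (x : ℤ) (l : ℕ) (u : Fin (2 * l + 1) → ℝ)
    (i : Fin (2 * l + 1)) : pot b e x l u (ws x l i) = b (ws x l i) + e * u i := by
  unfold pot
  rw [(ws_inj x l).extend_apply]

theorem pot_cont (b : ℤ → ℝ) (e : ℝ) (x : ℤ) (l : ℕ) (j : ℤ) :
    Continuous (fun u : Fin (2 * l + 1) → ℝ => pot b e x l u j) := by
  unfold pot
  apply continuous_const.add
  apply continuous_const.mul
  by_cases h : ∃ i, ws x l i = j
  · obtain ⟨i, rfl⟩ := h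
    simp only [(ws_inj x l).extend_apply]
    exact continuous_apply i
  · simp only [Function.extend_apply' _ _ _ h]
    exact continuous_const

/-- the event that a root is close to `c` -/
def Hset (sd : Bool) (τ : ℝ) (b : ℤ → ℝ) (e : ℝ) (x : ℤ) (l : ℕ) (c δ : ℝ) :
    Set (Fin (2 * l + 1) → ℝ) :=
  {u | ∃ z ∈ Icc (c - δ) (c + δ), fS sd τ (pot b e x l u) x l z = 0}

theorem Hset_closed (sd : Bool) (τ : ℝ) (b : ℤ → ℝ) (e : ℝ) (x : ℤ) (l : ℕ) (c δ : ℝ) :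
    IsClosed (Hset sd τ b e x l c δ) := by
  have h1 : Hset sd τ b e x l c δ = Prod.snd '' {p : (Icc (c - δ) (c + δ)) × (Fin (2 * l + 1) → ℝ) |
      fS sd τ (pot b e x l p.2) x l (p.1 : ℝ) = 0} := by
    ext u
    constructor
    · rintro ⟨z, hz, h⟩
      exact ⟨(⟨z, hz⟩, u), h, rfl⟩
    · rintro ⟨⟨z, u'⟩, h, rfl⟩
      exact ⟨z, z.2, h⟩
  rw [h1]
  apply isClosedMap_snd_of_compactSpace
  apply isClosed_eq _ continuous_const
  apply fS_continuous
  · intro j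
    exact (pot_cont b e x l j).comp continuous_snd
  · fun_prop

theorem wegner (sd : Bool) (τ : ℝ) (hτ : 0 < τ) (b : ℤ → ℝ) (e : ℝ) (he : 0 < e) (x : ℤ) (l : ℕ)
    (c δ : ℝ) (hδ : 0 < δ) (h : ℝ) (hh : 0 < h) :
    piN (2 * l + 1) (Hset sd τ b e x l c δ)
      ≤ ENNReal.ofReal ((4 * l + 2 : ℕ) * (2 * δ / e) / h + (2 * l + 1 : ℕ) * h) := by
  apply stoll (2 * l + 1) _ (Hset_closed sd τ b e x l c δ).measurableSet _ (by positivity) _ h hh
  intro u
  obtain ⟨Z, hZc, hZ⟩ := fS_roots sd τ hτ (pot b e x l u) x l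
  have hsub : {t : ℝ | (fun i => u i + t) ∈ Hset sd τ b e x l c δ}
      ⊆ ⋃ ρ ∈ Z, Icc ((c - δ - ρ) / e) ((c + δ - ρ) / e) := by
    rintro t ⟨z, hz, h0⟩
    have e1 : fS sd τ (pot b e x l (fun i => u i + t)) x l z
        = fS sd τ (fun j => pot b e x l u j + e * t) x l z := by
      apply fS_congr
      intro j hj
      obtain ⟨i, rfl⟩ := ws_surj x l j hj
      simp only [pot_ws]
      ring
    rw [e1, fS_shift, hZ] at h0
    refine mem_iUnion₂.mpr ⟨z - e * t, h0, ?_⟩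
    constructor
    · rw [div_le_iff₀ he]
      linarith [hz.1]
    · rw [le_div_iff₀ he]
      linarith [hz.2]
  calc volume {t : ℝ | (fun i => u i + t) ∈ Hset sd τ b e x l c δ}
      ≤ volume (⋃ ρ ∈ Z, Icc ((c - δ - ρ) / e) ((c + δ - ρ) / e)) := measure_mono hsub
    _ ≤ ∑ ρ ∈ Z, volume (Icc ((c - δ - ρ) / e) ((c + δ - ρ) / e)) :=
        measure_biUnion_finset_le _ _
    _ = ∑ _ρ ∈ Z, ENNReal.ofReal (2 * δ / e) := by
        apply Finset.sum_congr rfl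
        intro ρ _
        rw [Real.volume_Icc]
        congr 1
        ring
    _ = (Z.card : ℝ≥0∞) * ENNReal.ofReal (2 * δ / e) := by
        rw [Finset.sum_const, nsmul_eq_mul]
    _ ≤ ((4 * l + 2 : ℕ) : ℝ≥0∞) * ENNReal.ofReal (2 * δ / e) := by
        gcongr
    _ = ENNReal.ofReal ((4 * l + 2 : ℕ) * (2 * δ / e)) := by
        rw [ENNReal.ofReal_mul (by positivity), ENNReal.ofReal_natCast]

theorem root_exists (sd : Bool) (τ : ℝ) (hτ : 0 < τ) (v : ℤ → ℝ) (x : ℤ) (l : ℕ) (R E δ : ℝ)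
    (hE : |E| ≤ R + 2) (hδ : 0 < δ) (hδ1 : δ ≤ 1) (h0 : 0 ≤ fS sd τ v x l E)
    (hvol : volume ({E' | ¬ Reg v x l τ E'} ∩ Icc (-(R + 3)) (R + 3)) < ENNReal.ofReal δ) :
    ∃ z ∈ Icc E (E + δ), fS sd τ v x l z = 0 := by
  obtain ⟨E', hE', hneg⟩ : ∃ E' ∈ Ioc E (E + δ), fS sd τ v x l E' < 0 := by
    by_contra hcon
    push Not at hcon
    have hsub : Ioc E (E + δ) ⊆ {E' | ¬ Reg v x l τ E'} ∩ Icc (-(R + 3)) (R + 3) := by
      intro E' hE'
      refine ⟨(not_reg_iff v x l τ E' hτ).mpr ⟨sd, hcon E' hE'⟩, ?_⟩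
      rw [abs_le] at hE
      exact ⟨by linarith [hE'.1, hE.1], by linarith [hE'.2, hE.2]⟩
    have h1 := measure_mono (μ := volume) hsub
    rw [Real.volume_Ioc, add_sub_cancel_left] at h1
    exact absurd (lt_of_le_of_lt h1 hvol) (lt_irrefl _)
  have hc : Continuous (fun z => fS sd τ v x l z) :=
    fS_continuous sd τ x l (fun _ => v) id (fun _ => continuous_const) continuous_id
  have hIVT := intermediate_value_Icc' hE'.1.le hc.continuousOn
  obtain ⟨z, hz, hz0⟩ := hIVT ⟨hneg.le, h0⟩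
  exact ⟨z, ⟨hz.1, hz.2.trans hE'.2⟩, hz0⟩

variable {ι : Type*} {V : (ι → ℝ) → ℤ → ℝ} {e R : ℝ} {κ : ℤ → ι} {bg : (ι → ℝ) → ℤ → ℝ}

theorem fS_measurable {X : Type*} [MeasurableSpace X] (b : Bool) (τ : ℝ) (x : ℤ) (l : ℕ)
    (V : X → ℤ → ℝ) (z : X → ℝ) (hV : ∀ j, Measurable (fun p => V p j)) (hz : Measurable z) :
    Measurable (fun p => fS b τ (V p) x l (z p)) := by
  have h1 : Measurable (fun p => W (rarm (sch (V p) (z p)) x) l) :=
    W_measurable l _ (fun i => hz.sub (hV _))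
  have h2 : Measurable (fun p => W (larm (sch (V p) (z p)) x) l) :=
    W_measurable l _ (fun i => hz.sub (hV _))
  have h3 : Measurable (fun p => sch (V p) (z p) x) := hz.sub (hV _)
  unfold fS
  apply Measurable.sub
  · apply Measurable.pow_const
    unfold cS
    split_ifs
    · exact h2.fst
    · exact h1.fst
  · apply Measurable.mul measurable_const
    apply Measurable.pow_const
    unfold DW cL cR cL' cR'
    exact ((h3.mul (h2.fst.mul h1.fst)).sub (h2.fst.mul h1.snd)).sub (h1.fst.mul h2.snd)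

theorem fS_joint_meas (hM : Model V e R κ bg) (sd : Bool) (τ : ℝ) (x : ℤ) (l : ℕ) :
    Measurable (fun p : (ι → ℝ) × ℝ => fS sd τ (V p.1) x l p.2) :=
  fS_measurable sd τ x l (fun p : (ι → ℝ) × ℝ => V p.1) (fun p => p.2)
    (fun j => (hM.meas j).comp measurable_fst) measurable_snd

theorem sing_meas (hM : Model V e R κ bg) (τ : ℝ) (hτ : 0 < τ) (x : ℤ) (l : ℕ) :
    MeasurableSet {p : (ι → ℝ) × ℝ | ¬ Reg (V p.1) x l τ p.2} := by
  have : {p : (ι → ℝ) × ℝ | ¬ Reg (V p.1) x l τ p.2}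
      = ⋃ sd : Bool, {p : (ι → ℝ) × ℝ | 0 ≤ fS sd τ (V p.1) x l p.2} := by
    ext p
    simp only [mem_ofPred_eq, mem_iUnion]
    exact not_reg_iff _ _ _ _ _ hτ
  rw [this]
  exact MeasurableSet.iUnion fun sd => measurableSet_le measurable_const (fS_joint_meas hM sd τ x l)

/-- Lebesgue measure of the singular energies -/
noncomputable def SV (V : (ι → ℝ) → ℤ → ℝ) (R τ : ℝ) (x : ℤ) (l : ℕ) (ξ : ι → ℝ) : ℝ≥0∞ :=
  volume ({E' | ¬ Reg (V ξ) x l τ E'} ∩ Icc (-(R + 3)) (R + 3))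

theorem SV_meas (hM : Model V e R κ bg) (τ : ℝ) (hτ : 0 < τ) (x : ℤ) (l : ℕ) :
    Measurable (SV V R τ x l) := by
  have h := measurable_measure_prodMk_left (ν := (volume : Measure ℝ).restrict
    (Icc (-(R + 3)) (R + 3))) (sing_meas hM τ hτ x l)
  have e1 : SV V R τ x l = fun ξ => (volume : Measure ℝ).restrict (Icc (-(R + 3)) (R + 3))
      (Prod.mk ξ ⁻¹' {p : (ι → ℝ) × ℝ | ¬ Reg (V p.1) x l τ p.2}) := by
    funext ξ
    rw [Measure.restrict_apply' measurableSet_Icc]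
    rfl
  rw [e1]
  exact h

theorem SV_prob (hM : Model V e R κ bg) (he : 0 < e) (he1 : e ≤ 1) (hR : 0 ≤ R) (J : ℕ)
    (hJ : 2 ≤ J * (e / 2)) (n : ℕ) (x : ℤ)
    (hκ : InjOn κ (Icc (x - (n + 2 : ℕ)) (x + (n + 2 : ℕ))))
    (τ r δ : ℝ) (hτ : 0 < τ) (hr : 0 < r) (hδ : 0 < δ) :
    PrI ι {ξ | ENNReal.ofReal δ ≤ SV V R τ x (n + 2) ξ}
      ≤ ENNReal.ofReal (2 * (R + 3) * pf e R J n τ r / δ) := by
  have hpf : 0 ≤ pf e R J n τ r := by unfold pf pa Cc; positivity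
  have h1 : ∫⁻ ξ, SV V R τ x (n + 2) ξ ∂(PrI ι) ≤ ENNReal.ofReal (2 * (R + 3) * pf e R J n τ r) := by
    have e1 : ∫⁻ ξ, SV V R τ x (n + 2) ξ ∂(PrI ι)
        = ((PrI ι).prod ((volume : Measure ℝ).restrict (Icc (-(R + 3)) (R + 3))))
          {p : (ι → ℝ) × ℝ | ¬ Reg (V p.1) x (n + 2) τ p.2} := by
      rw [Measure.prod_apply (sing_meas hM τ hτ x (n + 2))]
      apply lintegral_congr
      intro ξ
      rw [Measure.restrict_apply' measurableSet_Icc]
      rfl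
    rw [e1, Measure.prod_apply_symm (sing_meas hM τ hτ x (n + 2))]
    calc _ ≤ ∫⁻ _E in Icc (-(R + 3)) (R + 3), ENNReal.ofReal (pf e R J n τ r) := by
          apply setLIntegral_mono' measurableSet_Icc
          intro E hE
          exact fixed_energy hM he he1 hR J hJ n x hκ E (abs_le.mpr hE) τ r hτ hr
      _ = ENNReal.ofReal (2 * (R + 3) * pf e R J n τ r) := by
          rw [setLIntegral_const, Real.volume_Icc, ← ENNReal.ofReal_mul hpf]
          congr 1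
          ring
  have h2 := mul_meas_ge_le_lintegral (μ := PrI ι) (SV_meas hM τ hτ x (n + 2)) (ENNReal.ofReal δ)
  have h3 : ENNReal.ofReal δ * PrI ι {ξ | ENNReal.ofReal δ ≤ SV V R τ x (n + 2) ξ}
      ≤ ENNReal.ofReal δ * ENNReal.ofReal (2 * (R + 3) * pf e R J n τ r / δ) := by
    refine h2.trans (h1.trans (le_of_eq ?_))
    rw [← ENNReal.ofReal_mul hδ.le]
    congr 1
    field_simp
  exact (ENNReal.mul_le_mul_iff_right (by simpa using hδ) ENNReal.ofReal_ne_top).mp h3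

/-- the two-window bad event -/
def Bad (R τ : ℝ) (x y : ℤ) (l : ℕ) : Set (ℤ → ℝ) :=
  {v | ∃ E : ℝ, |E| ≤ R + 2 ∧ ¬ Reg v x l τ E ∧ ¬ Reg v y l τ E}

theorem Bad_closed (R τ : ℝ) (hτ : 0 < τ) (x y : ℤ) (l : ℕ) : IsClosed (Bad R τ x y l) := by
  have h1 : Bad R τ x y l = Prod.snd '' {p : (Icc (-(R + 2)) (R + 2)) × (ℤ → ℝ) |
      ¬ Reg p.2 x l τ (p.1 : ℝ) ∧ ¬ Reg p.2 y l τ (p.1 : ℝ)} := by
    ext v
    constructor
    · rintro ⟨E, hE, h⟩
      exact ⟨(⟨E, abs_le.mp hE⟩, v), h, rfl⟩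
    · rintro ⟨⟨E, v'⟩, h, rfl⟩
      exact ⟨E, abs_le.mpr E.2, h⟩
  rw [h1]
  apply isClosedMap_snd_of_compactSpace
  have key : ∀ w : ℤ, IsClosed {p : (Icc (-(R + 2)) (R + 2)) × (ℤ → ℝ) |
      ¬ Reg p.2 w l τ (p.1 : ℝ)} := by
    intro w
    have : {p : (Icc (-(R + 2)) (R + 2)) × (ℤ → ℝ) | ¬ Reg p.2 w l τ (p.1 : ℝ)}
        = ⋃ sd : Bool, {p | 0 ≤ fS sd τ p.2 w l (p.1 : ℝ)} := by
      ext p
      simp only [mem_ofPred_eq, mem_iUnion]
      exact not_reg_iff _ _ _ _ _ hτ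
    rw [this]
    apply isClosed_iUnion_of_finite
    intro sd
    apply isClosed_le continuous_const
    apply fS_continuous
    · intro j
      exact (continuous_apply j).comp continuous_snd
    · fun_prop
  exact (key x).inter (key y)

theorem V_meas (hM : Model V e R κ bg) : Measurable V :=
  measurable_pi_lambda _ (fun j => hM.meas j)

theorem Reg_congr (V V' : ℤ → ℝ) (x : ℤ) (l : ℕ) (τ E : ℝ)
    (h : ∀ j ∈ Icc (x - (l : ℤ)) (x + (l : ℤ)), V j = V' j) :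
    Reg V x l τ E ↔ Reg V' x l τ E := by
  obtain ⟨h1, h2⟩ := win_congr (sch V E) (sch V' E) x l (fun j hj => by
    unfold sch
    rw [h j hj])
  have h3 := h1 true
  have h4 := h1 false
  unfold cS at h3 h4
  simp only [if_true] at h3
  simp only [Bool.false_eq_true, if_false] at h4
  unfold Reg
  rw [h3, h4, h2]

/-- bound of the two-window probability -/
noncomputable def pt (e R : ℝ) (J n : ℕ) (τ r δ h : ℝ) : ℝ :=
  2 * (2 * (R + 3) * pf e R J n τ r / δ) + 2 * (2 * (4 * (n + 2) + 2 : ℕ)) *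
    ((4 * (n + 2) + 2 : ℕ) * (2 * δ / e) / h + (2 * (n + 2) + 1 : ℕ) * h)

theorem two_window (hM : Model V e R κ bg) (he : 0 < e) (he1 : e ≤ 1) (hR : 0 ≤ R) (J : ℕ)
    (hJ : 2 ≤ J * (e / 2)) (n : ℕ) (x y : ℤ)
    (hκ : InjOn κ (Icc (x - (n + 2 : ℕ)) (x + (n + 2 : ℕ)) ∪ Icc (y - (n + 2 : ℕ)) (y + (n + 2 : ℕ))))
    (hdisj : Disjoint (Icc (x - ((n + 2 : ℕ) : ℤ)) (x + (n + 2 : ℕ)))
      (Icc (y - ((n + 2 : ℕ) : ℤ)) (y + (n + 2 : ℕ))))
    (τ r δ h : ℝ) (hτ : 0 < τ) (hr : 0 < r) (hδ : 0 < δ) (hδ1 : δ ≤ 1) (hh : 0 < h) :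
    PrI ι (V ⁻¹' (Bad R τ x y (n + 2))) ≤ ENNReal.ofReal (pt e R J n τ r δ h) := by
  classical
  set l := n + 2 with hl
  have hκx : InjOn κ (Icc (x - (l : ℤ)) (x + (l : ℤ))) := hκ.mono subset_union_left
  have hκy : InjOn κ (Icc (y - (l : ℤ)) (y + (l : ℤ))) := hκ.mono subset_union_right
  have hpf : 0 ≤ pf e R J n τ r := by unfold pf pa Cc; positivity
  set B := V ⁻¹' (Bad R τ x y l) with hB
  have hBm : MeasurableSet B := V_meas hM (Bad_closed R τ hτ x y l).measurableSet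
  set G1 := {ξ | ENNReal.ofReal δ ≤ SV V R τ x l ξ} with hG1
  set G2 := {ξ | ENNReal.ofReal δ ≤ SV V R τ y l ξ} with hG2
  have hG1m : MeasurableSet G1 := measurableSet_le measurable_const (SV_meas hM τ hτ x l)
  have hG2m : MeasurableSet G2 := measurableSet_le measurable_const (SV_meas hM τ hτ y l)
  have p1 := SV_prob hM he he1 hR J hJ n x hκx τ r δ hτ hr hδ
  have p2 := SV_prob hM he he1 hR J hJ n y hκy τ r δ hτ hr hδ
  have p3 : PrI ι (B \ (G1 ∪ G2)) ≤ ENNReal.ofReal (2 * (2 * (4 * l + 2 : ℕ)) *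
      ((4 * l + 2 : ℕ) * (2 * δ / e) / h + (2 * l + 1 : ℕ) * h)) := by
    have hinj : Function.Injective (fun i : Fin (2 * l + 1) => κ (ws x l i)) := by
      intro i j hij
      exact ws_inj x l (hκx (ws_mem x l i) (ws_mem x l j) hij)
    apply resample (2 * l + 1) (fun i => κ (ws x l i)) hinj _ (hBm.diff (hG1m.union hG2m))
    intro ξ
    obtain ⟨Z1, hZ1c, hZ1⟩ := fS_roots true τ hτ (V ξ) y l
    obtain ⟨Z2, hZ2c, hZ2⟩ := fS_roots false τ hτ (V ξ) y l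
    have hsub : ∀ᵐ u ∂(piN (2 * l + 1)), u ∈ {u | Function.extend (fun i => κ (ws x l i)) u ξ
        ∈ B \ (G1 ∪ G2)} → u ∈ ⋃ sd : Bool, ⋃ z' ∈ Z1 ∪ Z2, Hset sd τ (bg ξ) e x l z' δ := by
      filter_upwards [cube_ae (2 * l + 1)] with u hu hmem
      obtain ⟨⟨E, hE, hx, hy⟩, hG⟩ := hmem
      set ξ' := Function.extend (fun i => κ (ws x l i)) u ξ with hξ'
      rw [mem_union, not_or] at hG
      have g1 : SV V R τ x l ξ' < ENNReal.ofReal δ := not_le.mp hG.1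
      have g2 : SV V R τ y l ξ' < ENNReal.ofReal δ := not_le.mp hG.2
      obtain ⟨sx, hsx⟩ := (not_reg_iff _ _ _ _ _ hτ).mp hx
      obtain ⟨sy, hsy⟩ := (not_reg_iff _ _ _ _ _ hτ).mp hy
      obtain ⟨z, hz, hz0⟩ := root_exists sx τ hτ (V ξ') x l R E δ hE hδ hδ1 hsx g1
      obtain ⟨z', hz', hz0'⟩ := root_exists sy τ hτ (V ξ') y l R E δ hE hδ hδ1 hsy g2
      have ey : fS sy τ (V ξ') y l z' = fS sy τ (V ξ) y l z' := by
        apply fS_congr
        intro j hj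
        apply hM.upd_out (2 * l + 1) (ws x l) u ξ j
        intro i hi
        have h5 := hκ (Or.inl (ws_mem x l i)) (Or.inr hj) hi
        have h6 := ws_mem x l i
        rw [h5] at h6
        exact (Set.disjoint_left.mp hdisj h6) hj
      have ex : fS sx τ (V ξ') x l z = fS sx τ (pot (bg ξ) e x l u) x l z := by
        apply fS_congr
        intro j hj
        obtain ⟨i, rfl⟩ := ws_surj x l j hj
        rw [pot_ws, hM.upd_in (2 * l + 1) (ws x l) hinj u ξ i, cl_of_mem (hu i)]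
      rw [ey] at hz0'
      rw [ex] at hz0
      have hz'Z : z' ∈ Z1 ∪ Z2 := by
        rw [Finset.mem_union]
        cases sy
        · right; exact (hZ2 z').mp hz0'
        · left; exact (hZ1 z').mp hz0'
      refine mem_iUnion.mpr ⟨sx, mem_iUnion₂.mpr ⟨z', hz'Z, z, ?_, hz0⟩⟩
      exact ⟨by linarith [hz.1, hz'.2], by linarith [hz.2, hz'.1]⟩
    calc piN (2 * l + 1) {u | Function.extend (fun i => κ (ws x l i)) u ξ ∈ B \ (G1 ∪ G2)}
        ≤ piN (2 * l + 1) (⋃ sd : Bool, ⋃ z' ∈ Z1 ∪ Z2, Hset sd τ (bg ξ) e x l z' δ) :=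
          measure_mono_ae hsub
      _ ≤ ∑ sd : Bool, piN (2 * l + 1) (⋃ z' ∈ Z1 ∪ Z2, Hset sd τ (bg ξ) e x l z' δ) :=
          measure_iUnion_fintype_le _ _
      _ ≤ ∑ sd : Bool, ∑ z' ∈ Z1 ∪ Z2, piN (2 * l + 1) (Hset sd τ (bg ξ) e x l z' δ) :=
          Finset.sum_le_sum fun sd _ => measure_biUnion_finset_le _ _
      _ ≤ ∑ _sd : Bool, ∑ _z' ∈ Z1 ∪ Z2, ENNReal.ofReal
            ((4 * l + 2 : ℕ) * (2 * δ / e) / h + (2 * l + 1 : ℕ) * h) := by
          apply Finset.sum_le_sum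
          intro sd _
          apply Finset.sum_le_sum
          intro z' _
          exact wegner sd τ hτ (bg ξ) e he x l z' δ hδ h hh
      _ = 2 * (((Z1 ∪ Z2).card : ℝ≥0∞) * ENNReal.ofReal
            ((4 * l + 2 : ℕ) * (2 * δ / e) / h + (2 * l + 1 : ℕ) * h)) := by
          rw [Finset.sum_const, Finset.sum_const, nsmul_eq_mul, nsmul_eq_mul]
          simp
      _ ≤ 2 * (((2 * (4 * l + 2) : ℕ) : ℝ≥0∞) * ENNReal.ofReal
            ((4 * l + 2 : ℕ) * (2 * δ / e) / h + (2 * l + 1 : ℕ) * h)) := by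
          gcongr
          have := Finset.card_union_le Z1 Z2
          omega
      _ = _ := by
          rw [← ENNReal.ofReal_natCast, ← ENNReal.ofReal_mul (by positivity)]
          have h2 : (2 : ℝ≥0∞) = ENNReal.ofReal 2 := by simp
          rw [h2, ← ENNReal.ofReal_mul (by norm_num)]
          congr 1
          push_cast
          ring
  have hcov : B ⊆ (G1 ∪ G2) ∪ (B \ (G1 ∪ G2)) := by
    intro ξ hξ
    by_cases h : ξ ∈ G1 ∪ G2
    · left; exact h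
    · right; exact ⟨hξ, h⟩
  calc PrI ι B ≤ PrI ι ((G1 ∪ G2) ∪ (B \ (G1 ∪ G2))) := measure_mono hcov
    _ ≤ (PrI ι G1 + PrI ι G2) + PrI ι (B \ (G1 ∪ G2)) :=
      (measure_union_le _ _).trans (add_le_add (measure_union_le _ _) le_rfl)
    _ ≤ (ENNReal.ofReal (2 * (R + 3) * pf e R J n τ r / δ)
        + ENNReal.ofReal (2 * (R + 3) * pf e R J n τ r / δ))
        + ENNReal.ofReal (2 * (2 * (4 * l + 2 : ℕ)) *
      ((4 * l + 2 : ℕ) * (2 * δ / e) / h + (2 * l + 1 : ℕ) * h)) := by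
      gcongr
    _ = _ := by
      rw [← ENNReal.ofReal_add (by positivity) (by positivity), ← ENNReal.ofReal_add (by positivity)
        (by positivity)]
      congr 1
      unfold pt
      rw [hl]
      ring

end Pool.Agent.DensePP
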