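import Mathlib
import Pool.Agent.Lib.MP_0eac64_mp.TwoWin

set_option autoImplicit false

namespace Pool.Agent.DensePP

open MeasureTheory Set
open scoped ENNReal

theorem summable_aux (q : ℝ) (hq0 : 0 < q) (hq1 : q < 1) (K : ℝ) :
    Summable (fun m : ℕ => K * ((m + 1 : ℝ) ^ 2 * q ^ m)) := by
  have h1 := summable_pow_mul_geometric_of_norm_lt_one (R := ℝ) 2 (r := q)
    (by rw [Real.norm_eq_abs, abs_of_pos hq0]; exact hq1)
  have h2 := (summable_nat_add_iff 1).mpr h1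
  have h3 := (h2.mul_left q⁻¹).mul_left K
  refine h3.congr (fun m => ?_)
  push_cast
  rw [pow_succ]
  field_simp
  ring

theorem params (e R : ℝ) (he : 0 < e) (he1 : e ≤ 1) (hR : 0 ≤ R) :
    ∃ (p τ : ℕ → ℝ), Summable p ∧ Summable τ ∧ (∀ m, 0 < τ m) ∧ (∀ m, 0 ≤ p m) ∧
      ∀ (ι : Type) (V : (ι → ℝ) → ℤ → ℝ) (κ : ℤ → ι) (bg : (ι → ℝ) → ℤ → ℝ),
        Model V e R κ bg → ∀ (x y : ℤ) (m : ℕ), 8 ≤ m →
        InjOn κ (Icc (x - (m / 4 : ℕ)) (x + (m / 4 : ℕ)) ∪ Icc (y - (m / 4 : ℕ)) (y + (m / 4 : ℕ))) →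
        Disjoint (Icc (x - ((m / 4 : ℕ) : ℤ)) (x + (m / 4 : ℕ)))
          (Icc (y - ((m / 4 : ℕ) : ℤ)) (y + (m / 4 : ℕ))) →
        PrI ι (V ⁻¹' (Bad R (τ m) x y (m / 4))) ≤ ENNReal.ofReal (p m) := by
  obtain ⟨J, hJ⟩ := exists_nat_ge (4 / e)
  have hJ2 : 2 ≤ J * (e / 2) := by
    rw [div_le_iff₀ he] at hJ
    linarith
  have hJ0 : J ≠ 0 := by
    rintro rfl
    norm_num at hJ2
  set θ := th J with hθ
  have hθ0 : 0 < θ := th_pos J hJ0
  have hθ1 : θ < 1 := th_lt_one J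
  set q : ℝ := θ ^ ((192 : ℝ)⁻¹) with hq
  have hq0 : 0 < q := Real.rpow_pos_of_pos hθ0 _
  have hq1 : q < 1 := Real.rpow_lt_one hθ0.le hθ1 (by norm_num)
  have hqθ : q ^ 192 = θ := by
    rw [hq, ← Real.rpow_natCast, ← Real.rpow_mul hθ0.le]
    norm_num
  set K₁ : ℝ := 2 * (Cc e (2 * R + 5) * Real.sqrt (Real.pi / e) * (q ^ 144)⁻¹ + 2 / e) with hK₁
  have hCc : 0 ≤ Cc e (2 * R + 5) := by unfold Cc; positivity
  have hK₁0 : 0 ≤ K₁ := by positivity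
  set K₂ : ℝ := 4 * (R + 3) * K₁ + 16 * (8 / e + 2) with hK₂
  have hK₂0 : 0 ≤ K₂ := by positivity
  have hpowle : ∀ m : ℕ, q ^ (4 * (m / 4)) ≤ (q ^ 3)⁻¹ * q ^ m := by
    intro m
    rw [le_inv_mul_iff₀ (by positivity), ← pow_add]
    exact pow_le_pow_of_le_one hq0.le hq1.le (by omega)
  refine ⟨fun m => (q ^ 3)⁻¹ * K₂ * ((m + 1 : ℝ) ^ 2 * q ^ m), fun m => q ^ (16 * (m / 4)),
    summable_aux q hq0 hq1 _, ?_, fun m => by positivity, fun m => by positivity, ?_⟩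
  · have hg : Summable (fun m : ℕ => (q ^ 3)⁻¹ * q ^ m) :=
      (summable_geometric_of_lt_one hq0.le hq1).mul_left _
    refine Summable.of_nonneg_of_le (fun m => by positivity) (fun m => ?_) hg
    refine le_trans ?_ (hpowle m)
    exact pow_le_pow_of_le_one hq0.le hq1.le (by omega)
  intro ι V κ bg hM x y m hm hκ hdisj
  obtain ⟨n, hn⟩ : ∃ n, m / 4 = n + 2 := ⟨m / 4 - 2, by omega⟩
  simp only
  rw [hn] at hκ hdisj ⊢
  have htw := two_window hM he he1 hR J hJ2 n x y hκ hdisj (q ^ (16 * (n + 2)))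
    ((q ^ (32 * (n + 2)))⁻¹) (q ^ (8 * (n + 2))) (q ^ (4 * (n + 2))) (by positivity)
    (by positivity) (by positivity) (pow_le_one₀ hq0.le hq1.le) (by positivity)
  refine htw.trans (ENNReal.ofReal_le_ofReal ?_)
  set l := n + 2 with hl
  -- the arm bound
  have hsqrt : Real.sqrt (th J ^ (n / 2) * Real.pi / e)
      ≤ Real.sqrt (Real.pi / e) * ((q ^ 144)⁻¹ * q ^ (48 * l)) := by
    have e1 : th J ^ (n / 2) * Real.pi / e = (q ^ (96 * (n / 2))) ^ 2 * (Real.pi / e) := by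
      rw [← hθ, ← hqθ, ← pow_mul, ← pow_mul]
      have : 192 * (n / 2) = 96 * (n / 2) * 2 := by ring
      rw [this]
      ring
    rw [e1, Real.sqrt_mul (by positivity), Real.sqrt_sq (by positivity), mul_comm]
    apply mul_le_mul_of_nonneg_left _ (Real.sqrt_nonneg _)
    rw [le_inv_mul_iff₀ (by positivity), ← pow_add]
    exact pow_le_pow_of_le_one hq0.le hq1.le (by omega)
  have hpa : pa e R J n ((q ^ (32 * l))⁻¹)
      ≤ Cc e (2 * R + 5) * Real.sqrt (Real.pi / e) * (q ^ 144)⁻¹ * q ^ (16 * l) := by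
    unfold pa
    calc Cc e (2 * R + 5) * (q ^ (32 * l))⁻¹ * Real.sqrt (th J ^ (n / 2) * Real.pi / e)
        ≤ Cc e (2 * R + 5) * (q ^ (32 * l))⁻¹ *
          (Real.sqrt (Real.pi / e) * ((q ^ 144)⁻¹ * q ^ (48 * l))) := by
          apply mul_le_mul_of_nonneg_left hsqrt (by positivity)
      _ = _ := by
          have e2 : q ^ (48 * l) = q ^ (32 * l) * q ^ (16 * l) := by
            rw [← pow_add]; congr 1; ring
          rw [e2]
          field_simp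
  have hpf : pf e R J n (q ^ (16 * l)) ((q ^ (32 * l))⁻¹) ≤ K₁ * q ^ (16 * l) := by
    unfold pf
    have e3 : 2 / (q ^ (16 * l) * e * (q ^ (32 * l))⁻¹) = 2 / e * q ^ (16 * l) := by
      have e2 : q ^ (32 * l) = q ^ (16 * l) * q ^ (16 * l) := by
        rw [← pow_add]; congr 1; ring
      rw [e2]
      field_simp
    rw [e3, hK₁]
    nlinarith
  have hpfd : pf e R J n (q ^ (16 * l)) ((q ^ (32 * l))⁻¹) / q ^ (8 * l) ≤ K₁ * q ^ (4 * l) := by
    rw [div_le_iff₀ (by positivity)]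
    refine hpf.trans ?_
    have e5 : K₁ * q ^ (4 * l) * q ^ (8 * l) = K₁ * q ^ (12 * l) := by
      rw [mul_assoc, ← pow_add]
      congr 2
      ring
    rw [e5]
    apply mul_le_mul_of_nonneg_left _ hK₁0
    exact pow_le_pow_of_le_one hq0.le hq1.le (by omega)
  have hl1 : (1 : ℝ) ≤ (l : ℝ) + 1 := by
    have : (0 : ℝ) ≤ l := Nat.cast_nonneg l
    linarith
  have hsq1 : (1 : ℝ) ≤ ((l : ℝ) + 1) ^ 2 := one_le_pow₀ hl1
  have hQ : 0 < q ^ (4 * l) := by positivity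
  have hpt : pt e R J n (q ^ (16 * l)) ((q ^ (32 * l))⁻¹) (q ^ (8 * l)) (q ^ (4 * l))
      ≤ K₂ * (((l : ℝ) + 1) ^ 2 * q ^ (4 * l)) := by
    unfold pt
    rw [← hl]
    have t1 : 2 * (2 * (R + 3) * pf e R J n (q ^ (16 * l)) ((q ^ (32 * l))⁻¹) / q ^ (8 * l))
        ≤ 4 * (R + 3) * K₁ * (((l : ℝ) + 1) ^ 2 * q ^ (4 * l)) := by
      have : 2 * (2 * (R + 3) * pf e R J n (q ^ (16 * l)) ((q ^ (32 * l))⁻¹) / q ^ (8 * l))
          = 4 * (R + 3) * (pf e R J n (q ^ (16 * l)) ((q ^ (32 * l))⁻¹) / q ^ (8 * l)) := by ring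
      rw [this, mul_assoc (4 * (R + 3)) K₁]
      apply mul_le_mul_of_nonneg_left _ (by positivity)
      refine hpfd.trans ?_
      apply mul_le_mul_of_nonneg_left _ hK₁0
      nlinarith
    have t2 : 2 * (2 * ((4 * l + 2 : ℕ) : ℝ)) * (((4 * l + 2 : ℕ) : ℝ) * (2 * q ^ (8 * l) / e) / q ^ (4 * l)
        + ((2 * l + 1 : ℕ) : ℝ) * q ^ (4 * l)) ≤ 16 * (8 / e + 2) * (((l : ℝ) + 1) ^ 2 * q ^ (4 * l)) := by
      have e4 : ((4 * l + 2 : ℕ) : ℝ) * (2 * q ^ (8 * l) / e) / q ^ (4 * l)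
          = ((4 * l + 2 : ℕ) : ℝ) * (2 / e) * q ^ (4 * l) := by
        have e2 : q ^ (8 * l) = q ^ (4 * l) * q ^ (4 * l) := by
          rw [← pow_add]; congr 1; ring
        rw [e2]
        field_simp
      rw [e4]
      push_cast
      have h5 : (4 * (l : ℝ) + 2) * (2 / e) * q ^ (4 * l) + (2 * (l : ℝ) + 1) * q ^ (4 * l)
          ≤ (8 / e + 2) * ((l : ℝ) + 1) * q ^ (4 * l) := by
        have h6 : (4 * (l : ℝ) + 2) * (2 / e) + (2 * (l : ℝ) + 1) ≤ (8 / e + 2) * ((l : ℝ) + 1) := by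
          have h7 : (4 * (l : ℝ) + 2) * (2 / e) ≤ 8 / e * ((l : ℝ) + 1) := by
            have : 8 / e * ((l : ℝ) + 1) - (4 * (l : ℝ) + 2) * (2 / e) = 4 / e := by
              field_simp; ring
            have h8 : 0 < 4 / e := by positivity
            linarith
          linarith
        calc _ = ((4 * (l : ℝ) + 2) * (2 / e) + (2 * (l : ℝ) + 1)) * q ^ (4 * l) := by ring
          _ ≤ _ := mul_le_mul_of_nonneg_right h6 hQ.le
      have h9 : 2 * (2 * (4 * (l : ℝ) + 2)) ≤ 16 * ((l : ℝ) + 1) := by linarith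
      have h10 : 0 ≤ (4 * (l : ℝ) + 2) * (2 / e) * q ^ (4 * l) + (2 * (l : ℝ) + 1) * q ^ (4 * l) := by
        positivity
      calc _ ≤ 16 * ((l : ℝ) + 1) * ((8 / e + 2) * ((l : ℝ) + 1) * q ^ (4 * l)) :=
            mul_le_mul h9 h5 h10 (by positivity)
        _ = _ := by ring
    rw [hK₂]
    linarith
  refine hpt.trans ?_
  have hlm : ((l : ℝ) + 1) ^ 2 ≤ ((m : ℝ) + 1) ^ 2 := by
    apply pow_le_pow_left₀ (by positivity)
    have : l ≤ m := by omega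
    have : (l : ℝ) ≤ m := by exact_mod_cast this
    linarith
  have hqm := hpowle m
  rw [hn] at hqm
  calc K₂ * (((l : ℝ) + 1) ^ 2 * q ^ (4 * l))
      ≤ K₂ * (((m : ℝ) + 1) ^ 2 * ((q ^ 3)⁻¹ * q ^ m)) := by
        apply mul_le_mul_of_nonneg_left _ hK₂0
        exact mul_le_mul hlm hqm hQ.le (by positivity)
    _ = (q ^ 3)⁻¹ * K₂ * (((m : ℝ) + 1) ^ 2 * q ^ m) := by ring

end Pool.Agent.DensePP
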