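import Mathlib
import Pool.Agent.Lib.MP_0eac64_mp.Params
import Pool.Agent.Lib.MP_0eac64_mp.Diag
import Pool.Agent.Lib.MP_0eac64_mp.Group

set_option autoImplicit false

namespace Pool.Agent.DensePP

open MeasureTheory Set Filter Topology
open scoped ENNReal

theorem summable_natAbs (f : ℕ → ℝ) (hf : Summable f) (x : ℤ) :
    Summable (fun y : ℤ => f (y - x).natAbs) := by
  have h1 : Summable (fun y : ℤ => f y.natAbs) := by
    apply Summable.of_nat_of_neg
    · simpa using hf
    · simpa using hf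
  have h2 : Summable ((fun y : ℤ => f y.natAbs) ∘ (Equiv.subRight x)) :=
    (Equiv.subRight x).summable_iff.mpr h1
  refine h2.congr (fun y => ?_)
  rfl

section Layer

variable {Ω : Type} [AddCommGroup Ω] [TopologicalSpace Ω] [IsTopologicalAddGroup Ω]

/-- index type of the random variables -/
abbrev Idx (U : ℕ → AddSubgroup Ω) : Type := Σ k : ℕ, Ω ⧸ U k

/-- the random function -/
noncomputable def FF (f₀ : C(Ω, ℝ)) (U : ℕ → AddSubgroup Ω) (e : ℕ → ℝ) (ω : Ω)
    (ξ : Idx U → ℝ) : ℝ :=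
  f₀ ω + ∑' i, e i * cl (ξ ⟨i, (ω : Ω ⧸ U i)⟩)

variable (f₀ : C(Ω, ℝ)) (U : ℕ → AddSubgroup Ω) (hU : ∀ k, IsOpen (U k : Set Ω)) (e : ℕ → ℝ)
  (he0 : ∀ k, 0 < e k) (hes : Summable e)

include he0 in
theorem term_bound (i : ℕ) (t : ℝ) : ‖e i * cl t‖ ≤ e i := by
  rw [norm_mul, Real.norm_eq_abs, Real.norm_eq_abs, abs_of_pos (he0 i), abs_of_nonneg (cl_nonneg t)]
  have := cl_le_one t
  have h2 := he0 i
  nlinarith

include he0 hes in
theorem term_summable (ω : Ω) (ξ : Idx U → ℝ) :
    Summable (fun i => e i * cl (ξ ⟨i, (ω : Ω ⧸ U i)⟩)) :=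
  Summable.of_norm_bounded hes (fun i => term_bound e he0 i _)

include hU he0 hes in
theorem FF_cont : Continuous (fun q : Ω × (Idx U → ℝ) => FF f₀ U e q.1 q.2) := by
  unfold FF
  apply Continuous.add
  · exact f₀.continuous.comp continuous_fst
  · apply continuous_tsum (u := e) _ hes (fun i q => term_bound e he0 i _)
    intro i
    apply continuous_const.mul
    apply cl_cont.comp
    have hd : DiscreteTopology (Ω ⧸ U i) := QuotientAddGroup.discreteTopology (hU i)
    have h1 : Continuous (fun p : (Ω ⧸ U i) × (Idx U → ℝ) => p.2 ⟨i, p.1⟩) := by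
      rw [continuous_prod_of_discrete_left]
      intro c
      exact continuous_apply (⟨i, c⟩ : Idx U)
    have h2 : Continuous (fun q : Ω × (Idx U → ℝ) => ((q.1 : Ω ⧸ U i), q.2)) :=
      (QuotientAddGroup.continuous_mk.comp continuous_fst).prodMk continuous_snd
    exact h1.comp h2

include he0 hes in
theorem FF_dist (ω : Ω) (ξ : Idx U → ℝ) : |FF f₀ U e ω ξ - f₀ ω| ≤ ∑' i, e i := by
  unfold FF
  rw [add_sub_cancel_left]
  exact tsum_of_norm_bounded hes.hasSum (fun i => term_bound e he0 i _)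

variable [CompactSpace Ω]

include hU he0 hes in
theorem FF_model (α ω : Ω) (k : ℕ) (R : ℝ) (hR : ‖f₀‖ + ∑' i, e i ≤ R) :
    Model (fun (ξ : Idx U → ℝ) (j : ℤ) => FF f₀ U e (ω + j • α) ξ) (e k) R
      (fun j : ℤ => (⟨k, ((ω + j • α : Ω) : Ω ⧸ U k)⟩ : Idx U))
      (fun ξ j => FF f₀ U e (ω + j • α) ξ
        - e k * cl (ξ ⟨k, ((ω + j • α : Ω) : Ω ⧸ U k)⟩)) where
  meas j := by
    have hfin : ∀ k, Finite (Ω ⧸ U k) := fun k => AddSubgroup.quotient_finite_of_isOpen _ (hU k)
    have h1 : Continuous (fun ξ : Idx U → ℝ => FF f₀ U e (ω + j • α) ξ) :=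
      (FF_cont f₀ U hU e he0 hes).comp (continuous_const.prodMk continuous_id)
    exact h1.measurable
  dec ξ j := by ring
  bgdep ξ ξ' h j := by
    classical
    have key : ∀ ξ : Idx U → ℝ, FF f₀ U e (ω + j • α) ξ
        - e k * cl (ξ ⟨k, ((ω + j • α : Ω) : Ω ⧸ U k)⟩)
        = f₀ (ω + j • α) + ∑' i, if i = k then 0 else
          e i * cl (ξ ⟨i, ((ω + j • α : Ω) : Ω ⧸ U i)⟩) := by
      intro ξ
      unfold FF
      rw [(term_summable U e he0 hes (ω + j • α) ξ).tsum_eq_add_tsum_ite k]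
      ring
    rw [key, key]
    congr 1
    apply tsum_congr
    intro i
    split_ifs with hi
    · rfl
    · rw [h]
      rintro ⟨j', hj'⟩
      exact hi (congrArg Sigma.fst hj').symm
  bound ξ j := by
    have h1 := FF_dist f₀ U e he0 hes (ω + j • α) ξ
    have h2 := f₀.norm_coe_le_norm (ω + j • α)
    rw [Real.norm_eq_abs] at h2
    have h3 := abs_add_le (FF f₀ U e (ω + j • α) ξ - f₀ (ω + j • α)) (f₀ (ω + j • α))
    rw [sub_add_cancel] at h3
    linarith

end Layer

theorem main_ex (Ω : Type) [AddCommGroup Ω] [TopologicalSpace Ω] [IsTopologicalAddGroup Ω]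
    [CompactSpace Ω] [T2Space Ω] [TotallyDisconnectedSpace Ω] [Infinite Ω]
    [MeasurableSpace Ω] [BorelSpace Ω]
    (μ : Measure Ω) [IsFiniteMeasure μ] (α : Ω) (hα : Dense (range (fun n : ℤ => n • α)))
    (f₀ : C(Ω, ℝ)) (ε : ℝ) (hε : 0 < ε) :
    ∃ f : C(Ω, ℝ), dist f f₀ < ε ∧ ∀ᵐ ω ∂μ,
      (Submodule.span ℂ
        {ψ : lp (fun _ : ℤ => ℂ) 2 |
          ∃ E : ℝ, ∀ n : ℤ,
            ψ (n + 1) + ψ (n - 1) + (f (ω + n • α) : ℂ) * ψ n = (E : ℂ) * ψ n}
        ).topologicalClosure = ⊤ := by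
  classical
  set ε' : ℝ := min ε 1 / 2 with hε'
  have hε'0 : 0 < ε' := by
    have : 0 < min ε 1 := lt_min hε one_pos
    positivity
  have hε'1 : ε' < ε := by
    have h1 : min ε 1 ≤ ε := min_le_left _ _
    have h2 : 0 < min ε 1 := lt_min hε one_pos
    rw [hε']
    linarith
  have hε'2 : ε' ≤ 1 := by
    have h1 : min ε 1 ≤ 1 := min_le_right _ _
    rw [hε']
    linarith
  set e : ℕ → ℝ := fun k => ε' * (1 / 2 : ℝ) ^ (k + 1) with he
  have he0 : ∀ k, 0 < e k := fun k => by positivity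
  have he1 : ∀ k, e k ≤ 1 := by
    intro k
    have : (1 / 2 : ℝ) ^ (k + 1) ≤ 1 := pow_le_one₀ (by norm_num) (by norm_num)
    simp only [he]
    nlinarith
  have hes' : HasSum e ε' := by
    have h1 := hasSum_geometric_two.mul_left (ε' * (1 / 2))
    have h2 : ε' * (1 / 2) * 2 = ε' := by ring
    rw [h2] at h1
    refine h1.congr_fun ?_ |> fun h => h
    intro k
    simp only [he]
    ring
  have hes : Summable e := hes'.summable
  set R : ℝ := ‖f₀‖ + 1 with hR
  have hR0 : 0 ≤ R := by positivity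
  have hRb : ‖f₀‖ + ∑' i, e i ≤ R := by
    rw [hes'.tsum_eq, hR]
    linarith
  -- parameters
  have hpar := fun k => params (e k) R (he0 k) (he1 k) hR0
  choose p τ hps hτs hτ0 hp0 hprob using hpar
  obtain ⟨κ, hκN, hκs⟩ := diag_select (fun k m => p k m + τ k m)
    (fun k m => add_nonneg (hp0 k m) (hτ0 k m).le) (fun k => (hps k).add (hτs k))
  choose N hN using hκN
  have hsub := fun k => exists_subgroup α hα (2 * N k)
  choose U hU hUN using hsub
  have hfin : ∀ k, Finite (Ω ⧸ U k) := fun k => AddSubgroup.quotient_finite_of_isOpen _ (hU k)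
  have hsp : Summable (fun m => p (κ m) m) :=
    Summable.of_nonneg_of_le (fun m => hp0 _ _) (fun m => by
      have := (hτ0 (κ m) m).le
      linarith) hκs
  have hsτ : Summable (fun m => τ (κ m) m) :=
    Summable.of_nonneg_of_le (fun m => (hτ0 _ _).le) (fun m => by
      have := hp0 (κ m) m
      linarith) hκs
  -- the potential
  let V : (Idx U → ℝ) × Ω → ℤ → ℝ := fun q j => FF f₀ U e (q.2 + j • α) q.1
  have hVc : Continuous V := by
    apply continuous_pi
    intro j
    exact (FF_cont f₀ U hU e he0 hes).comp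
      ((continuous_snd.add continuous_const).prodMk continuous_fst)
  -- probability bound for fixed ω
  have hfix : ∀ (ω : Ω) (x y : ℤ), 8 ≤ (y - x).natAbs →
      PrI (Idx U) {ξ | V (ξ, ω) ∈ Bad R (τ (κ (y - x).natAbs) (y - x).natAbs) x y
        ((y - x).natAbs / 4)} ≤ ENNReal.ofReal (p (κ (y - x).natAbs) (y - x).natAbs) := by
    intro ω x y hm
    set m := (y - x).natAbs with hmdef
    set k := κ m with hk
    have hmN : m ≤ N k := hN k m hk.symm
    have hM := FF_model f₀ U hU e he0 hes α ω k R hRb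
    refine hprob k (Idx U) _ _ _ hM x y m hm ?_ ?_
    · intro j hj j' hj' hjj
      simp only at hjj
      have h1 : ((ω + j • α : Ω) : Ω ⧸ U k) = ((ω + j' • α : Ω) : Ω ⧸ U k) :=
        eq_of_heq (Sigma.mk.inj_iff.mp hjj).2
      rw [QuotientAddGroup.eq] at h1
      have h2 : -(ω + j • α) + (ω + j' • α) = (j' - j) • α := by
        rw [sub_smul]; abel
      rw [h2] at h1
      by_contra hne
      refine hUN k (j' - j) (sub_ne_zero.mpr (Ne.symm hne)) ?_ h1
      have h3 : |j' - j| ≤ 2 * m := by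
        rw [abs_le]
        simp only [mem_union, mem_Icc] at hj hj'
        omega
      push_cast
      have h4 : (m : ℤ) ≤ N k := by exact_mod_cast hmN
      linarith
    · rw [Set.disjoint_left]
      rintro z ⟨hz1, hz2⟩ ⟨hz3, hz4⟩
      omega
  -- product bound
  have hae : ∀ᵐ q ∂((PrI (Idx U)).prod μ), ∀ x : ℤ, {y : ℤ | 8 ≤ (y - x).natAbs ∧
      V q ∈ Bad R (τ (κ (y - x).natAbs) (y - x).natAbs) x y ((y - x).natAbs / 4)}.Finite := by
    rw [ae_all_iff]
    intro x
    let S : ℤ → Set ((Idx U → ℝ) × Ω) := fun y => {q | 8 ≤ (y - x).natAbs ∧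
      V q ∈ Bad R (τ (κ (y - x).natAbs) (y - x).natAbs) x y ((y - x).natAbs / 4)}
    have hS : ∀ y, ((PrI (Idx U)).prod μ) (S y)
        ≤ ENNReal.ofReal (p (κ (y - x).natAbs) (y - x).natAbs) * μ univ := by
      intro y
      by_cases hm : 8 ≤ (y - x).natAbs
      · have hSm : MeasurableSet (S y) := by
          have hcl : IsClosed {q | V q ∈ Bad R (τ (κ (y - x).natAbs) (y - x).natAbs) x y
              ((y - x).natAbs / 4)} :=
            (Bad_closed R _ (hτ0 _ _) x y _).preimage hVc
          have : S y = {q | V q ∈ Bad R (τ (κ (y - x).natAbs) (y - x).natAbs) x y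
              ((y - x).natAbs / 4)} := by
            ext q
            simp only [S, mem_ofPred_eq, hm, true_and]
          rw [this]
          exact hcl.measurableSet
        rw [Measure.prod_apply_symm hSm]
        calc _ ≤ ∫⁻ _ω : Ω, ENNReal.ofReal (p (κ (y - x).natAbs) (y - x).natAbs) ∂μ := by
              apply lintegral_mono
              intro ω
              refine le_trans (measure_mono ?_) (hfix ω x y hm)
              rintro ξ ⟨_, h⟩
              exact h
          _ = _ := by rw [lintegral_const]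
      · have : S y = ∅ := by
          rw [Set.eq_empty_iff_forall_notMem]
          rintro q ⟨h, _⟩
          exact hm h
        rw [this]
        simp
    have hsum : ∑' y, ((PrI (Idx U)).prod μ) (S y) ≠ ⊤ := by
      refine ne_top_of_le_ne_top ?_ (ENNReal.tsum_le_tsum hS)
      rw [ENNReal.tsum_mul_right]
      apply ENNReal.mul_ne_top _ (measure_ne_top μ _)
      have h1 := summable_natAbs _ hsp x
      rw [← ENNReal.ofReal_tsum_of_nonneg (fun y => hp0 _ _) h1]
      exact ENNReal.ofReal_ne_top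
    exact ae_finite_setOfPred_mem hsum
  have hae2 := Measure.ae_ae_of_ae_prod hae
  obtain ⟨ξ, hξ⟩ := hae2.exists
  let f : C(Ω, ℝ) := ⟨fun ω => FF f₀ U e ω ξ,
    (FF_cont f₀ U hU e he0 hes).comp (continuous_id.prodMk continuous_const)⟩
  refine ⟨f, ?_, ?_⟩
  · refine lt_of_le_of_lt ((ContinuousMap.dist_le hε'0.le).mpr ?_) hε'1
    intro ω
    rw [Real.dist_eq]
    have := FF_dist f₀ U e he0 hes ω ξ
    rwa [hes'.tsum_eq] at this
  · filter_upwards [hξ] with ω hω
    have hbound : ∀ n : ℤ, |f (ω + n • α)| ≤ R := by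
      intro n
      exact (FF_model f₀ U hU e he0 hes α ω 0 R hRb).bound ξ n
    apply loc_main (fun n => f (ω + n • α)) R hbound
    intro x
    refine ⟨fun y => (y - x).natAbs / 4, fun y => τ (κ (y - x).natAbs) (y - x).natAbs,
      fun y => hτ0 _ _, summable_natAbs _ hsτ x, ?_⟩
    have h1 : {y : ℤ | (y - x).natAbs < 8}.Finite := by
      apply (finite_Icc (x - 8) (x + 8)).subset
      intro y hy
      simp only [mem_ofPred_eq] at hy
      constructor <;> omega
    refine (h1.union (hω x)).subset ?_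
    intro y hy
    by_cases hm : (y - x).natAbs < 8
    · left; exact hm
    · right
      exact ⟨not_lt.mp hm, hy⟩

end Pool.Agent.DensePP
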